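import Mathlib

set_option autoImplicit false

namespace Pool.Agent.H55.Bal

open Filter

/-- Limit of a finitely valued function along an ultrafilter. -/
theorem exists_ulim {α C : Type*} [Finite C] (Z : Ultrafilter α) (f : α → C) :
    ∃ t, ∀ᶠ x in (Z : Filter α), f x = t := by
  have h := (Ultrafilter.eventually_exists_iff (f := Z) (P := fun (t : C) (x : α) => f x = t)).1
    (Filter.Eventually.of_forall fun x => ⟨f x, rfl⟩)
  exact h

noncomputable def ulim {α C : Type*} [Finite C] (Z : Ultrafilter α) (f : α → C) : C :=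
  (exists_ulim Z f).choose

theorem ulim_spec {α C : Type*} [Finite C] (Z : Ultrafilter α) (f : α → C) :
    ∀ᶠ x in (Z : Filter α), f x = ulim Z f :=
  (exists_ulim Z f).choose_spec

/-- An ultrafilter extending a directed family of nonempty sets. -/
theorem exists_ultra {α : Type*} (B : Set (Set α)) (hne : B.Nonempty)
    (hdir : ∀ s ∈ B, ∀ t ∈ B, ∃ u ∈ B, u ⊆ s ∩ t) (hB : ∀ s ∈ B, s.Nonempty) :
    ∃ Z : Ultrafilter α, ∀ s ∈ B, s ∈ Z := by
  let FB : FilterBasis α := ⟨B, hne, fun {x y} hx hy => hdir x hx y hy⟩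
  have hNB : FB.filter.NeBot := by
    rw [FB.hasBasis.neBot_iff]
    intro s hs
    exact hB s hs
  refine ⟨Ultrafilter.of FB.filter, fun s hs => ?_⟩
  exact Ultrafilter.of_le FB.filter (FB.mem_filter_of_mem hs)

end Pool.Agent.H55.Bal
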