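import Mathlib
import Pool.Agent.H55.BalBase

set_option autoImplicit false

namespace Pool.Agent.H55.Bal

open Filter

/-- The polynomial `p.1 d + p.2 d^2`. -/
def ev (p : ℤ × ℤ) (d : ℤ) : ℤ := p.1 * d + p.2 * d ^ 2

/-- Partition regularity (over `ℤ`) of the family `Q` of quadratic polynomials. -/
def PR (Q : Set (ℤ × ℤ)) : Prop :=
  ∀ (κ : Type) (_ : Finite κ) (c : ℤ → κ) (F : Finset (ℤ × ℤ)), (∀ p ∈ F, p ∈ Q) →
    ∃ d υ : ℤ, 0 < d ∧ ∀ p ∈ F, ∀ q ∈ F, c (υ + ev p d) = c (υ + ev q d)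

theorem PR.mono {Q Q' : Set (ℤ × ℤ)} (h : Q ⊆ Q') (hQ' : PR Q') : PR Q := by
  intro κ hκ c F hF
  exact hQ' κ hκ c F (fun p hp => h (hF p hp))

theorem PR.ultra {Q : Set (ℤ × ℤ)} (hQ : PR Q) :
    ∃ Z : Ultrafilter (ℤ × ℤ), (∀ᶠ τ in (Z : Filter (ℤ × ℤ)), 0 < τ.1) ∧
      ∀ (κ : Type) (_ : Finite κ) (c : ℤ → κ), ∀ p ∈ Q, ∀ q ∈ Q,
        ∀ᶠ τ in (Z : Filter (ℤ × ℤ)), c (τ.2 + ev p τ.1) = c (τ.2 + ev q τ.1) := by
  let A : (κ : Type) → (ℤ → κ) → Finset (ℤ × ℤ) → Set (ℤ × ℤ) := fun κ c F =>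
    {τ | 0 < τ.1 ∧ ∀ p ∈ F, ∀ q ∈ F, c (τ.2 + ev p τ.1) = c (τ.2 + ev q τ.1)}
  let B : Set (Set (ℤ × ℤ)) := {s | ∃ (κ : Type) (_ : Finite κ) (c : ℤ → κ) (F : Finset (ℤ × ℤ)),
    (∀ p ∈ F, p ∈ Q) ∧ s = A κ c F}
  have hAne : ∀ s ∈ B, s.Nonempty := by
    rintro s ⟨κ, hκ, c, F, hF, rfl⟩
    obtain ⟨d, υ, hd, h⟩ := hQ κ hκ c F hF
    exact ⟨(d, υ), hd, h⟩
  have hne : B.Nonempty := ⟨A Unit (fun _ => ()) ∅, Unit, inferInstance, fun _ => (), ∅, by simp, rfl⟩
  have hdir : ∀ s ∈ B, ∀ t ∈ B, ∃ u ∈ B, u ⊆ s ∩ t := by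
    rintro s ⟨κ, hκ, c, F, hF, rfl⟩ t ⟨κ', hκ', c', F', hF', rfl⟩
    refine ⟨A (κ × κ') (fun x => (c x, c' x)) (F ∪ F'),
      ⟨κ × κ', inferInstance, (fun x => (c x, c' x)), (F ∪ F'), ?_, rfl⟩, ?_⟩
    · intro p hp
      rcases Finset.mem_union.1 hp with h | h
      · exact hF p h
      · exact hF' p h
    · rintro τ ⟨h0, h⟩
      refine ⟨⟨h0, fun p hp q hq => ?_⟩, ⟨h0, fun p hp q hq => ?_⟩⟩
      · exact (Prod.ext_iff.1 (h p (Finset.mem_union_left _ hp) q (Finset.mem_union_left _ hq))).1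
      · exact (Prod.ext_iff.1 (h p (Finset.mem_union_right _ hp) q
          (Finset.mem_union_right _ hq))).2
  obtain ⟨Z, hZ⟩ := exists_ultra B hne hdir hAne
  refine ⟨Z, ?_, ?_⟩
  · have := hZ _ ⟨Unit, inferInstance, fun _ => (), ∅, by simp, rfl⟩
    filter_upwards [this] with τ hτ
    exact hτ.1
  · intro κ hκ c p hp q hq
    have := hZ _ ⟨κ, hκ, c, {p, q}, by
      intro r hr
      rcases Finset.mem_insert.1 hr with h | h
      · rw [h]; exact hp
      · rw [Finset.mem_singleton.1 h]; exact hq, rfl⟩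
    filter_upwards [this] with τ hτ
    exact hτ.2 p (by simp) q (by simp)

/-- The step lemma of PET induction. -/
theorem PR.step {Q Q' : Set (ℤ × ℤ)} (hQ' : PR Q') (p1 : ℤ × ℤ)
    (hQ : ∀ p ∈ Q, p ≠ p1 → ∀ e : ℤ, 0 ≤ e →
      (p.1 - p1.1 + 2 * (p.2 - p1.2) * e, p.2 - p1.2) ∈ Q') : PR Q := by
  intro κ hκ c0 F hF
  by_cases hne : Q'.Nonempty
  swap
  · refine ⟨1, 0, one_pos, ?_⟩
    have : ∀ p ∈ F, p = p1 := by
      intro p hp
      by_contra hpp
      exact hne ⟨_, hQ p (hF p hp) hpp 0 le_rfl⟩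
    intro p hp q hq
    rw [this p hp, this q hq]
  obtain ⟨q0, hq0⟩ := hne
  obtain ⟨Z, hZ0, hZ⟩ := hQ'.ultra
  classical
  have := Fintype.ofFinite κ
  let sub : ℤ × ℤ → ℤ × ℤ := fun p => (p.1 - p1.1, p.2 - p1.2)
  let Cfg : (ℤ → κ) → Prop := fun c => ∃ E f : ℤ, 0 < E ∧ ∀ p ∈ F, p ≠ p1 → c (f + ev (sub p) E) = c f
  let Sub : (ℤ → κ) → ℕ → Prop := fun c m => ∃ f : ℤ, ∃ S : Finset κ, S.card = m ∧ c f ∉ S ∧
    ∀ T ∈ S, ∃ E : ℤ, 0 < E ∧ ∀ p ∈ F, p ≠ p1 → c (f + ev (sub p) E) = T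
  have key : ∀ m : ℕ, ∀ c : ℤ → κ, Cfg c ∨ Sub c m := by
    intro m
    induction m with
    | zero =>
      intro c
      exact Or.inr ⟨0, ∅, by simp, by simp, by simp⟩
    | succ m ih =>
      intro c
      let Lc : ℤ → κ := fun x => ulim Z (fun τ => c (x + τ.2 + ev q0 τ.1))
      have hL : ∀ x, ∀ᶠ τ in (Z : Filter (ℤ × ℤ)), c (x + τ.2 + ev q0 τ.1) = Lc x :=
        fun x => ulim_spec Z _
      have hL' : ∀ x, ∀ q ∈ Q', ∀ᶠ τ in (Z : Filter (ℤ × ℤ)), c (x + τ.2 + ev q τ.1) = Lc x := by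
        intro x q hq
        filter_upwards [hL x, hZ κ hκ (fun z => c (x + z)) q hq q0 hq0] with τ h1 h2
        rw [← h1]
        simpa only [add_assoc] using h2
      rcases ih Lc with ⟨E, f, hE, h⟩ | ⟨f, S, hS, hf, h⟩
      · left
        have e1 : ∀ᶠ τ in (Z : Filter (ℤ × ℤ)), ∀ p ∈ F, p ≠ p1 →
            c (f + ev (sub p) E + τ.2 + ev q0 τ.1) = Lc (f + ev (sub p) E) := by
          rw [Filter.eventually_all_finset]
          intro p hp
          filter_upwards [hL (f + ev (sub p) E)] with τ h1 _ using h1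
        obtain ⟨τ, h1, h2⟩ := (e1.and (hL f)).exists
        refine ⟨E, f + τ.2 + ev q0 τ.1, hE, fun p hp hpp => ?_⟩
        rw [h2, ← h p hp hpp, ← h1 p hp hpp]
        congr 1
        ring
      · choose! E hE using h
        have e1 : ∀ᶠ τ in (Z : Filter (ℤ × ℤ)), ∀ T ∈ S, ∀ p ∈ F, p ≠ p1 →
            c (f + ev (sub p) (E T) + τ.2 +
              ev ((sub p).1 + 2 * (sub p).2 * E T, (sub p).2) τ.1) = Lc (f + ev (sub p) (E T)) := by
          rw [Filter.eventually_all_finset]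
          intro T hT
          rw [Filter.eventually_all_finset]
          intro p hp
          by_cases hpp : p = p1
          · exact Filter.Eventually.of_forall fun τ h => absurd hpp h
          · have hq := hQ p (hF p hp) hpp (E T) (hE T hT).1.le
            filter_upwards [hL' (f + ev (sub p) (E T)) _ hq] with τ h1 _ using h1
        have e2 : ∀ᶠ τ in (Z : Filter (ℤ × ℤ)), ∀ p ∈ F, p ≠ p1 →
            c (f + τ.2 + ev (sub p) τ.1) = Lc f := by
          rw [Filter.eventually_all_finset]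
          intro p hp
          by_cases hpp : p = p1
          · exact Filter.Eventually.of_forall fun τ h => absurd hpp h
          · have hq := hQ p (hF p hp) hpp 0 le_rfl
            filter_upwards [hL' f _ hq] with τ h1 _
            rw [← h1]
            simp [sub]
        obtain ⟨τ, h1, h2, h3⟩ := (e1.and (e2.and hZ0)).exists
        -- new data
        have hnew : ∀ T ∈ insert (Lc f) S, ∃ E' : ℤ, 0 < E' ∧
            ∀ p ∈ F, p ≠ p1 → c (f + τ.2 + ev (sub p) E') = T := by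
          intro T hT
          rcases Finset.mem_insert.1 hT with rfl | hT
          · exact ⟨τ.1, h3, h2⟩
          · refine ⟨E T + τ.1, add_pos (hE T hT).1 h3, fun p hp hpp => ?_⟩
            refine Eq.trans ?_ ((h1 T hT p hp hpp).trans ((hE T hT).2 p hp hpp))
            congr 1
            simp only [ev]
            ring
        by_cases hc : c (f + τ.2) ∈ insert (Lc f) S
        · left
          obtain ⟨E', hE', hE''⟩ := hnew _ hc
          exact ⟨E', f + τ.2, hE', hE''⟩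
        · right
          exact ⟨f + τ.2, insert (Lc f) S, by rw [Finset.card_insert_of_notMem hf, hS], hc, hnew⟩
  have hc0 : Cfg c0 := by
    rcases key (Fintype.card κ) c0 with h | ⟨f, S, hS, hf, -⟩
    · exact h
    · exfalso
      apply hf
      rw [(Finset.card_eq_iff_eq_univ S).1 hS]
      exact Finset.mem_univ _
  obtain ⟨E, f, hE, h⟩ := hc0
  refine ⟨E, f - ev p1 E, hE, ?_⟩
  have : ∀ p ∈ F, c0 (f - ev p1 E + ev p E) = c0 f := by
    intro p hp
    by_cases hpp : p = p1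
    · rw [hpp]; congr 1; ring
    · rw [← h p hp hpp]
      congr 1
      simp only [ev, sub]
      ring
  intro p hp q hq
  rw [this p hp, this q hq]

/-- The classes for the PET induction. -/
def Cl (A B : Finset ℤ) : Set (ℤ × ℤ) := {p | (p.2 = 0 ∧ p.1 ∈ A) ∨ p.2 ∈ B}

theorem PR_Cl : ∀ (n : ℕ) (B : Finset ℤ), B.card = n → (0 : ℤ) ∉ B →
    ∀ (m : ℕ) (A : Finset ℤ), A.card = m → PR (Cl A B) := by
  intro n
  induction n with
  | zero =>
    intro B hB h0 m
    have hB' : B = ∅ := Finset.card_eq_zero.1 hB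
    subst hB'
    induction m with
    | zero =>
      intro A hA
      have hA' : A = ∅ := Finset.card_eq_zero.1 hA
      subst hA'
      intro κ hκ c F hF
      refine ⟨1, 0, one_pos, fun p hp => ?_⟩
      have := hF p hp
      simp [Cl] at this
    | succ m ih =>
      intro A hA
      obtain ⟨a1, ha1⟩ : A.Nonempty := by
        rw [← Finset.card_pos]; omega
      have := ih ((A.erase a1).image (fun a => a - a1)) (by
        rw [Finset.card_image_of_injective _ (fun x y h => by simpa using h),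
          Finset.card_erase_of_mem ha1, hA]; rfl)
      refine this.step (a1, 0) ?_
      rintro ⟨p, q⟩ hp hpp e he
      simp only [Cl, Set.mem_ofPred_eq, Finset.notMem_empty, or_false] at hp ⊢
      obtain ⟨rfl, hpA⟩ := hp
      refine ⟨by simp, ?_⟩
      rw [Finset.mem_image]
      refine ⟨p, Finset.mem_erase.2 ⟨?_, hpA⟩, by simp⟩
      rintro rfl
      exact hpp rfl
  | succ n ihn =>
    intro B hB h0 m
    induction m with
    | zero =>
      intro A hA
      have hA' : A = ∅ := Finset.card_eq_zero.1 hA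
      subst hA'
      intro κ hκ c F hF
      obtain ⟨b0, hb0⟩ : B.Nonempty := by
        rw [← Finset.card_pos]; omega
      have hPR := ihn ((B.erase b0).image (fun b => b - b0)) (by
        rw [Finset.card_image_of_injective _ (fun x y h => by simpa using h),
          Finset.card_erase_of_mem hb0, hB]; rfl) (by
        rw [Finset.mem_image]
        rintro ⟨b, hb, hb'⟩
        have : b = b0 := by omega
        exact (Finset.mem_erase.1 hb).1 this) _ (F.image Prod.fst) rfl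
      have hPF : PR (F : Set (ℤ × ℤ)) := by
        refine hPR.step (0, b0) ?_
        rintro ⟨p, q⟩ hp hpp e he
        have hpB := hF _ hp
        simp only [Cl, Set.mem_ofPred_eq, Finset.notMem_empty, and_false, false_or] at hpB ⊢
        by_cases hq : q = b0
        · left
          subst hq
          refine ⟨by simp, ?_⟩
          rw [Finset.mem_image]
          exact ⟨(p, q), hp, by simp⟩
        · right
          rw [Finset.mem_image]
          exact ⟨q, Finset.mem_erase.2 ⟨hq, hpB⟩, rfl⟩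
      exact hPF κ hκ c F (fun p hp => hp)
    | succ m ih =>
      intro A hA
      obtain ⟨a1, ha1⟩ : A.Nonempty := by
        rw [← Finset.card_pos]; omega
      have := ih ((A.erase a1).image (fun a => a - a1)) (by
        rw [Finset.card_image_of_injective _ (fun x y h => by simpa using h),
          Finset.card_erase_of_mem ha1, hA]; rfl)
      refine this.step (a1, 0) ?_
      rintro ⟨p, q⟩ hp hpp e he
      simp only [Cl, Set.mem_ofPred_eq] at hp ⊢
      rcases hp with ⟨rfl, hpA⟩ | hpB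
      · left
        refine ⟨by simp, ?_⟩
        rw [Finset.mem_image]
        refine ⟨p, Finset.mem_erase.2 ⟨?_, hpA⟩, by simp⟩
        rintro rfl
        exact hpp rfl
      · right
        simpa using hpB

theorem PR_univ : PR Set.univ := by
  intro κ hκ c F _
  classical
  have h := PR_Cl _ ((F.image Prod.snd).erase 0) rfl (by simp) _ (F.image Prod.fst) rfl
  refine h κ hκ c F ?_
  intro p hp
  by_cases h0 : p.2 = 0
  · left
    exact ⟨h0, Finset.mem_image_of_mem _ hp⟩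
  · right
    exact Finset.mem_erase.2 ⟨h0, Finset.mem_image_of_mem _ hp⟩

/-- Quadratic van der Waerden over `ℕ`. -/
theorem quad_vdw (κ : Type) (_ : Finite κ) (ψ : ℕ → κ) (N : ℕ) :
    ∃ μ υ : ℕ, 0 < μ ∧ 0 < υ ∧ ∀ a ≤ N, ∀ b ≤ N, ψ (υ + a * μ + b * μ ^ 2) = ψ υ := by
  let c : ℤ → κ := fun z => ulim (Filter.hyperfilter ℕ) (fun n : ℕ => ψ (((n : ℤ) + z).toNat))
  have hc : ∀ z, ∀ᶠ n : ℕ in (Filter.hyperfilter ℕ : Filter ℕ), ψ (((n : ℤ) + z).toNat) = c z :=
    fun z => ulim_spec _ _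
  let F : Finset (ℤ × ℤ) := ((Finset.range (N + 1)) ×ˢ (Finset.range (N + 1))).image
    (fun p => ((p.1 : ℤ), (p.2 : ℤ)))
  obtain ⟨d, z, hd, h⟩ := PR_univ κ inferInstance c F (fun _ _ => Set.mem_univ _)
  have hmem : ∀ a ≤ N, ∀ b ≤ N, ((a : ℤ), (b : ℤ)) ∈ F := by
    intro a ha b hb
    refine Finset.mem_image.2 ⟨(a, b), ?_, rfl⟩
    simp only [Finset.mem_product, Finset.mem_range]
    omega
  have e1 : ∀ᶠ n : ℕ in (Filter.hyperfilter ℕ : Filter ℕ), ∀ p ∈ F,
      ψ (((n : ℤ) + (z + ev p d)).toNat) = c (z + ev p d) := by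
    rw [Filter.eventually_all_finset]
    intro p hp
    exact hc _
  have e2 : ∀ᶠ n : ℕ in (Filter.hyperfilter ℕ : Filter ℕ), z.natAbs < n :=
    Nat.hyperfilter_le_atTop (Filter.eventually_gt_atTop _)
  obtain ⟨n, h1, h2⟩ := (e1.and e2).exists
  refine ⟨d.toNat, ((n : ℤ) + z).toNat, by omega, by omega, fun a ha b hb => ?_⟩
  have h3 := h1 _ (hmem a ha b hb)
  have h4 := h1 _ (hmem 0 (Nat.zero_le _) 0 (Nat.zero_le _))
  rw [h _ (hmem a ha b hb) _ (hmem 0 (Nat.zero_le _) 0 (Nat.zero_le _)), ← h4] at h3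
  have hz : 0 ≤ (n : ℤ) + z := by omega
  have hd' : ((d.toNat : ℕ) : ℤ) = d := Int.toNat_of_nonneg hd.le
  have hz' : ((((n : ℤ) + z).toNat : ℕ) : ℤ) = (n : ℤ) + z := Int.toNat_of_nonneg hz
  have h5 : ((n : ℤ) + (z + ev ((a : ℤ), (b : ℤ)) d)).toNat
      = ((n : ℤ) + z).toNat + a * d.toNat + b * d.toNat ^ 2 := by
    have : ((n : ℤ) + (z + ev ((a : ℤ), (b : ℤ)) d))
      = ((((n : ℤ) + z).toNat + a * d.toNat + b * d.toNat ^ 2 : ℕ) : ℤ) := by
      push_cast
      rw [hz', hd']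
      simp only [ev]
      ring
    rw [this, Int.toNat_natCast]
  have h6 : ((n : ℤ) + (z + ev (((0 : ℕ) : ℤ), ((0 : ℕ) : ℤ)) d)).toNat = ((n : ℤ) + z).toNat := by
    simp [ev]
  rw [h5, h6] at h3
  exact h3

end Pool.Agent.H55.Bal
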