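import Mathlib
import Pool.Agent.H55.BalPoly

set_option autoImplicit false

namespace Pool.Agent.H55.Bal

open Filter

/-- Finite van der Waerden theorem with uniform bound. -/
theorem fin_vdw (κ : Type) (_ : Finite κ) (K : ℕ) :
    ∃ W : ℕ, ∀ ψ : ℕ → κ, ∃ g η : ℕ, 0 < g ∧ g ≤ W ∧ 0 < η ∧ η ≤ W ∧
      ∀ i ≤ K, ψ (η + i * g) = ψ η := by
  obtain ⟨ι, hι, hl⟩ := Combinatorics.Line.exists_mono_in_high_dimension (Fin (K + 1)) κ
  classical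
  refine ⟨1 + Fintype.card ι * (K + 1), fun ψ => ?_⟩
  obtain ⟨l, c, hc⟩ := hl (fun v => ψ (1 + ∑ i, (v i : ℕ)))
  let g : ℕ := (Finset.univ.filter (fun i => l.idxFun i = none)).card
  let η : ℕ := 1 + ∑ i ∈ Finset.univ.filter (fun i => ¬ l.idxFun i = none), ((l 0 i : Fin (K + 1)) : ℕ)
  have hsum : ∀ x : Fin (K + 1), 1 + ∑ i, ((l x i : Fin (K + 1)) : ℕ) = η + x * g := by
    intro x
    rw [← Finset.sum_filter_add_sum_filter_not Finset.univ (fun i => l.idxFun i = none)]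
    have h1 : ∑ i ∈ Finset.univ.filter (fun i => l.idxFun i = none), ((l x i : Fin (K + 1)) : ℕ)
        = x * g := by
      rw [Finset.sum_congr rfl (g := fun _ => (x : ℕ))]
      · rw [Finset.sum_const, smul_eq_mul, mul_comm]
      · intro i hi
        rw [Combinatorics.Line.apply_none _ _ _ (Finset.mem_filter.1 hi).2]
    have h2 : ∑ i ∈ Finset.univ.filter (fun i => ¬ l.idxFun i = none), ((l x i : Fin (K + 1)) : ℕ)
        = ∑ i ∈ Finset.univ.filter (fun i => ¬ l.idxFun i = none), ((l 0 i : Fin (K + 1)) : ℕ) := by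
      refine Finset.sum_congr rfl fun i hi => ?_
      have := (Finset.mem_filter.1 hi).2
      rw [Combinatorics.Line.coe_apply, Combinatorics.Line.coe_apply]
      cases h : l.idxFun i with
      | none => exact absurd h this
      | some y => simp
    rw [h1, h2]
    simp only [η]
    ring
  have hg : 0 < g := by
    obtain ⟨i, hi⟩ := l.proper
    exact Finset.card_pos.2 ⟨i, Finset.mem_filter.2 ⟨Finset.mem_univ _, hi⟩⟩
  have hgW : g ≤ Fintype.card ι := Finset.card_le_univ _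
  have hηW : η ≤ 1 + Fintype.card ι * K := by
    simp only [η]
    have : ∑ i ∈ Finset.univ.filter (fun i => ¬ l.idxFun i = none), ((l 0 i : Fin (K + 1)) : ℕ)
        ≤ ∑ i ∈ Finset.univ.filter (fun i => ¬ l.idxFun i = none), K :=
      Finset.sum_le_sum fun i _ => Nat.lt_succ_iff.1 (l 0 i).2
    rw [Finset.sum_const, smul_eq_mul] at this
    have h3 : (Finset.univ.filter (fun i => ¬ l.idxFun i = none)).card * K ≤ Fintype.card ι * K :=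
      Nat.mul_le_mul_right _ (Finset.card_le_univ _)
    omega
  refine ⟨g, η, hg, ?_, by simp only [η]; omega, ?_, fun i hi => ?_⟩
  · nlinarith
  · nlinarith
  · have h1 := hc ⟨i, Nat.lt_succ_of_le hi⟩
    have h2 := hc 0
    simp only [hsum] at h1 h2
    rw [h1, ← h2]
    simp

/-- Lemma 2: the combined statement. -/
theorem lemma2 (κ : Type) (_ : Finite κ) (κ' : Type) (_ : Finite κ') (Ψ : ℕ → ℕ → κ)
    (Ψ' : ℕ → κ') (m K : ℕ) (hm : 0 < m) :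
    ∃ g η υ : ℕ, 0 < g ∧ 0 < η ∧ 0 < υ ∧ m ∣ g ∧ m ∣ η ∧
      (∀ i ≤ K, ∀ x, m * x = i * g → Ψ (η + x) υ = Ψ η υ) ∧
      (∀ i1 ≤ K, ∀ i2 ≤ K, ∀ i3 ≤ K, ∀ x, m * x = i1 * g + i2 * (g * η) + i3 * η →
        Ψ' (υ + x) = Ψ' υ) := by
  obtain ⟨W, hW⟩ := fin_vdw κ inferInstance K
  obtain ⟨μ, υ, hμ, hυ, h⟩ := quad_vdw κ' inferInstance Ψ' (K * m * W + K * W + K * m ^ 2 * W * W)
  obtain ⟨g', η', hg', hg'W, hη', hη'W, h'⟩ := hW (fun j => Ψ (m * μ * j) υ)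
  refine ⟨m ^ 2 * μ * g', m * μ * η', υ, by positivity, by positivity, hυ,
    ⟨m * μ * g', by ring⟩, ⟨μ * η', by ring⟩, ?_, ?_⟩
  · intro i hi x hx
    have hx' : x = i * (m * μ * g') := by
      apply Nat.eq_of_mul_eq_mul_left hm
      rw [hx]; ring
    have := h' i hi
    rw [← this, hx']
    congr 1
    ring
  · intro i1 hi1 i2 hi2 i3 hi3 x hx
    have hx' : x = (i1 * m * g' + i3 * η') * μ + (i2 * m ^ 2 * g' * η') * μ ^ 2 := by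
      apply Nat.eq_of_mul_eq_mul_left hm
      rw [hx]; ring
    have b1 : i1 * m * g' ≤ K * m * W := by gcongr
    have b2 : i3 * η' ≤ K * W := by gcongr
    have b3 : i2 * m ^ 2 * g' * η' ≤ K * m ^ 2 * W * W := by gcongr
    have := h (i1 * m * g' + i3 * η') (by omega) (i2 * m ^ 2 * g' * η') (by omega)
    rw [hx', ← add_assoc, this]

/-- The inner ultrafilter `𝒵'` on triples `(g, η, υ)`. -/
theorem ultra_inner :
    ∃ Z : Ultrafilter (ℕ × ℕ × ℕ),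
      (∀ m : ℕ, 0 < m → ∀ᶠ τ in (Z : Filter (ℕ × ℕ × ℕ)),
        0 < τ.1 ∧ 0 < τ.2.1 ∧ 0 < τ.2.2 ∧ m ∣ τ.1 ∧ m ∣ τ.2.1) ∧
      (∀ (κ : Type) (_ : Finite κ) (Ψ : ℕ → ℕ → κ) (m A : ℕ), 0 < m →
        ∀ᶠ τ in (Z : Filter (ℕ × ℕ × ℕ)), ∀ x, m * x = A * τ.1 →
          Ψ (τ.2.1 + x) τ.2.2 = Ψ τ.2.1 τ.2.2) ∧
      (∀ (κ : Type) (_ : Finite κ) (Ψ : ℕ → κ) (m A1 A2 A3 : ℕ), 0 < m →
        ∀ᶠ τ in (Z : Filter (ℕ × ℕ × ℕ)), ∀ x,
          m * x = A1 * τ.1 + A2 * (τ.1 * τ.2.1) + A3 * τ.2.1 →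
          Ψ (τ.2.2 + x) = Ψ τ.2.2) := by
  let A : (κ : Type) → (ℕ → ℕ → κ) → (ℕ → κ) → ℕ → ℕ → Set (ℕ × ℕ × ℕ) := fun κ Ψ Ψ' m K =>
    {τ | (0 < τ.1 ∧ 0 < τ.2.1 ∧ 0 < τ.2.2 ∧ m ∣ τ.1 ∧ m ∣ τ.2.1) ∧
      (∀ i ≤ K, ∀ x, m * x = i * τ.1 → Ψ (τ.2.1 + x) τ.2.2 = Ψ τ.2.1 τ.2.2) ∧
      (∀ i1 ≤ K, ∀ i2 ≤ K, ∀ i3 ≤ K, ∀ x,
        m * x = i1 * τ.1 + i2 * (τ.1 * τ.2.1) + i3 * τ.2.1 → Ψ' (τ.2.2 + x) = Ψ' τ.2.2)}
  let B : Set (Set (ℕ × ℕ × ℕ)) := {s | ∃ (κ : Type) (_ : Finite κ) (Ψ : ℕ → ℕ → κ) (Ψ' : ℕ → κ)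
    (m K : ℕ), 0 < m ∧ s = A κ Ψ Ψ' m K}
  have hAne : ∀ s ∈ B, s.Nonempty := by
    rintro s ⟨κ, hκ, Ψ, Ψ', m, K, hm, rfl⟩
    obtain ⟨g, η, υ, h1, h2, h3, h4, h5, h6, h7⟩ := lemma2 κ hκ κ hκ Ψ Ψ' m K hm
    exact ⟨(g, η, υ), ⟨h1, h2, h3, h4, h5⟩, h6, h7⟩
  have hne : B.Nonempty := ⟨A Unit (fun _ _ => ()) (fun _ => ()) 1 0, Unit, inferInstance,
    (fun _ _ => ()), fun _ => (), 1, 0, one_pos, rfl⟩
  have hdir : ∀ s ∈ B, ∀ t ∈ B, ∃ u ∈ B, u ⊆ s ∩ t := by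
    rintro s ⟨κ, hκ, Ψ, Ψ', m, K, hm, rfl⟩ t ⟨κ2, hκ2, Ψ2, Ψ2', m2, K2, hm2, rfl⟩
    refine ⟨A (κ × κ2) (fun x y => (Ψ x y, Ψ2 x y)) (fun x => (Ψ' x, Ψ2' x)) (m * m2)
      (K * m2 + K2 * m), ⟨κ × κ2, inferInstance, (fun x y => (Ψ x y, Ψ2 x y)),
        (fun x => (Ψ' x, Ψ2' x)), m * m2, K * m2 + K2 * m, Nat.mul_pos hm hm2, rfl⟩, ?_⟩
    rintro τ ⟨⟨h1, h2, h3, h4, h5⟩, h6, h7⟩
    refine ⟨⟨⟨h1, h2, h3, (Dvd.intro _ rfl).trans h4, (Dvd.intro _ rfl).trans h5⟩, ?_, ?_⟩,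
      ⟨⟨h1, h2, h3, (Dvd.intro_left _ rfl).trans h4, (Dvd.intro_left _ rfl).trans h5⟩, ?_, ?_⟩⟩
    · intro i hi x hx
      have := h6 (i * m2) (by nlinarith) x (by
        calc m * m2 * x = m2 * (m * x) := by ring
          _ = i * m2 * τ.1 := by rw [hx]; ring)
      exact (Prod.ext_iff.1 this).1
    · intro i1 hi1 i2 hi2 i3 hi3 x hx
      have := h7 (i1 * m2) (by nlinarith) (i2 * m2) (by nlinarith) (i3 * m2) (by nlinarith) x (by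
        calc m * m2 * x = m2 * (m * x) := by ring
          _ = _ := by rw [hx]; ring)
      exact (Prod.ext_iff.1 this).1
    · intro i hi x hx
      have := h6 (i * m) (by nlinarith) x (by
        calc m * m2 * x = m * (m2 * x) := by ring
          _ = i * m * τ.1 := by rw [hx]; ring)
      exact (Prod.ext_iff.1 this).2
    · intro i1 hi1 i2 hi2 i3 hi3 x hx
      have := h7 (i1 * m) (by nlinarith) (i2 * m) (by nlinarith) (i3 * m) (by nlinarith) x (by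
        calc m * m2 * x = m * (m2 * x) := by ring
          _ = _ := by rw [hx]; ring)
      exact (Prod.ext_iff.1 this).2
  obtain ⟨Z, hZ⟩ := exists_ultra B hne hdir hAne
  refine ⟨Z, ?_, ?_, ?_⟩
  · intro m hm
    have := hZ _ ⟨Unit, inferInstance, fun _ _ => (), fun _ => (), m, 0, hm, rfl⟩
    filter_upwards [this] with τ hτ
    exact hτ.1
  · intro κ hκ Ψ m A hm
    obtain ⟨k0⟩ : Nonempty κ := ⟨Ψ 0 0⟩
    have := hZ _ ⟨κ, hκ, Ψ, fun _ => k0, m, A, hm, rfl⟩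
    filter_upwards [this] with τ hτ
    exact hτ.2.1 A le_rfl
  · intro κ hκ Ψ m A1 A2 A3 hm
    have := hZ _ ⟨κ, hκ, fun _ _ => Ψ 0, Ψ, m, A1 + A2 + A3, hm, rfl⟩
    filter_upwards [this] with τ hτ
    exact hτ.2.2 A1 (by omega) A2 (by omega) A3 (by omega)

end Pool.Agent.H55.Bal
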