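import Mathlib
import Pool.Agent.H55.BalVdw

set_option autoImplicit false

namespace Pool.Agent.H55.Bal

open Filter

/-- Success configuration of the inner chain. -/
def Suc {κ κ' : Type} (m K : ℕ) (F : ℕ → ℕ → ℕ → κ) (F' : ℕ → κ') : Prop :=
  ∃ w d η υ : ℕ, 0 < w ∧ 0 < d ∧ 0 < η ∧ 0 < υ ∧ m ∣ η ∧ m * w ∣ d ∧
    F (w * d) η υ = F w η υ ∧
    (∀ i ≤ K, ∀ x, m * x * w = i * d → F w (η + x) υ = F w η υ) ∧
    (∀ i1 ≤ K, ∀ i2 ≤ K, ∀ i3 ≤ K, ∀ x,
      m * x = i1 * (w * d * η) + i2 * (w * η) + i3 * d → F' (υ + x) = F' υ)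

/-- State of the inner chain with `n + 1` colours. -/
def St {κ κ' : Type} (m K n : ℕ) (F : ℕ → ℕ → ℕ → κ) (F' : ℕ → κ') : Prop :=
  ∃ W η υ : ℕ, ∃ w : κ → ℕ, ∃ S : Finset κ, S.card = n + 1 ∧ 0 < W ∧ m ∣ η ∧
    ∀ T ∈ S, 0 < w T ∧ w T ∣ W ∧ F (w T) η υ = T ∧
      ∀ i ≤ K, ∀ x, m * x = i * (w T * η) → F' (υ + x) = F' υ

theorem inner_claim {κ κ' : Type} [Finite κ] [Finite κ'] (m K : ℕ) (hm : 0 < m)
    (F0 : ℕ → ℕ → ℕ → κ) (F0' : ℕ → κ') : Suc m K F0 F0' := by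
  classical
  obtain ⟨Z, hZ0, hZ1, hZ2⟩ := ultra_inner
  let M : (ℕ → ℕ → ℕ → κ) → (ℕ → ℕ → ℕ → κ) := fun F w η υ =>
    ulim Z (fun τ => F w (η + τ.2.1) (υ + τ.2.2))
  let M' : (ℕ → κ') → (ℕ → κ') := fun F υ => ulim Z (fun τ => F (υ + τ.2.2))
  have hM : ∀ F w η υ, ∀ᶠ τ in (Z : Filter (ℕ × ℕ × ℕ)),
      F w (η + τ.2.1) (υ + τ.2.2) = M F w η υ := fun F w η υ => ulim_spec Z _
  have hM' : ∀ F υ, ∀ᶠ τ in (Z : Filter (ℕ × ℕ × ℕ)), F (υ + τ.2.2) = M' F υ :=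
    fun F υ => ulim_spec Z _
  have lift : ∀ F F', Suc m K (M F) (M' F') → Suc m K F F' := by
    rintro F F' ⟨w, d, η, υ, hw, hd, hη, hυ, hmη, hmw, h1, h2, h3⟩
    obtain ⟨N, hN⟩ : ∃ N, N = K * d + K * (w * d * η) + K * (w * η) + 1 := ⟨_, rfl⟩
    have e2 : ∀ᶠ τ in (Z : Filter (ℕ × ℕ × ℕ)), ∀ x ∈ Finset.range N,
        F w (η + x + τ.2.1) (υ + τ.2.2) = M F w (η + x) υ := by
      rw [Filter.eventually_all_finset]
      intro x _
      exact hM F w (η + x) υ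
    have e3 : ∀ᶠ τ in (Z : Filter (ℕ × ℕ × ℕ)), ∀ x ∈ Finset.range N,
        F' (υ + x + τ.2.2) = M' F' (υ + x) := by
      rw [Filter.eventually_all_finset]
      intro x _
      exact hM' F' (υ + x)
    have e4 : ∀ᶠ τ in (Z : Filter (ℕ × ℕ × ℕ)), ∀ x ∈ Finset.range N,
        ∀ i1 ∈ Finset.range (K + 1), ∀ i2 ∈ Finset.range (K + 1), ∀ e,
        m * e = 0 * τ.1 + 0 * (τ.1 * τ.2.1) + (i1 * (w * d) + i2 * w) * τ.2.1 →
        F' (υ + x + (τ.2.2 + e)) = F' (υ + x + τ.2.2) := by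
      rw [Filter.eventually_all_finset]
      intro x _
      rw [Filter.eventually_all_finset]
      intro i1 _
      rw [Filter.eventually_all_finset]
      intro i2 _
      exact hZ2 κ' inferInstance (fun y => F' (υ + x + y)) m 0 0 (i1 * (w * d) + i2 * w) hm
    obtain ⟨τ, ⟨t1, t2, t3, t4, t5⟩, a1, a2, a3, a4, a5⟩ :=
      ((hZ0 m hm).and ((hM F (w * d) η υ).and ((hM F w η υ).and (e2.and (e3.and e4))))).exists
    refine ⟨w, d, η + τ.2.1, υ + τ.2.2, hw, hd, by omega, by omega, Dvd.dvd.add hmη t5, hmw, ?_,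
      ?_, ?_⟩
    · rw [a1, a2, h1]
    · intro i hi x hx
      have hxN : x ∈ Finset.range N := by
        rw [Finset.mem_range]
        have : x ≤ m * x * w := by
          calc x = 1 * x * 1 := by ring
            _ ≤ m * x * w := Nat.mul_le_mul (Nat.mul_le_mul_right x hm) hw
        have h4 : i * d ≤ K * d := Nat.mul_le_mul_right _ hi
        omega
      have h4 := a3 x hxN
      have h5 : η + τ.2.1 + x = η + x + τ.2.1 := by ring
      rw [h5, h4, h2 i hi x hx, ← a2]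
    · intro i1 hi1 i2 hi2 i3 hi3 x hx
      obtain ⟨q, hq⟩ := t5
      obtain ⟨e, he⟩ : ∃ e, e = (i1 * (w * d) + i2 * w) * q := ⟨_, rfl⟩
      have hme : m * e = (i1 * (w * d) + i2 * w) * τ.2.1 := by
        rw [he, hq]; ring
      have hxe : m * x = m * e + (i1 * (w * d * η) + i2 * (w * η) + i3 * d) := by
        rw [hx, hme]; ring
      have hex : e ≤ x := by
        apply Nat.le_of_mul_le_mul_left _ hm
        omega
      obtain ⟨y, rfl⟩ := Nat.exists_eq_add_of_le hex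
      have hy : m * y = i1 * (w * d * η) + i2 * (w * η) + i3 * d := by
        rw [mul_add] at hxe; omega
      have hyN : y ∈ Finset.range N := by
        rw [Finset.mem_range]
        have b0 : y ≤ m * y := Nat.le_mul_of_pos_left _ hm
        have b1 : i1 * (w * d * η) ≤ K * (w * d * η) := Nat.mul_le_mul_right _ hi1
        have b2 : i2 * (w * η) ≤ K * (w * η) := Nat.mul_le_mul_right _ hi2
        have b3 : i3 * d ≤ K * d := Nat.mul_le_mul_right _ hi3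
        omega
      have c1 := a5 y hyN i1 (Finset.mem_range.2 (by omega)) i2 (Finset.mem_range.2 (by omega)) e
        (by rw [hme]; ring)
      have c2 := a4 y hyN
      have c3 := h3 i1 hi1 i2 hi2 i3 hi3 y hy
      have c4 := a4 0 (Finset.mem_range.2 (by omega))
      rw [add_zero] at c4
      have c5 : υ + τ.2.2 + (e + y) = υ + y + (τ.2.2 + e) := by ring
      rw [c5, c1, c2, c3, c4]
  have trans : ∀ n F F', St m K n (M F) (M' F') → Suc m K F F' ∨ St m K (n + 1) F F' := by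
    rintro n F F' ⟨W, η, υ, w, S, hS, hW, hmη, h⟩
    obtain ⟨N, hN⟩ : ∃ N, N = K * (W * η) + 1 := ⟨_, rfl⟩
    have f1 : ∀ᶠ τ in (Z : Filter (ℕ × ℕ × ℕ)), ∀ T ∈ S,
        F (w T) (η + τ.2.1) (υ + τ.2.2) = M F (w T) η υ := by
      rw [Filter.eventually_all_finset]
      intro T _
      exact hM F (w T) η υ
    have f2 : ∀ᶠ τ in (Z : Filter (ℕ × ℕ × ℕ)), ∀ T ∈ S, ∀ i ∈ Finset.range (K + 1), ∀ x,
        (m * w T) * x = (i * (W / w T)) * τ.1 →
        F (w T) (η + (τ.2.1 + x)) (υ + τ.2.2) = F (w T) (η + τ.2.1) (υ + τ.2.2) := by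
      rw [Filter.eventually_all_finset]
      intro T hT
      rw [Filter.eventually_all_finset]
      intro i _
      exact hZ1 κ inferInstance (fun a b => F (w T) (η + a) (υ + b)) (m * w T) (i * (W / w T))
        (Nat.mul_pos hm (h T hT).1)
    have f3 : ∀ᶠ τ in (Z : Filter (ℕ × ℕ × ℕ)), ∀ x ∈ Finset.range N,
        F' (υ + x + τ.2.2) = M' F' (υ + x) := by
      rw [Filter.eventually_all_finset]
      intro x _
      exact hM' F' (υ + x)
    have f4 : ∀ᶠ τ in (Z : Filter (ℕ × ℕ × ℕ)), ∀ T ∈ S, ∀ x ∈ Finset.range N,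
        ∀ i1 ∈ Finset.range (K + 1), ∀ i2 ∈ Finset.range (K + 1), ∀ i3 ∈ Finset.range (K + 1),
        ∀ e, m * e = (i1 * W * η + i3 * (W / w T)) * τ.1 + (i1 * W) * (τ.1 * τ.2.1) +
          (i2 * w T) * τ.2.1 →
        F' (υ + x + (τ.2.2 + e)) = F' (υ + x + τ.2.2) := by
      rw [Filter.eventually_all_finset]
      intro T _
      rw [Filter.eventually_all_finset]
      intro x _
      rw [Filter.eventually_all_finset]
      intro i1 _
      rw [Filter.eventually_all_finset]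
      intro i2 _
      rw [Filter.eventually_all_finset]
      intro i3 _
      exact hZ2 κ' inferInstance (fun y => F' (υ + x + y)) m (i1 * W * η + i3 * (W / w T))
        (i1 * W) (i2 * w T) hm
    obtain ⟨τ, ⟨t1, t2, t3, t4, t5⟩, a1, a2, a3, a4⟩ :=
      ((hZ0 (m * W) (Nat.mul_pos hm hW)).and (f1.and (f2.and (f3.and f4)))).exists
    obtain ⟨q, hq⟩ := hmη
    have tm : m ∣ τ.2.1 := (Dvd.intro _ rfl).trans t5
    have h0N : 0 ∈ Finset.range N := Finset.mem_range.2 (by omega)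
    have base : F' (υ + τ.2.2) = M' F' υ := by
      have := a3 0 h0N
      rwa [add_zero] at this
    -- absorbing lemma
    have absorb : ∀ T ∈ S, ∀ i1 ≤ K, ∀ i2 ≤ K, ∀ i3 ≤ K, ∀ x,
        m * x = i1 * (W * τ.1 * (η + τ.2.1)) + i2 * (w T * (η + τ.2.1)) + i3 * (W / w T * τ.1) →
        F' (υ + τ.2.2 + x) = F' (υ + τ.2.2) := by
      intro T hT i1 hi1 i2 hi2 i3 hi3 x hx
      obtain ⟨y, hy⟩ : ∃ y, y = i2 * w T * q := ⟨_, rfl⟩
      have hmy : m * y = i2 * (w T * η) := by rw [hy, hq]; ring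
      have hyx : y ≤ x := by
        apply Nat.le_of_mul_le_mul_left _ hm
        rw [hx, hmy]
        nlinarith [Nat.zero_le (i1 * (W * τ.1 * (η + τ.2.1))), Nat.zero_le (i3 * (W / w T * τ.1)),
          Nat.zero_le (i2 * (w T * τ.2.1))]
      obtain ⟨e, rfl⟩ := Nat.exists_eq_add_of_le hyx
      have hyN : y ∈ Finset.range N := by
        rw [Finset.mem_range]
        have b0 : y ≤ m * y := Nat.le_mul_of_pos_left _ hm
        have b1 : w T ≤ W := Nat.le_of_dvd hW (h T hT).2.1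
        have b2 : i2 * (w T * η) ≤ K * (W * η) := by gcongr
        omega
      have hme : m * e = (i1 * W * η + i3 * (W / w T)) * τ.1 + (i1 * W) * (τ.1 * τ.2.1) +
          (i2 * w T) * τ.2.1 := by
        have : m * y + m * e = m * y + ((i1 * W * η + i3 * (W / w T)) * τ.1 +
          (i1 * W) * (τ.1 * τ.2.1) + (i2 * w T) * τ.2.1) := by
          rw [← mul_add, hx, hmy]; ring
        omega
      have c1 := a4 T hT y hyN i1 (Finset.mem_range.2 (by omega)) i2 (Finset.mem_range.2 (by omega))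
        i3 (Finset.mem_range.2 (by omega)) e hme
      have c2 := a3 y hyN
      have c3 := (h T hT).2.2.2 i2 hi2 y hmy
      have c5 : υ + τ.2.2 + (y + e) = υ + y + (τ.2.2 + e) := by ring
      rw [c5, c1, c2, c3, base]
    by_cases hT : F (W * τ.1) (η + τ.2.1) (υ + τ.2.2) ∈ S
    · left
      obtain ⟨T, hTdef⟩ : ∃ T, T = F (W * τ.1) (η + τ.2.1) (υ + τ.2.2) := ⟨_, rfl⟩
      rw [← hTdef] at hT
      obtain ⟨b1, b2, b3, b4⟩ := h T hT
      have hwW : w T * (W / w T) = W := Nat.mul_div_cancel' b2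
      have hwd : w T * (W / w T * τ.1) = W * τ.1 := by rw [← mul_assoc, hwW]
      refine ⟨w T, W / w T * τ.1, η + τ.2.1, υ + τ.2.2, b1,
        Nat.mul_pos (Nat.div_pos (Nat.le_of_dvd hW b2) b1) t1, by omega, by omega,
        Dvd.dvd.add ⟨q, hq⟩ tm, ?_, ?_, ?_, ?_⟩
      · exact ((Nat.mul_dvd_mul_left m b2).trans t4).mul_left _
      · rw [hwd, ← hTdef, a1 T hT, b3]
      · intro i hi x hx
        have := a2 T hT i (Finset.mem_range.2 (by omega)) x (by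
          calc m * w T * x = m * x * w T := by ring
            _ = i * (W / w T * τ.1) := hx
            _ = _ := by ring)
        rw [add_assoc]
        exact this
      · intro i1 hi1 i2 hi2 i3 hi3 x hx
        rw [hwd] at hx
        exact absorb T hT i1 hi1 i2 hi2 i3 hi3 x hx
    · right
      refine ⟨W * τ.1, η + τ.2.1, υ + τ.2.2,
        Function.update w (F (W * τ.1) (η + τ.2.1) (υ + τ.2.2)) (W * τ.1),
        insert (F (W * τ.1) (η + τ.2.1) (υ + τ.2.2)) S, ?_, Nat.mul_pos hW t1,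
        Dvd.dvd.add ⟨q, hq⟩ tm, ?_⟩
      · rw [Finset.card_insert_of_notMem hT, hS]
      · intro T hT'
        by_cases hTT : T = F (W * τ.1) (η + τ.2.1) (υ + τ.2.2)
        · rw [hTT]
          rw [Function.update_self]
          refine ⟨Nat.mul_pos hW t1, dvd_rfl, rfl, ?_⟩
          obtain ⟨T0, hT0⟩ : S.Nonempty := by
            rw [← Finset.card_pos, hS]; omega
          intro i hi x hx
          exact absorb T0 hT0 i hi 0 (Nat.zero_le _) 0 (Nat.zero_le _) x (by rw [hx]; ring)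
        · have hTS : T ∈ S := (Finset.mem_insert.1 hT').resolve_left hTT
          rw [Function.update_of_ne hTT]
          obtain ⟨b1, b2, b3, b4⟩ := h T hTS
          refine ⟨b1, b2.mul_right _, by rw [a1 T hTS, b3], ?_⟩
          intro i hi x hx
          exact absorb T hTS 0 (Nat.zero_le _) i hi 0 (Nat.zero_le _) x (by rw [hx]; ring)
  have key : ∀ (n : ℕ) (F : ℕ → ℕ → ℕ → κ) (F' : ℕ → κ'), Suc m K F F' ∨ St m K n F F' := by
    intro n
    induction n with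
    | zero =>
      intro F F'
      right
      refine ⟨1, 0, 0, fun _ => 1, {F 1 0 0}, by simp, one_pos, dvd_zero _, ?_⟩
      intro T hT
      rw [Finset.mem_singleton] at hT
      refine ⟨one_pos, dvd_rfl, hT.symm, ?_⟩
      intro i _ x hx
      have : x = 0 := by
        rcases Nat.mul_eq_zero.1 (by simpa using hx : m * x = 0) with h | h
        · omega
        · exact h
      rw [this]
    | succ n ih =>
      intro F F'
      rcases ih (M F) (M' F') with h | h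
      · exact Or.inl (lift F F' h)
      · exact trans n F F' h
  rcases key (Nat.card κ) F0 F0' with h | ⟨W, η, υ, w, S, hS, -⟩
  · exact h
  · exfalso
    have := Fintype.ofFinite κ
    have h1 := Finset.card_le_univ S
    rw [Nat.card_eq_fintype_card] at hS
    omega

/-- Claim M'. -/
theorem claimM {κ κ' : Type} [Finite κ] [Finite κ'] (m K : ℕ) (hm : 0 < m)
    (Φ : ℕ → ℕ → κ) (Φ' : ℕ → κ') :
    ∃ c d y : ℕ, 0 < c ∧ 0 < d ∧ 0 < y ∧ m ∣ c ∧ m ∣ d ∧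
      (∀ i ≤ K, ∀ x, m * x = i * d → Φ (c + x) y = Φ (c * d) y) ∧
      (∀ i1 ≤ K, ∀ i2 ≤ K, ∀ i3 ≤ K, ∀ x, m * x = i1 * (c * d) + i2 * c + i3 * d →
        Φ' (y + x) = Φ' y) := by
  obtain ⟨w, d, η, υ, hw, hd, hη, hυ, hmη, hmw, h1, h2, h3⟩ :=
    inner_claim m K hm (fun w η υ => Φ (w * η) υ) Φ'
  refine ⟨w * η, d, υ, Nat.mul_pos hw hη, hd, hυ, hmη.mul_left _, (Dvd.intro _ rfl).trans hmw, ?_,
    ?_⟩
  · intro i hi x hx
    obtain ⟨q, hq⟩ := hmw
    have hx' : x = w * (i * q) := by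
      apply Nat.eq_of_mul_eq_mul_left hm
      rw [hx, hq]; ring
    have h4 := h2 i hi (i * q) (by rw [hq]; ring)
    simp only at h4 h1
    have h5 : w * η + x = w * (η + i * q) := by rw [hx']; ring
    have h6 : w * η * d = w * d * η := by ring
    rw [h5, h4, h6, h1]
  · intro i1 hi1 i2 hi2 i3 hi3 x hx
    exact h3 i1 hi1 i2 hi2 i3 hi3 x (by rw [hx]; ring)

/-- The outer ultrafilter on triples `(c, d, y)`. -/
theorem ultra_outer :
    ∃ Z : Ultrafilter (ℕ × ℕ × ℕ),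
      (∀ m : ℕ, 0 < m → ∀ᶠ τ in (Z : Filter (ℕ × ℕ × ℕ)),
        0 < τ.1 ∧ 0 < τ.2.1 ∧ 0 < τ.2.2 ∧ m ∣ τ.1 ∧ m ∣ τ.2.1) ∧
      (∀ (κ : Type) (_ : Finite κ) (Φ : ℕ → ℕ → κ) (m A : ℕ), 0 < m →
        ∀ᶠ τ in (Z : Filter (ℕ × ℕ × ℕ)), ∀ x, m * x = A * τ.2.1 →
          Φ (τ.1 + x) τ.2.2 = Φ (τ.1 * τ.2.1) τ.2.2) ∧
      (∀ (κ : Type) (_ : Finite κ) (Φ : ℕ → κ) (m A1 A2 A3 : ℕ), 0 < m →
        ∀ᶠ τ in (Z : Filter (ℕ × ℕ × ℕ)), ∀ x,
          m * x = A1 * (τ.1 * τ.2.1) + A2 * τ.1 + A3 * τ.2.1 →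
          Φ (τ.2.2 + x) = Φ τ.2.2) := by
  let A : (κ : Type) → (ℕ → ℕ → κ) → (ℕ → κ) → ℕ → ℕ → Set (ℕ × ℕ × ℕ) := fun κ Ψ Ψ' m K =>
    {τ | (0 < τ.1 ∧ 0 < τ.2.1 ∧ 0 < τ.2.2 ∧ m ∣ τ.1 ∧ m ∣ τ.2.1) ∧
      (∀ i ≤ K, ∀ x, m * x = i * τ.2.1 → Ψ (τ.1 + x) τ.2.2 = Ψ (τ.1 * τ.2.1) τ.2.2) ∧
      (∀ i1 ≤ K, ∀ i2 ≤ K, ∀ i3 ≤ K, ∀ x,
        m * x = i1 * (τ.1 * τ.2.1) + i2 * τ.1 + i3 * τ.2.1 → Ψ' (τ.2.2 + x) = Ψ' τ.2.2)}
  let B : Set (Set (ℕ × ℕ × ℕ)) := {s | ∃ (κ : Type) (_ : Finite κ) (Ψ : ℕ → ℕ → κ) (Ψ' : ℕ → κ)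
    (m K : ℕ), 0 < m ∧ s = A κ Ψ Ψ' m K}
  have hAne : ∀ s ∈ B, s.Nonempty := by
    rintro s ⟨κ, hκ, Ψ, Ψ', m, K, hm, rfl⟩
    obtain ⟨c, d, y, h1, h2, h3, h4, h5, h6, h7⟩ := claimM m K hm Ψ Ψ'
    exact ⟨(c, d, y), ⟨h1, h2, h3, h4, h5⟩, h6, h7⟩
  have hne : B.Nonempty := ⟨A Unit (fun _ _ => ()) (fun _ => ()) 1 0, Unit, inferInstance,
    (fun _ _ => ()), fun _ => (), 1, 0, one_pos, rfl⟩
  have hdir : ∀ s ∈ B, ∀ t ∈ B, ∃ u ∈ B, u ⊆ s ∩ t := by
    rintro s ⟨κ, hκ, Ψ, Ψ', m, K, hm, rfl⟩ t ⟨κ2, hκ2, Ψ2, Ψ2', m2, K2, hm2, rfl⟩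
    refine ⟨A (κ × κ2) (fun x y => (Ψ x y, Ψ2 x y)) (fun x => (Ψ' x, Ψ2' x)) (m * m2)
      (K * m2 + K2 * m), ⟨κ × κ2, inferInstance, (fun x y => (Ψ x y, Ψ2 x y)),
        (fun x => (Ψ' x, Ψ2' x)), m * m2, K * m2 + K2 * m, Nat.mul_pos hm hm2, rfl⟩, ?_⟩
    rintro τ ⟨⟨h1, h2, h3, h4, h5⟩, h6, h7⟩
    refine ⟨⟨⟨h1, h2, h3, (Dvd.intro _ rfl).trans h4, (Dvd.intro _ rfl).trans h5⟩, ?_, ?_⟩,
      ⟨⟨h1, h2, h3, (Dvd.intro_left _ rfl).trans h4, (Dvd.intro_left _ rfl).trans h5⟩, ?_, ?_⟩⟩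
    · intro i hi x hx
      have := h6 (i * m2) (by nlinarith) x (by
        calc m * m2 * x = m2 * (m * x) := by ring
          _ = _ := by rw [hx]; ring)
      exact (Prod.ext_iff.1 this).1
    · intro i1 hi1 i2 hi2 i3 hi3 x hx
      have := h7 (i1 * m2) (by nlinarith) (i2 * m2) (by nlinarith) (i3 * m2) (by nlinarith) x (by
        calc m * m2 * x = m2 * (m * x) := by ring
          _ = _ := by rw [hx]; ring)
      exact (Prod.ext_iff.1 this).1
    · intro i hi x hx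
      have := h6 (i * m) (by nlinarith) x (by
        calc m * m2 * x = m * (m2 * x) := by ring
          _ = _ := by rw [hx]; ring)
      exact (Prod.ext_iff.1 this).2
    · intro i1 hi1 i2 hi2 i3 hi3 x hx
      have := h7 (i1 * m) (by nlinarith) (i2 * m) (by nlinarith) (i3 * m) (by nlinarith) x (by
        calc m * m2 * x = m * (m2 * x) := by ring
          _ = _ := by rw [hx]; ring)
      exact (Prod.ext_iff.1 this).2
  obtain ⟨Z, hZ⟩ := exists_ultra B hne hdir hAne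
  refine ⟨Z, ?_, ?_, ?_⟩
  · intro m hm
    have := hZ _ ⟨Unit, inferInstance, fun _ _ => (), fun _ => (), m, 0, hm, rfl⟩
    filter_upwards [this] with τ hτ
    exact hτ.1
  · intro κ hκ Ψ m A hm
    obtain ⟨k0⟩ : Nonempty κ := ⟨Ψ 0 0⟩
    have := hZ _ ⟨κ, hκ, Ψ, fun _ => k0, m, A, hm, rfl⟩
    filter_upwards [this] with τ hτ
    exact hτ.2.1 A le_rfl
  · intro κ hκ Ψ m A1 A2 A3 hm
    have := hZ _ ⟨κ, hκ, fun _ _ => Ψ 0, Ψ, m, A1 + A2 + A3, hm, rfl⟩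
    filter_upwards [this] with τ hτ
    exact hτ.2.2 A1 (by omega) A2 (by omega) A3 (by omega)

end Pool.Agent.H55.Bal
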