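import Mathlib
import Pool.Agent.H55.BalChain

set_option autoImplicit false

namespace Pool.Agent.H55.Bal

open Filter

/-! ### Block Hindman theorem -/

/-- Block-ordered union, a partial semigroup made total by an absorbing element. -/
def bmul (a b : Option (Finset ℕ)) : Option (Finset ℕ) :=
  match a, b with
  | some s, some t => open Classical in if ∀ i ∈ s, ∀ j ∈ t, i < j then some (s ∪ t) else none
  | _, _ => none

theorem bmul_some_some (s t : Finset ℕ) (h : ∀ i ∈ s, ∀ j ∈ t, i < j) :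
    bmul (some s) (some t) = some (s ∪ t) := by
  simp only [bmul]
  rw [if_pos h]

theorem bmul_some_some' (s t : Finset ℕ) (h : ¬ ∀ i ∈ s, ∀ j ∈ t, i < j) :
    bmul (some s) (some t) = none := by
  simp only [bmul]
  rw [if_neg h]

theorem bmul_none_left (a : Option (Finset ℕ)) : bmul none a = none := rfl

theorem bmul_none_right (a : Option (Finset ℕ)) : bmul a none = none := by
  cases a <;> rfl

theorem bmul_assoc (a b c : Option (Finset ℕ)) : bmul (bmul a b) c = bmul a (bmul b c) := by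
  rcases a with _ | s
  · rfl
  rcases b with _ | t
  · rfl
  rcases c with _ | u
  · rw [bmul_none_right, bmul_none_right, bmul_none_right]
  by_cases h1 : ∀ i ∈ s, ∀ j ∈ t, i < j
  · rw [bmul_some_some s t h1]
    by_cases h2 : ∀ i ∈ t, ∀ j ∈ u, i < j
    · rw [bmul_some_some t u h2]
      by_cases h3 : ∀ i ∈ s, ∀ j ∈ u, i < j
      · rw [bmul_some_some, bmul_some_some, Finset.union_assoc]
        · intro i hi j hj
          rcases Finset.mem_union.1 hj with h | h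
          · exact h1 i hi j h
          · exact h3 i hi j h
        · intro i hi j hj
          rcases Finset.mem_union.1 hi with h | h
          · exact h3 i h j hj
          · exact h2 i h j hj
      · rw [bmul_some_some', bmul_some_some']
        · intro h; exact h3 fun i hi j hj => h i hi j (Finset.mem_union_right _ hj)
        · intro h; exact h3 fun i hi j hj => h i (Finset.mem_union_left _ hi) j hj
    · rw [bmul_some_some' t u h2, bmul_none_right, bmul_some_some']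
      intro h; exact h2 fun i hi j hj => h i (Finset.mem_union_right _ hi) j hj
  · rw [bmul_some_some' s t h1, bmul_none_left]
    by_cases h2 : ∀ i ∈ t, ∀ j ∈ u, i < j
    · rw [bmul_some_some t u h2, bmul_some_some']
      intro h; exact h1 fun i hi j hj => h i hi j (Finset.mem_union_left _ hj)
    · rw [bmul_some_some' t u h2, bmul_none_right]

/-- A wrapper carrying the semigroup structure. -/
@[ext] structure BS where
  /-- the underlying set, or `none` -/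
  val : Option (Finset ℕ)

instance : Semigroup BS where
  mul a b := ⟨bmul a.val b.val⟩
  mul_assoc a b c := BS.ext (bmul_assoc a.val b.val c.val)

theorem BS_mul (a b : BS) : (a * b).val = bmul a.val b.val := rfl

theorem FP_nonempty : ∀ (a : Stream' BS) (x : BS), x ∈ Hindman.FP a →
      ∀ n : ℕ, a = (fun i => ⟨some {n + i}⟩ : Stream' BS) →
      ∃ s : Finset ℕ, s.Nonempty ∧ x.val = some s ∧ ∀ i ∈ s, n ≤ i := by
  intro a x hx
  induction hx with
  | head' a =>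
    intro n hn
    subst hn
    exact ⟨{n}, by simp, rfl, by simp⟩
  | tail' a m h ih =>
    intro n hn
    obtain ⟨s, h1, h2, h3⟩ := ih (n + 1) (by
      rw [hn]
      funext i
      show (⟨some {n + (i + 1)}⟩ : BS) = ⟨some {n + 1 + i}⟩
      congr 3; omega)
    exact ⟨s, h1, h2, fun i hi => (Nat.le_succ n).trans (h3 i hi)⟩
  | cons' a m h ih =>
    intro n hn
    obtain ⟨s, h1, h2, h3⟩ := ih (n + 1) (by
      rw [hn]
      funext i
      show (⟨some {n + (i + 1)}⟩ : BS) = ⟨some {n + 1 + i}⟩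
      congr 3; omega)
    refine ⟨{n} ∪ s, by simp, ?_, ?_⟩
    · subst hn
      rw [BS_mul, h2]
      show bmul (some {n + 0}) (some s) = some ({n} ∪ s)
      rw [add_zero, bmul_some_some]
      intro i hi j hj
      rw [Finset.mem_singleton] at hi
      have := h3 j hj
      omega
    · intro i hi
      rcases Finset.mem_union.1 hi with h | h
      · exact (Finset.mem_singleton.1 h).ge
      · exact (Nat.le_succ n).trans (h3 i h)

theorem block_hindman {κ : Type} [Finite κ] (t : Finset ℕ → κ) :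
    ∃ H0 H1 H2 : Finset ℕ, H0.Nonempty ∧ H1.Nonempty ∧ H2.Nonempty ∧
      (∀ i ∈ H0, ∀ j ∈ H1, i < j) ∧ (∀ i ∈ H1, ∀ j ∈ H2, i < j) ∧
      t (H0 ∪ H1) = t H0 ∧ t (H0 ∪ H2) = t H0 ∧ t (H0 ∪ H1 ∪ H2) = t H0 := by
  let a : Stream' BS := fun i => ⟨some {0 + i}⟩
  let S : Set (Set BS) := Set.range (fun T : κ => {x : BS | x ∈ Hindman.FP a ∧
    ∃ s : Finset ℕ, x.val = some s ∧ t s = T})
  have hcov : Hindman.FP a ⊆ ⋃₀ S := by
    intro x hx
    obtain ⟨s, -, h2, -⟩ := FP_nonempty a x hx 0 rfl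
    exact ⟨_, ⟨t s, rfl⟩, hx, s, h2, rfl⟩
  obtain ⟨c, ⟨T, rfl⟩, b, hb⟩ := Hindman.FP_partition_regular a S (Set.finite_range _) hcov
  have hb' : ∀ x : BS, x ∈ Hindman.FP b → ∃ s : Finset ℕ, s.Nonempty ∧
      x.val = some s ∧ t s = T := by
    intro x hx
    obtain ⟨h1, s, h2, h3⟩ := hb hx
    obtain ⟨s', h4, h5, -⟩ := FP_nonempty a x h1 0 rfl
    have : s = s' := Option.some.inj (h2.symm.trans h5)
    subst this
    exact ⟨s, h4, h2, h3⟩
  have k0 : b.head ∈ Hindman.FP b := Hindman.FP.head b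
  have k1 : b.tail.head ∈ Hindman.FP b.tail := Hindman.FP.head _
  have k2 : b.tail.tail.head ∈ Hindman.FP b.tail.tail := Hindman.FP.head _
  have k12 : b.tail.head * b.tail.tail.head ∈ Hindman.FP b.tail := Hindman.FP.cons _ _ k2
  obtain ⟨H0, n0, e0, t0⟩ := hb' _ k0
  obtain ⟨H1, n1, e1, t1⟩ := hb' _ (Hindman.FP.tail _ _ k1)
  obtain ⟨H2, n2, e2, t2⟩ := hb' _ (Hindman.FP.tail _ _ (Hindman.FP.tail _ _ k2))
  obtain ⟨H01, n01, e01, t01⟩ := hb' _ (Hindman.FP.cons _ _ k1)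
  obtain ⟨H02, n02, e02, t02⟩ := hb' _ (Hindman.FP.cons _ _ (Hindman.FP.tail _ _ k2))
  obtain ⟨H12, n12, e12, t12⟩ := hb' _ (Hindman.FP.tail _ _ k12)
  obtain ⟨H012, n012, e012, t012⟩ := hb' _ (Hindman.FP.cons _ _ k12)
  have mulc : ∀ s s' u : Finset ℕ, bmul (some s) (some s') = some u →
      (∀ i ∈ s, ∀ j ∈ s', i < j) ∧ u = s ∪ s' := by
    intro s s' u h
    by_cases hc : ∀ i ∈ s, ∀ j ∈ s', i < j
    · rw [bmul_some_some _ _ hc] at h
      exact ⟨hc, (Option.some.inj h).symm⟩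
    · rw [bmul_some_some' _ _ hc] at h
      exact absurd h (by simp)
  rw [BS_mul, e0, e1] at e01
  rw [BS_mul, e0, e2] at e02
  rw [BS_mul, e0, e12] at e012
  rw [BS_mul, e1, e2] at e12
  have m01 := mulc H0 H1 H01 e01
  have m02 := mulc H0 H2 H02 e02
  have m12 := mulc H1 H2 H12 e12
  have m012 := mulc H0 H12 H012 e012
  refine ⟨H0, H1, H2, n0, n1, n2, m01.1, m12.1, ?_, ?_, ?_⟩
  · rw [← m01.2, t01, t0]
  · rw [← m02.2, t02, t0]
  · rw [Finset.union_assoc, ← m12.2, ← m012.2, t012, t0]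

/-! ### Words -/

/-- The indicator word of `H` on `[i, i+n)`. -/
def wd (H : Finset ℕ) : ℕ → ℕ → List Bool
  | _, 0 => []
  | i, n + 1 => decide (i ∈ H) :: wd H (i + 1) n

theorem wd_add (H : Finset ℕ) (m n : ℕ) : ∀ i, wd H i (m + n) = wd H i m ++ wd H (i + m) n := by
  induction m with
  | zero => intro i; simp [wd]
  | succ m ih =>
    intro i
    rw [show m + 1 + n = (m + n) + 1 by ring]
    simp only [wd]
    rw [ih, List.cons_append, show i + 1 + m = i + (m + 1) by ring]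

theorem wd_congr (H H' : Finset ℕ) (m : ℕ) : ∀ i, (∀ j, i ≤ j → j < i + m → (j ∈ H ↔ j ∈ H')) →
    wd H i m = wd H' i m := by
  induction m with
  | zero => intro i _; rfl
  | succ m ih =>
    intro i h
    simp only [wd]
    rw [ih (i + 1) (fun j h1 h2 => h j (by omega) (by omega))]
    congr 1
    exact decide_eq_decide.2 (h i le_rfl (by omega))

theorem wd_empty (m : ℕ) : ∀ i, wd ∅ i m = List.replicate m false := by
  induction m with
  | zero => intro i; rfl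
  | succ m ih =>
    intro i
    simp only [wd, ih, List.replicate_succ]
    simp

theorem wd_length (H : Finset ℕ) (m : ℕ) : ∀ i, (wd H i m).length = m := by
  induction m with
  | zero => intro i; rfl
  | succ m ih => intro i; simp [wd, ih]

theorem wd_succ (H : Finset ℕ) (m i : ℕ) (h : i + m ∈ H) :
    wd H i (m + 1) = wd H i m ++ [true] := by
  rw [wd_add]
  simp [wd, h]

/-! ### The outer operators -/

section outer

variable {κ : Type} [Finite κ] (Z : Ultrafilter (ℕ × ℕ × ℕ))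

/-- The operators `L_0` and `L_1`. -/
noncomputable def Lo (b : Bool) (f : ℕ → ℕ → κ) : ℕ → ℕ → κ := fun w x =>
  ulim Z (fun τ => f (w * (bif b then τ.1 * τ.2.1 else 1)) (x + τ.2.2))

/-- The operator of a word. -/
noncomputable def Lw : List Bool → (ℕ → ℕ → κ) → (ℕ → ℕ → κ)
  | [], f => f
  | b :: u, f => Lo Z b (Lw u f)

theorem Lw_append (u v : List Bool) (f : ℕ → ℕ → κ) : Lw Z (u ++ v) f = Lw Z u (Lw Z v f) := by
  induction u with
  | nil => rfl
  | cons b u ih => simp only [List.cons_append, Lw, ih]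

theorem phase (hZ0 : ∀ m : ℕ, 0 < m → ∀ᶠ τ in (Z : Filter (ℕ × ℕ × ℕ)),
        0 < τ.1 ∧ 0 < τ.2.1 ∧ 0 < τ.2.2 ∧ m ∣ τ.1 ∧ m ∣ τ.2.1) (u : List Bool) :
    ∀ (ι : Type) (_ : Finite ι) (F : ι → ℕ → ℕ → κ) (w x : ι → ℕ), ∃ p Y : ℕ, 0 < p ∧
      ∀ i, F i (w i * p) (x i + Y) = Lw Z u (F i) (w i) (x i) ∧
        F i (w i) (x i + Y) = Lw Z (List.replicate u.length false) (F i) (w i) (x i) := by
  induction u with
  | nil =>
    intro ι _ F w x
    exact ⟨1, 0, one_pos, fun i => ⟨by simp [Lw], by simp [Lw]⟩⟩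
  | cons b u ih =>
    intro ι _ F w x
    have e1 : ∀ᶠ τ in (Z : Filter (ℕ × ℕ × ℕ)), ∀ i,
        Lw Z u (F i) (w i * (bif b then τ.1 * τ.2.1 else 1)) (x i + τ.2.2)
          = Lo Z b (Lw Z u (F i)) (w i) (x i) := by
      rw [Filter.eventually_all]
      intro i
      exact ulim_spec Z _
    have e2 : ∀ᶠ τ in (Z : Filter (ℕ × ℕ × ℕ)), ∀ i,
        Lw Z (List.replicate u.length false) (F i) (w i * 1) (x i + τ.2.2)
          = Lo Z false (Lw Z (List.replicate u.length false) (F i)) (w i) (x i) := by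
      rw [Filter.eventually_all]
      intro i
      exact ulim_spec Z _
    obtain ⟨τ, ⟨t1, t2, t3, -⟩, a1, a2⟩ := ((hZ0 1 one_pos).and (e1.and e2)).exists
    obtain ⟨p, Y, hp, h⟩ := ih (ι ⊕ ι) inferInstance (Sum.elim F F)
      (Sum.elim (fun i => w i * (bif b then τ.1 * τ.2.1 else 1)) w)
      (Sum.elim (fun i => x i + τ.2.2) (fun i => x i + τ.2.2))
    refine ⟨(bif b then τ.1 * τ.2.1 else 1) * p, τ.2.2 + Y, Nat.mul_pos ?_ hp, fun i => ⟨?_, ?_⟩⟩
    · cases b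
      · exact one_pos
      · exact Nat.mul_pos t1 t2
    · have h1 := (h (Sum.inl i)).1
      simp only [Sum.elim_inl] at h1
      rw [← mul_assoc, ← add_assoc, h1, a1 i]
      rfl
    · have h1 := (h (Sum.inr i)).2
      simp only [Sum.elim_inr] at h1
      have h2 := a2 i
      rw [mul_one] at h2
      rw [← add_assoc, h1, h2]
      rfl

theorem replicate_snoc (u : List Bool) (b : Bool) :
    List.replicate (u ++ [b]).length false = List.replicate u.length false ++ [false] := by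
  rw [List.length_append, List.length_singleton, List.replicate_succ']

theorem phaseB (hZ0 : ∀ m : ℕ, 0 < m → ∀ᶠ τ in (Z : Filter (ℕ × ℕ × ℕ)),
        0 < τ.1 ∧ 0 < τ.2.1 ∧ 0 < τ.2.2 ∧ m ∣ τ.1 ∧ m ∣ τ.2.1)
    (hZ2 : ∀ (κ : Type) (_ : Finite κ) (Φ : ℕ → κ) (m A1 A2 A3 : ℕ), 0 < m →
        ∀ᶠ τ in (Z : Filter (ℕ × ℕ × ℕ)), ∀ x,
          m * x = A1 * (τ.1 * τ.2.1) + A2 * τ.1 + A3 * τ.2.1 →
          Φ (τ.2.2 + x) = Φ τ.2.2) (u : List Bool)
    (ι : Type) (_ : Finite ι) (F : ι → ℕ → ℕ → κ) (w x : ι → ℕ) (hw : ∀ i, 0 < w i) :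
    ∃ b Y : ℕ, 0 < b ∧ 0 < Y ∧ (∀ i, w i ∣ b) ∧
      ∀ i, F i (w i * b) (x i + Y) = Lw Z (u ++ [true]) (F i) (w i) (x i) ∧
        ∀ e, w i * e = b → F i (w i) (x i + Y + e)
          = Lw Z (List.replicate (u ++ [true]).length false) (F i) (w i) (x i) := by
  obtain ⟨p, Y, hp, h⟩ := phase Z hZ0 u (ι ⊕ ι) inferInstance
    (Sum.elim (fun i => Lo Z true (F i)) (fun i => Lo Z false (F i))) (Sum.elim w w) (Sum.elim x x)
  have e1 : ∀ᶠ τ in (Z : Filter (ℕ × ℕ × ℕ)), ∀ i,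
      F i (w i * p * (τ.1 * τ.2.1)) (x i + Y + τ.2.2) = Lo Z true (F i) (w i * p) (x i + Y) := by
    rw [Filter.eventually_all]
    intro i
    exact ulim_spec Z _
  have e2 : ∀ᶠ τ in (Z : Filter (ℕ × ℕ × ℕ)), ∀ i,
      F i (w i * 1) (x i + Y + τ.2.2) = Lo Z false (F i) (w i) (x i + Y) := by
    rw [Filter.eventually_all]
    intro i
    exact ulim_spec Z _
  have e3 : ∀ᶠ τ in (Z : Filter (ℕ × ℕ × ℕ)), ∀ i, ∀ e,
      w i * e = p * (τ.1 * τ.2.1) + 0 * τ.1 + 0 * τ.2.1 →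
        F i (w i) (x i + Y + (τ.2.2 + e)) = F i (w i) (x i + Y + τ.2.2) := by
    rw [Filter.eventually_all]
    intro i
    exact hZ2 κ inferInstance (fun y => F i (w i) (x i + Y + y)) (w i) p 0 0 (hw i)
  have e4 : ∀ᶠ τ in (Z : Filter (ℕ × ℕ × ℕ)), ∀ i, w i ∣ τ.1 := by
    rw [Filter.eventually_all]
    intro i
    filter_upwards [hZ0 (w i) (hw i)] with τ hτ
    exact hτ.2.2.2.1
  obtain ⟨τ, ⟨t1, t2, t3, -⟩, a1, a2, a3, a4⟩ :=
    ((hZ0 1 one_pos).and (e1.and (e2.and (e3.and e4)))).exists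
  refine ⟨p * (τ.1 * τ.2.1), Y + τ.2.2, Nat.mul_pos hp (Nat.mul_pos t1 t2), by omega,
    fun i => ((a4 i).mul_right _).mul_left _, fun i => ⟨?_, ?_⟩⟩
  · have h1 := (h (Sum.inl i)).1
    simp only [Sum.elim_inl] at h1
    rw [← mul_assoc, ← add_assoc, a1 i, h1, Lw_append]
    rfl
  · intro e he
    have h1 := (h (Sum.inr i)).2
    simp only [Sum.elim_inr] at h1
    have h2 := a2 i
    rw [mul_one] at h2
    have h3 := a3 i e (by rw [he]; ring)
    rw [replicate_snoc, Lw_append]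
    rw [show x i + (Y + τ.2.2) + e = x i + Y + (τ.2.2 + e) by ring, h3, h2, h1]
    rfl

theorem phaseC (hZ0 : ∀ m : ℕ, 0 < m → ∀ᶠ τ in (Z : Filter (ℕ × ℕ × ℕ)),
        0 < τ.1 ∧ 0 < τ.2.1 ∧ 0 < τ.2.2 ∧ m ∣ τ.1 ∧ m ∣ τ.2.1)
    (hZ1 : ∀ (κ : Type) (_ : Finite κ) (Φ : ℕ → ℕ → κ) (m A : ℕ), 0 < m →
        ∀ᶠ τ in (Z : Filter (ℕ × ℕ × ℕ)), ∀ x, m * x = A * τ.2.1 →
          Φ (τ.1 + x) τ.2.2 = Φ (τ.1 * τ.2.1) τ.2.2)
    (hZ2 : ∀ (κ : Type) (_ : Finite κ) (Φ : ℕ → κ) (m A1 A2 A3 : ℕ), 0 < m →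
        ∀ᶠ τ in (Z : Filter (ℕ × ℕ × ℕ)), ∀ x,
          m * x = A1 * (τ.1 * τ.2.1) + A2 * τ.1 + A3 * τ.2.1 →
          Φ (τ.2.2 + x) = Φ τ.2.2) (u : List Bool)
    (ι : Type) (_ : Finite ι) (F : ι → ℕ → ℕ → κ) (w x : ι → ℕ) (hw : ∀ i, 0 < w i) :
    ∃ C D Y : ℕ, 0 < C ∧ 0 < D ∧ (∀ i, w i ∣ C ∧ w i ∣ D) ∧
      ∀ i, F i (w i * (C * D)) (x i + Y) = Lw Z (u ++ [true]) (F i) (w i) (x i) ∧
        F i (w i * (C + D)) (x i + Y) = Lw Z (u ++ [true]) (F i) (w i) (x i) ∧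
        ∀ e, (w i * e = C * D ∨ w i * e = C + D) → F i (w i) (x i + Y + e)
          = Lw Z (List.replicate (u ++ [true]).length false) (F i) (w i) (x i) := by
  obtain ⟨p, Y, hp, h⟩ := phase Z hZ0 u (ι ⊕ ι) inferInstance
    (Sum.elim (fun i => Lo Z true (F i)) (fun i => Lo Z false (F i))) (Sum.elim w w) (Sum.elim x x)
  have e1 : ∀ᶠ τ in (Z : Filter (ℕ × ℕ × ℕ)), ∀ i,
      F i (w i * p * (τ.1 * τ.2.1)) (x i + Y + τ.2.2) = Lo Z true (F i) (w i * p) (x i + Y) := by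
    rw [Filter.eventually_all]
    intro i
    exact ulim_spec Z _
  have e2 : ∀ᶠ τ in (Z : Filter (ℕ × ℕ × ℕ)), ∀ i,
      F i (w i * 1) (x i + Y + τ.2.2) = Lo Z false (F i) (w i) (x i + Y) := by
    rw [Filter.eventually_all]
    intro i
    exact ulim_spec Z _
  have e3 : ∀ᶠ τ in (Z : Filter (ℕ × ℕ × ℕ)), ∀ i, ∀ e,
      w i * e = p * (τ.1 * τ.2.1) + 0 * τ.1 + 0 * τ.2.1 →
        F i (w i) (x i + Y + (τ.2.2 + e)) = F i (w i) (x i + Y + τ.2.2) := by
    rw [Filter.eventually_all]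
    intro i
    exact hZ2 κ inferInstance (fun y => F i (w i) (x i + Y + y)) (w i) p 0 0 (hw i)
  have e3' : ∀ᶠ τ in (Z : Filter (ℕ × ℕ × ℕ)), ∀ i, ∀ e,
      w i * e = 0 * (τ.1 * τ.2.1) + p * τ.1 + 1 * τ.2.1 →
        F i (w i) (x i + Y + (τ.2.2 + e)) = F i (w i) (x i + Y + τ.2.2) := by
    rw [Filter.eventually_all]
    intro i
    exact hZ2 κ inferInstance (fun y => F i (w i) (x i + Y + y)) (w i) 0 p 1 (hw i)
  have e4 : ∀ᶠ τ in (Z : Filter (ℕ × ℕ × ℕ)), ∀ i, w i ∣ τ.1 ∧ w i ∣ τ.2.1 := by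
    rw [Filter.eventually_all]
    intro i
    filter_upwards [hZ0 (w i) (hw i)] with τ hτ
    exact hτ.2.2.2
  have e5 : ∀ᶠ τ in (Z : Filter (ℕ × ℕ × ℕ)), ∀ i, ∀ e, p * e = 1 * τ.2.1 →
      F i (w i * p * (τ.1 + e)) (x i + Y + τ.2.2)
        = F i (w i * p * (τ.1 * τ.2.1)) (x i + Y + τ.2.2) := by
    rw [Filter.eventually_all]
    intro i
    exact hZ1 κ inferInstance (fun s y => F i (w i * p * s) (x i + Y + y)) p 1 hp
  obtain ⟨τ, ⟨t1, t2, t3, t4, t5⟩, a1, a2, a3, a3', a4, a5⟩ :=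
    ((hZ0 p hp).and (e1.and (e2.and (e3.and (e3'.and (e4.and e5)))))).exists
  refine ⟨p * τ.1, τ.2.1, Y + τ.2.2, Nat.mul_pos hp t1, t2,
    fun i => ⟨(a4 i).1.mul_left _, (a4 i).2⟩, fun i => ⟨?_, ?_, ?_⟩⟩
  · have h1 := (h (Sum.inl i)).1
    simp only [Sum.elim_inl] at h1
    rw [show w i * (p * τ.1 * τ.2.1) = w i * p * (τ.1 * τ.2.1) by ring, ← add_assoc, a1 i, h1,
      Lw_append]
    rfl
  · have h1 := (h (Sum.inl i)).1
    simp only [Sum.elim_inl] at h1
    obtain ⟨q, hq⟩ := t5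
    have h2 := a5 i q (by rw [hq]; ring)
    rw [show w i * (p * τ.1 + τ.2.1) = w i * p * (τ.1 + q) by rw [hq]; ring, ← add_assoc, h2, a1 i,
      h1, Lw_append]
    rfl
  · intro e he
    have h1 := (h (Sum.inr i)).2
    simp only [Sum.elim_inr] at h1
    have h2 := a2 i
    rw [mul_one] at h2
    have h3 : F i (w i) (x i + Y + (τ.2.2 + e)) = F i (w i) (x i + Y + τ.2.2) := by
      rcases he with he | he
      · exact a3 i e (by rw [he]; ring)
      · exact a3' i e (by rw [he]; ring)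
    rw [replicate_snoc, Lw_append]
    rw [show x i + (Y + τ.2.2) + e = x i + Y + (τ.2.2 + e) by ring, h3, h2, h1]
    rfl

end outer

end Pool.Agent.H55.Bal
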