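import Mathlib
import Pool.Agent.H55.BalMain

set_option autoImplicit false

namespace Pool.Agent.H55.Bal

open Filter

theorem balanced {κ : Type} [Finite κ] (χ : ℕ → κ) :
    ∃ (T : κ) (a b c d : ℕ), 0 < a ∧ 0 < b ∧ 0 < c ∧ 0 < d ∧
      χ ((a + b) + (c + d)) = T ∧ χ ((a + b) + (c * d)) = T ∧
      χ ((a * b) + (c + d)) = T ∧ χ ((a * b) + (c * d)) = T ∧
      χ ((a + b) * (c + d)) = T ∧ χ ((a + b) * (c * d)) = T ∧
      χ ((a * b) * (c + d)) = T ∧ χ ((a * b) * (c * d)) = T := by
  obtain ⟨Z, hZ0, hZ1, hZ2⟩ := ultra_outer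
  let f : ℕ → ℕ → κ := fun w x => χ (w * x)
  let t : Finset ℕ → κ := fun H => ulim (Filter.hyperfilter ℕ) (fun n => Lw Z (wd H 0 n) f 1 0)
  obtain ⟨H0, H1, H2, n0, n1, n2, h01, h12, t1, t2, t3⟩ := block_hindman t
  obtain ⟨T, hT⟩ : ∃ T, T = t H0 := ⟨_, rfl⟩
  -- choose n
  have E : ∀ H : Finset ℕ, ∀ᶠ n : ℕ in (Filter.hyperfilter ℕ : Filter ℕ),
      Lw Z (wd H 0 n) f 1 0 = t H := fun H => ulim_spec _ _
  obtain ⟨N0, hN0⟩ : ∃ N0, N0 = H0.max' n0 + 1 := ⟨_, rfl⟩
  have h0lt : ∀ i ∈ H0, i < N0 := fun i hi => by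
    rw [hN0]; exact Nat.lt_succ_of_le (Finset.le_max' _ _ hi)
  have h1ge : ∀ j ∈ H1, N0 ≤ j := fun j hj => by
    rw [hN0]; exact h01 _ (Finset.max'_mem _ _) j hj
  obtain ⟨l1, hl1⟩ : ∃ l1, N0 + l1 = H1.max' n1 :=
    ⟨_, Nat.add_sub_cancel' (h1ge _ (Finset.max'_mem _ _))⟩
  have h1le : ∀ j ∈ H1, j ≤ N0 + l1 := fun j hj => by rw [hl1]; exact Finset.le_max' _ _ hj
  have h2ge : ∀ j ∈ H2, N0 + (l1 + 1) ≤ j := fun j hj => by
    have := h12 _ (Finset.max'_mem _ n1) j hj
    omega
  obtain ⟨l2, hl2⟩ : ∃ l2, N0 + (l1 + 1) + l2 = H2.max' n2 :=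
    ⟨_, Nat.add_sub_cancel' (h2ge _ (Finset.max'_mem _ _))⟩
  have h2le : ∀ j ∈ H2, j ≤ N0 + (l1 + 1) + l2 := fun j hj => by
    rw [hl2]; exact Finset.le_max' _ _ hj
  have hm1 : N0 + l1 ∈ H1 := by rw [hl1]; exact Finset.max'_mem _ _
  have hm2 : N0 + (l1 + 1) + l2 ∈ H2 := by rw [hl2]; exact Finset.max'_mem _ _
  obtain ⟨n, a1, a2, a3, a4, a5⟩ := ((E H0).and ((E (H0 ∪ H1)).and ((E (H0 ∪ H2)).and
    ((E (H0 ∪ H1 ∪ H2)).and (Nat.hyperfilter_le_atTop (Filter.eventually_ge_atTop
      (N0 + (l1 + 1) + (l2 + 1)))))))).exists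
  obtain ⟨k, rfl⟩ := Nat.exists_eq_add_of_le a5
  rw [t1] at a2
  rw [t2] at a3
  rw [t3] at a4
  rw [← hT] at a1 a2 a3 a4
  -- words
  obtain ⟨u0, hu0⟩ : ∃ u0, u0 = wd H0 0 N0 := ⟨_, rfl⟩
  obtain ⟨u1, hu1⟩ : ∃ u1, u1 = wd H1 N0 l1 := ⟨_, rfl⟩
  obtain ⟨u2, hu2⟩ : ∃ u2, u2 = wd H2 (N0 + (l1 + 1)) l2 := ⟨_, rfl⟩
  have W : ∀ A B : Finset ℕ, A ⊆ H1 → B ⊆ H2 →
      wd (H0 ∪ A ∪ B) 0 (N0 + (l1 + 1) + (l2 + 1) + k)
        = u0 ++ (wd A N0 (l1 + 1) ++ (wd B (N0 + (l1 + 1)) (l2 + 1) ++ List.replicate k false)) := by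
    intro A B hA hB
    rw [wd_add, wd_add, wd_add, List.append_assoc, List.append_assoc, hu0]
    congr 1
    · apply wd_congr
      intro j _ hj
      simp only [Finset.mem_union]
      constructor
      · rintro ((h | h) | h)
        · exact h
        · have := h1ge j (hA h); omega
        · have := h2ge j (hB h); omega
      · intro h; exact Or.inl (Or.inl h)
    congr 1
    · rw [zero_add]
      apply wd_congr
      intro j hj1 hj2
      simp only [Finset.mem_union]
      constructor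
      · rintro ((h | h) | h)
        · have := h0lt j h; omega
        · exact h
        · have := h2ge j (hB h); omega
      · intro h; exact Or.inl (Or.inr h)
    congr 1
    · rw [zero_add]
      apply wd_congr
      intro j hj1 hj2
      simp only [Finset.mem_union]
      constructor
      · rintro ((h | h) | h)
        · have := h0lt j h; omega
        · have := h1le j (hA h); omega
        · exact h
      · intro h; exact Or.inr h
    · rw [zero_add, ← wd_empty k (N0 + (l1 + 1) + (l2 + 1))]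
      apply wd_congr
      intro j hj1 hj2
      simp only [Finset.mem_union]
      constructor
      · rintro ((h | h) | h)
        · have := h0lt j h; omega
        · have := h1le j (hA h); omega
        · have := h2le j (hB h); omega
      · intro h; simp at h
  have w1 : wd H1 N0 (l1 + 1) = u1 ++ [true] := by rw [hu1]; exact wd_succ _ _ _ hm1
  have w2 : wd H2 (N0 + (l1 + 1)) (l2 + 1) = u2 ++ [true] := by rw [hu2]; exact wd_succ _ _ _ hm2
  have z1 : wd ∅ N0 (l1 + 1) = List.replicate (u1 ++ [true]).length false := by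
    rw [wd_empty, hu1, List.length_append, wd_length, List.length_singleton]
  have z2 : wd ∅ (N0 + (l1 + 1)) (l2 + 1) = List.replicate (u2 ++ [true]).length false := by
    rw [wd_empty, hu2, List.length_append, wd_length, List.length_singleton]
  obtain ⟨v1, hv1⟩ : ∃ v1 : Bool → List Bool, v1 = fun b =>
      bif b then u1 ++ [true] else List.replicate (u1 ++ [true]).length false := ⟨_, rfl⟩
  obtain ⟨v2, hv2⟩ : ∃ v2 : Bool → List Bool, v2 = fun b =>
      bif b then u2 ++ [true] else List.replicate (u2 ++ [true]).length false := ⟨_, rfl⟩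
  have key : ∀ b1 b2 : Bool, Lw Z u0 (Lw Z (v1 b1) (Lw Z (v2 b2)
      (Lw Z (List.replicate k false) f))) 1 0 = T := by
    intro b1 b2
    rw [← Lw_append, ← Lw_append, ← Lw_append]
    have e1 : v1 b1 = wd (bif b1 then H1 else ∅) N0 (l1 + 1) := by
      cases b1
      · simp only [hv1, cond_false]; exact z1.symm
      · simp only [hv1, cond_true]; exact w1.symm
    have e2 : v2 b2 = wd (bif b2 then H2 else ∅) (N0 + (l1 + 1)) (l2 + 1) := by
      cases b2
      · simp only [hv2, cond_false]; exact z2.symm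
      · simp only [hv2, cond_true]; exact w2.symm
    rw [e1, e2, List.append_assoc, List.append_assoc, ← W _ _
      (by cases b1; exacts [Finset.empty_subset _, Finset.Subset.refl _])
      (by cases b2; exacts [Finset.empty_subset _, Finset.Subset.refl _])]
    cases b1 <;> cases b2
    · simpa using a1
    · simpa using a3
    · simpa using a2
    · simpa using a4
  obtain ⟨G, hG⟩ : ∃ G, G = Lw Z (List.replicate k false) f := ⟨_, rfl⟩
  rw [← hG] at key
  -- phase A
  obtain ⟨z, Y0, hz, hA⟩ := phase Z hZ0 u0 (Bool × Bool) inferInstance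
    (fun i => Lw Z (v1 i.1) (Lw Z (v2 i.2) G)) (fun _ => 1) (fun _ => 0)
  have hA' : ∀ b1 b2 : Bool, Lw Z (v1 b1) (Lw Z (v2 b2) G) z Y0 = T := by
    intro b1 b2
    have := (hA (b1, b2)).1
    simp only [one_mul, zero_add] at this
    rw [this]
    exact key b1 b2
  -- phase B
  obtain ⟨b, Y1, hb, hY1, hzb, hB⟩ := phaseB Z hZ0 hZ2 u1 Bool inferInstance
    (fun i => Lw Z (v2 i) G) (fun _ => z) (fun _ => Y0) (fun _ => hz)
  obtain ⟨e, he⟩ := hzb true
  have hB1 : ∀ i : Bool, Lw Z (v2 i) G (z * b) (Y0 + Y1) = T := by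
    intro i
    rw [(hB i).1]
    have := hA' true i
    simpa only [hv1, cond_true] using this
  have hB2 : ∀ i : Bool, Lw Z (v2 i) G z (Y0 + Y1 + e) = T := by
    intro i
    rw [(hB i).2 e he.symm]
    have := hA' false i
    simpa only [hv1, cond_false] using this
  -- phase C
  obtain ⟨C, D, Y2, hC, hD, hCD, hC'⟩ := phaseC Z hZ0 hZ1 hZ2 u2 Bool inferInstance
    (fun _ => G) (fun i => bif i then z * b else z) (fun i => bif i then Y0 + Y1 else Y0 + Y1 + e)
    (fun i => by cases i <;> simp only [cond_true, cond_false]; exacts [hz, Nat.mul_pos hz hb])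
  obtain ⟨wC, hwC⟩ : ∃ wC : Bool → ℕ, wC = fun i => bif i then z * b else z := ⟨_, rfl⟩
  obtain ⟨xC, hxC⟩ : ∃ xC : Bool → ℕ, xC = fun i => bif i then Y0 + Y1 else Y0 + Y1 + e := ⟨_, rfl⟩
  have hval : ∀ i b2 : Bool, Lw Z (v2 b2) G (wC i) (xC i) = T := by
    intro i b2
    cases i
    · simpa only [hwC, hxC, cond_false] using hB2 b2
    · simpa only [hwC, hxC, cond_true] using hB1 b2
  have hC1 : ∀ i, G (wC i * (C * D)) (xC i + Y2) = T := by
    intro i
    have h1 := (hC' i).1
    have h2 := hval i true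
    simp only [hv2, cond_true] at h2
    rw [← h2, hwC, hxC]
    exact h1
  have hC2 : ∀ i, G (wC i * (C + D)) (xC i + Y2) = T := by
    intro i
    have h1 := (hC' i).2.1
    have h2 := hval i true
    simp only [hv2, cond_true] at h2
    rw [← h2, hwC, hxC]
    exact h1
  have hC3 : ∀ i e', (wC i * e' = C * D ∨ wC i * e' = C + D) → G (wC i) (xC i + Y2 + e') = T := by
    intro i e' h
    have h1 := (hC' i).2.2 e' (by rw [hwC] at h; exact h)
    have h2 := hval i false
    simp only [hv2, cond_false] at h2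
    rw [← h2, hwC, hxC]
    exact h1
  -- shifts
  have hwCd : ∀ i, wC i ∣ C ∧ wC i ∣ D := by
    intro i; rw [hwC]; exact hCD i
  have hE : ∀ i s : Bool, ∃ e', wC i * e' = bif s then C * D else C + D := by
    intro i s
    cases s
    · obtain ⟨q, hq⟩ := Dvd.dvd.add (hwCd i).1 (hwCd i).2
      exact ⟨q, hq.symm⟩
    · obtain ⟨q, hq⟩ := (hwCd i).1.mul_right D
      exact ⟨q, hq.symm⟩
  choose E' hE' using hE
  -- final zeros
  obtain ⟨p, Y3, hp, hF⟩ := phase Z hZ0 (List.replicate k false) (Bool × Bool × Bool) inferInstance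
    (fun _ => f)
    (fun i => bif i.2.2 then wC i.1 * (bif i.2.1 then C * D else C + D) else wC i.1)
    (fun i => bif i.2.2 then xC i.1 + Y2 else xC i.1 + Y2 + E' i.1 i.2.1)
  rw [List.length_replicate, ← hG] at hF
  have hsel : ∀ i s, χ ((wC i * (bif s then C * D else C + D)) * (xC i + Y2 + Y3)) = T := by
    intro i s
    have h1 := (hF (i, s, true)).2
    simp only [cond_true] at h1
    have h2 : G (wC i * (bif s then C * D else C + D)) (xC i + Y2) = T := by
      cases s
      · exact hC2 i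
      · exact hC1 i
    rw [← h2, ← h1]
  have huns : ∀ i s, χ (wC i * (xC i + Y2 + E' i s + Y3)) = T := by
    intro i s
    have h1 := (hF (i, s, false)).2
    simp only [cond_false] at h1
    have h2 : G (wC i) (xC i + Y2 + E' i s) = T := by
      apply hC3
      rw [hE']
      cases s
      · exact Or.inr rfl
      · exact Or.inl rfl
    rw [← h2, ← h1]
  have N1 : ∀ s, χ ((z * (Y0 + Y1 + Y2 + Y3) + b) + (bif s then C * D else C + D)) = T := by
    intro s
    rw [← huns false s]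
    congr 1
    rw [← hE' false s, hwC, hxC]
    simp only [cond_false]
    rw [he]; ring
  have N2 : ∀ s, χ ((z * (Y0 + Y1 + Y2 + Y3) * b) + (bif s then C * D else C + D)) = T := by
    intro s
    rw [← huns true s]
    congr 1
    rw [← hE' true s, hwC, hxC]
    simp only [cond_true]
    ring
  have N3 : ∀ s, χ ((z * (Y0 + Y1 + Y2 + Y3) + b) * (bif s then C * D else C + D)) = T := by
    intro s
    rw [← hsel false s]
    congr 1
    rw [hwC, hxC]
    simp only [cond_false]
    rw [he]; ring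
  have N4 : ∀ s, χ ((z * (Y0 + Y1 + Y2 + Y3) * b) * (bif s then C * D else C + D)) = T := by
    intro s
    rw [← hsel true s]
    congr 1
    rw [hwC, hxC]
    simp only [cond_true]
    ring
  refine ⟨T, z * (Y0 + Y1 + Y2 + Y3), b, C, D, Nat.mul_pos hz (by omega), hb, hC, hD,
    N1 false, N1 true, N2 false, N2 true, N3 false, N3 true, N4 false, N4 true⟩

end Pool.Agent.H55.Bal
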