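import Mathlib

set_option autoImplicit false

namespace Pool.Agent.H55.SunTM

open Finset

/-- generalized central trinomial coefficient -/
def T (b c : ℤ) (n : ℕ) : ℤ :=
  ∑ j ∈ range (n / 2 + 1), (n.choose (2 * j) : ℤ) * ((2 * j).choose j : ℤ) * b ^ (n - 2 * j) * c ^ j

/-- generalized Motzkin number -/
def M (b c : ℤ) (n : ℕ) : ℤ :=
  ∑ j ∈ range (n / 2 + 1), (n.choose (2 * j) : ℤ) * (catalan j : ℤ) * b ^ (n - 2 * j) * c ^ j

lemma T_eq (n N : ℕ) (h : n < 2 * N) :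
    (T 3 3 n : ℚ) = 3 ^ n * ∑ j ∈ range N, (n.choose (2 * j) : ℚ) * ((2 * j).choose j : ℚ) * (1 / 3) ^ j := by
  have hsub : range (n / 2 + 1) ⊆ range N := by
    intro x hx; rw [mem_range] at *; omega
  unfold T
  push_cast
  rw [mul_sum, ← sum_subset hsub]
  · apply sum_congr rfl
    intro j hj
    rw [mem_range] at hj
    have h1 : (3:ℚ) ^ n = 3 ^ (n - 2 * j) * 3 ^ (2 * j) := by rw [← pow_add]; congr 1; omega
    have h2 : (3:ℚ) ^ (2 * j) * (1 / 3) ^ j = 3 ^ j := by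
      rw [two_mul, pow_add, mul_assoc, ← mul_pow]; norm_num
    rw [h1, ← h2]
    ring
  · intro j _ hj
    rw [mem_range, not_lt] at hj
    rw [Nat.choose_eq_zero_of_lt (show n < 2 * j by omega)]
    simp

lemma M_eq (n N : ℕ) (h : n < 2 * N) :
    (M 3 3 n : ℚ) = 3 ^ n * ∑ j ∈ range N, (n.choose (2 * j) : ℚ) * (catalan j : ℚ) * (1 / 3) ^ j := by
  have hsub : range (n / 2 + 1) ⊆ range N := by
    intro x hx; rw [mem_range] at *; omega
  unfold M
  push_cast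
  rw [mul_sum, ← sum_subset hsub]
  · apply sum_congr rfl
    intro j hj
    rw [mem_range] at hj
    have h1 : (3:ℚ) ^ n = 3 ^ (n - 2 * j) * 3 ^ (2 * j) := by rw [← pow_add]; congr 1; omega
    have h2 : (3:ℚ) ^ (2 * j) * (1 / 3) ^ j = 3 ^ j := by
      rw [two_mul, pow_add, mul_assoc, ← mul_pow]; norm_num
    rw [h1, ← h2]
    ring
  · intro j _ hj
    rw [mem_range, not_lt] at hj
    rw [Nat.choose_eq_zero_of_lt (show n < 2 * j by omega)]
    simp

lemma cb_succ (j : ℕ) : ((j : ℚ) + 1) * ((2 * (j + 1)).choose (j + 1) : ℚ) = 2 * (2 * j + 1) * ((2 * j).choose j : ℚ) := by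
  have := Nat.succ_mul_centralBinom_succ j
  rw [Nat.centralBinom, Nat.centralBinom] at this
  have h2 : (((j + 1) * (2 * (j + 1)).choose (j + 1) : ℕ) : ℚ) = ((2 * (2 * j + 1) * (2 * j).choose j : ℕ) : ℚ) := by
    exact_mod_cast this
  push_cast at h2
  linarith

lemma ch_succ (n j : ℕ) : (n.choose (2 * j + 1) : ℚ) * (2 * j + 1) = (n.choose (2 * j) : ℚ) * (n - 2 * j) := by
  have := Nat.choose_succ_right_eq n (2 * j)
  by_cases h : 2 * j ≤ n
  · have h2 : (((n.choose (2 * j + 1)) * (2 * j + 1) : ℕ) : ℚ) = ((n.choose (2 * j) * (n - 2 * j) : ℕ) : ℚ) := by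
      exact_mod_cast this
    push_cast [Nat.cast_sub h] at h2
    linarith
  · rw [Nat.choose_eq_zero_of_lt (show n < 2 * j by omega), Nat.choose_eq_zero_of_lt (show n < 2 * j + 1 by omega)]
    simp

/-- coefficientwise three-term relation -/
lemma coeff_rec (n j : ℕ) :
    ((n : ℚ) + 2) * ((n + 2).choose (2 * (j + 1)) * (2 * (j + 1)).choose (j + 1))
    - (2 * n + 3) * ((n + 1).choose (2 * (j + 1)) * (2 * (j + 1)).choose (j + 1))
    + (n + 1) * (n.choose (2 * (j + 1)) * (2 * (j + 1)).choose (j + 1))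
    = 4 * (n + 1) * (n.choose (2 * j) * (2 * j).choose j) := by
  have e1 : ((n + 2).choose (2 * (j + 1)) : ℚ) = n.choose (2 * j) + 2 * n.choose (2 * j + 1) + n.choose (2 * (j + 1)) := by
    have : (n + 2).choose (2 * (j + 1)) = n.choose (2 * j) + 2 * n.choose (2 * j + 1) + n.choose (2 * (j + 1)) := by
      rw [show 2 * (j + 1) = (2 * j + 1) + 1 by ring, Nat.choose_succ_succ' (n + 1), Nat.choose_succ_succ' n, Nat.choose_succ_succ' n]
      ring
    exact_mod_cast this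
  have e2 : ((n + 1).choose (2 * (j + 1)) : ℚ) = n.choose (2 * j + 1) + n.choose (2 * (j + 1)) := by
    have : (n + 1).choose (2 * (j + 1)) = n.choose (2 * j + 1) + n.choose (2 * (j + 1)) := by
      rw [show 2 * (j + 1) = (2 * j + 1) + 1 by ring, Nat.choose_succ_succ' n]
    exact_mod_cast this
  have h1 := cb_succ j
  have h2 := ch_succ n j
  rw [e1, e2]
  set A : ℚ := (n.choose (2 * j) : ℚ)
  set B : ℚ := (n.choose (2 * j + 1) : ℚ)
  set D : ℚ := (n.choose (2 * (j + 1)) : ℚ)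
  set c1 : ℚ := ((2 * (j + 1)).choose (j + 1) : ℚ)
  set c0 : ℚ := ((2 * j).choose j : ℚ)
  have hj : (2 * (j:ℚ) + 1) ≠ 0 := by positivity
  have hj1 : ((j:ℚ) + 1) ≠ 0 := by positivity
  have hc : c1 = 2 * (2 * j + 1) * c0 / (j + 1) := by field_simp; linarith
  have hB : B = A * (n - 2 * j) / (2 * j + 1) := by field_simp; linarith
  rw [hc, hB]
  field_simp
  ring

lemma coeff_M (n j : ℕ) :
    (n.choose (2 * j + 1) : ℚ) * (2 * (j + 1)).choose (j + 1) + 4 * (n.choose (2 * j) * (2 * j).choose j)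
     = 2 * (n + 2) * (n.choose (2 * j) * catalan j) := by
  have h1 := cb_succ j
  have h2 := ch_succ n j
  have h3 : ((j:ℚ) + 1) * catalan j = (2 * j).choose j := by
    have := succ_mul_catalan_eq_centralBinom j
    rw [Nat.centralBinom] at this
    exact_mod_cast this
  set A : ℚ := (n.choose (2 * j) : ℚ)
  set B : ℚ := (n.choose (2 * j + 1) : ℚ)
  set c1 : ℚ := ((2 * (j + 1)).choose (j + 1) : ℚ)
  set c0 : ℚ := ((2 * j).choose j : ℚ)
  have hj : (2 * (j:ℚ) + 1) ≠ 0 := by positivity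
  have hj1 : ((j:ℚ) + 1) ≠ 0 := by positivity
  have hc : c1 = 2 * (2 * j + 1) * c0 / (j + 1) := by field_simp; linarith
  have hB : B = A * (n - 2 * j) / (2 * j + 1) := by field_simp; linarith
  have hcat : (catalan j : ℚ) = c0 / (j + 1) := by field_simp; linarith
  rw [hc, hB, hcat]
  field_simp
  ring

lemma T_rec (n : ℕ) : ((n : ℚ) + 2) * T 3 3 (n + 2) = 3 * (2 * n + 3) * T 3 3 (n + 1) + 3 * (n + 1) * T 3 3 n := by
  rw [T_eq (n + 2) (n + 3) (by omega), T_eq (n + 1) (n + 3) (by omega), T_eq n (n + 2) (by omega)]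
  have key : ∑ j ∈ range (n + 3), (((n : ℚ) + 2) * ((n + 2).choose (2 * j) * (2 * j).choose j)
    - (2 * n + 3) * ((n + 1).choose (2 * j) * (2 * j).choose j)
    + (n + 1) * (n.choose (2 * j) * (2 * j).choose j)) * (1 / 3) ^ j = 
    ∑ j ∈ range (n + 2), 4 * ((n : ℚ) + 1) * (n.choose (2 * j) * (2 * j).choose j) * (1 / 3) ^ (j + 1) := by
    rw [sum_range_succ']
    simp only [coeff_rec]
    simp
    ring
  have e : ∑ j ∈ range (n + 3), (n.choose (2 * j) : ℚ) * ((2 * j).choose j : ℚ) * (1 / 3) ^ j =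
      ∑ j ∈ range (n + 2), (n.choose (2 * j) : ℚ) * ((2 * j).choose j : ℚ) * (1 / 3) ^ j := by
    rw [sum_range_succ, Nat.choose_eq_zero_of_lt (show n < 2 * (n + 2) by omega)]; simp
  have key2 : ((n : ℚ) + 2) * ∑ j ∈ range (n + 3), ((n + 2).choose (2 * j) : ℚ) * ((2 * j).choose j : ℚ) * (1 / 3) ^ j
    - (2 * n + 3) * ∑ j ∈ range (n + 3), ((n + 1).choose (2 * j) : ℚ) * ((2 * j).choose j : ℚ) * (1 / 3) ^ j
    + (n + 1) * ∑ j ∈ range (n + 2), (n.choose (2 * j) : ℚ) * ((2 * j).choose j : ℚ) * (1 / 3) ^ j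
    = 4 * (n + 1) * (1 / 3) * ∑ j ∈ range (n + 2), (n.choose (2 * j) : ℚ) * ((2 * j).choose j : ℚ) * (1 / 3) ^ j := by
    rw [← e, mul_sum, mul_sum, mul_sum, ← sum_sub_distrib, ← sum_add_distrib, e, mul_sum]
    convert key using 1
    · apply sum_congr rfl; intro j _; ring
    · apply sum_congr rfl; intro j _; ring
  set S2 := ∑ j ∈ range (n + 3), ((n + 2).choose (2 * j) : ℚ) * ((2 * j).choose j : ℚ) * (1 / 3) ^ j
  set S1 := ∑ j ∈ range (n + 3), ((n + 1).choose (2 * j) : ℚ) * ((2 * j).choose j : ℚ) * (1 / 3) ^ j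
  set S0 := ∑ j ∈ range (n + 2), (n.choose (2 * j) : ℚ) * ((2 * j).choose j : ℚ) * (1 / 3) ^ j
  have : (3:ℚ) ^ (n + 2) = 9 * 3 ^ n := by ring
  have h1 : (3:ℚ) ^ (n + 1) = 3 * 3 ^ n := by ring
  rw [this, h1]
  linear_combination (9 * 3 ^ n) * key2

lemma M_rel (n : ℕ) : 2 * ((n : ℚ) + 2) * M 3 3 n = T 3 3 (n + 1) + T 3 3 n := by
  rw [T_eq (n + 1) (n + 3) (by omega), T_eq n (n + 2) (by omega), M_eq n (n + 2) (by omega)]
  have hd : ∑ j ∈ range (n + 3), ((n + 1).choose (2 * j) : ℚ) * ((2 * j).choose j : ℚ) * (1 / 3) ^ j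
      = ∑ j ∈ range (n + 2), (n.choose (2 * j) : ℚ) * ((2 * j).choose j : ℚ) * (1 / 3) ^ j
       + ∑ j ∈ range (n + 2), (n.choose (2 * j + 1) : ℚ) * ((2 * (j + 1)).choose (j + 1) : ℚ) * (1 / 3) ^ (j + 1) := by
    have e : ∑ j ∈ range (n + 2), (n.choose (2 * j) : ℚ) * ((2 * j).choose j : ℚ) * (1 / 3) ^ j =
       ∑ j ∈ range (n + 3), (n.choose (2 * j) : ℚ) * ((2 * j).choose j : ℚ) * (1 / 3) ^ j := by
      rw [sum_range_succ _ (n + 2), Nat.choose_eq_zero_of_lt (show n < 2 * (n + 2) by omega)]; simp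
    rw [e, sum_range_succ' _ (n + 2), sum_range_succ' _ (n + 2), add_right_comm, ← sum_add_distrib]
    congr 1
    swap
    · simp
    apply sum_congr rfl
    intro j _
    have : (n + 1).choose (2 * (j + 1)) = n.choose (2 * j + 1) + n.choose (2 * (j + 1)) := by
      rw [show 2 * (j + 1) = (2 * j + 1) + 1 by ring, Nat.choose_succ_succ' n]
    rw [this]; push_cast; ring
  rw [hd]
  have key : ∑ j ∈ range (n + 2), 2 * ((n:ℚ) + 2) * (n.choose (2 * j) * catalan j) * (1 / 3) ^ j 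
     = ∑ j ∈ range (n + 2), ((n.choose (2 * j + 1) : ℚ) * (2 * (j + 1)).choose (j + 1) + 4 * (n.choose (2 * j) * (2 * j).choose j)) * (1 / 3) ^ j := by
    apply sum_congr rfl; intro j _; rw [coeff_M]
  have k1 : ∑ j ∈ range (n + 2), 2 * ((n:ℚ) + 2) * (n.choose (2 * j) * catalan j) * (1 / 3) ^ j = 
      2 * ((n:ℚ) + 2) * ∑ j ∈ range (n + 2), (n.choose (2 * j) : ℚ) * (catalan j : ℚ) * (1 / 3) ^ j := by
    rw [mul_sum]; apply sum_congr rfl; intro j _; ring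
  have k2 : ∑ j ∈ range (n + 2), ((n.choose (2 * j + 1) : ℚ) * (2 * (j + 1)).choose (j + 1) + 4 * (n.choose (2 * j) * (2 * j).choose j)) * (1 / 3) ^ j
     = 3 * ∑ j ∈ range (n + 2), (n.choose (2 * j + 1) : ℚ) * ((2 * (j + 1)).choose (j + 1) : ℚ) * (1 / 3) ^ (j + 1)
      + 4 * ∑ j ∈ range (n + 2), (n.choose (2 * j) : ℚ) * ((2 * j).choose j : ℚ) * (1 / 3) ^ j := by
    rw [mul_sum, mul_sum, ← sum_add_distrib]
    apply sum_congr rfl; intro j _; ring
  rw [k1, k2] at key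
  have h1 : (3:ℚ) ^ (n + 1) = 3 * 3 ^ n := by ring
  rw [h1]
  linear_combination (3 ^ n) * key

/-- the sum of the problem -/
def S (p : ℕ) : ℚ := ∑ k ∈ range p, ((-3 : ℚ) ^ k)⁻¹ * (T 3 3 k : ℚ) * (M 3 3 k : ℚ)

theorem closed_form (n : ℕ) :
    2 * (-3 : ℚ) ^ (n + 1) * S (n + 1) = (n + 1) * ((T 3 3 (n + 1) : ℚ) ^ 2 - T 3 3 (n + 2) * T 3 3 n) := by
  induction n with
  | zero =>
    simp [S, T, M, Finset.sum_range_succ]
    norm_num [Nat.choose]
  | succ n ih =>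
    have hS : S (n + 2) = S (n + 1) + ((-3 : ℚ) ^ (n + 1))⁻¹ * (T 3 3 (n + 1) : ℚ) * (M 3 3 (n + 1) : ℚ) := by
      unfold S; rw [sum_range_succ]
    have hne : (-3 : ℚ) ^ (n + 1) ≠ 0 := by positivity
    have h1 : 2 * (-3 : ℚ) ^ (n + 2) * S (n + 2) = -3 * (2 * (-3 : ℚ) ^ (n + 1) * S (n + 1)) - 6 * (T 3 3 (n + 1) : ℚ) * (M 3 3 (n + 1) : ℚ) := by
      rw [hS]; field_simp; ring
    have hM := M_rel (n + 1)
    have hT1 := T_rec n
    have hT2 := T_rec (n + 1)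
    push_cast at hM hT1 hT2 ⊢
    rw [show n + 1 + 1 = n + 2 by ring, h1, ih]
    rw [show n + 1 + 1 = n + 2 by ring, show n + 1 + 2 = n + 3 by ring] at *
    set t0 : ℚ := (T 3 3 n : ℚ)
    set t1 : ℚ := (T 3 3 (n + 1) : ℚ)
    set t2 : ℚ := (T 3 3 (n + 2) : ℚ)
    set t3 : ℚ := (T 3 3 (n + 3) : ℚ)
    set m : ℚ := (M 3 3 (n + 1) : ℚ)
    have hn3 : (n:ℚ) + 3 ≠ 0 := by positivity
    have hm : m = (t2 + t1) / (2 * (n + 3)) := by field_simp; linarith
    have ht3 : t3 = (3 * (2 * (n + 1) + 3) * t2 + 3 * (n + 1 + 1) * t1) / (n + 3) := by field_simp; linarith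
    have ht0 : 3 * ((n:ℚ) + 1) * t0 = (n + 2) * t2 - 3 * (2 * n + 3) * t1 := by linarith
    rw [hm, ht3]
    field_simp
    linear_combination (2 * t2 * (n + 3)) * ht0
  
end Pool.Agent.H55.SunTM
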