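import Mathlib
import Pool.Agent.H55.SunTM

set_option autoImplicit false

namespace Pool.Agent.H55.SunTM

open Finset Polynomial

variable {R : Type*} [CommRing R]

lemma coeff_even_pow (c : R) (m i : ℕ) :
    ((X ^ 2 + C c) ^ m).coeff i = if i % 2 = 0 ∧ i / 2 ≤ m then (m.choose (i / 2) : R) * c ^ (m - i / 2) else 0 := by
  rw [add_pow, finsetSum_coeff]
  have : ∀ k ∈ range (m + 1), (((X ^ 2 : R[X]) ^ k * C c ^ (m - k) * (m.choose k : R[X])).coeff i)
      = if i = 2 * k then (m.choose k : R) * c ^ (m - k) else 0 := by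
    intro k _
    rw [← pow_mul, ← C_pow, mul_assoc, ← C_eq_natCast, ← C_mul, coeff_mul_C, coeff_X_pow]
    split_ifs
    · ring
    · ring
  rw [sum_congr rfl this]
  by_cases h : i % 2 = 0 ∧ i / 2 ≤ m
  · rw [if_pos h, sum_eq_single (i / 2)]
    · rw [if_pos (by omega)]
    · intro k _ hk; rw [if_neg (by omega)]
    · intro h2; exfalso; apply h2; rw [mem_range]; omega
  · rw [if_neg h]
    apply sum_eq_zero
    intro k hk
    rw [mem_range] at hk
    rw [if_neg]
    intro h3; apply h; omega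

lemma rep0 (b c : ℤ) (n : ℕ) :
    (T b c n : R) = ((X ^ 2 + C (b : R) * X + C (c : R)) ^ n).coeff n := by
  have h1 : (X ^ 2 + C (b : R) * X + C (c : R)) = (X ^ 2 + C (c : R)) + C (b : R) * X := by ring
  rw [h1, add_pow, finsetSum_coeff]
  have : ∀ m ∈ range (n + 1), (((X ^ 2 + C (c : R)) ^ m * (C (b : R) * X) ^ (n - m) * (n.choose m : R[X])).coeff n)
      = if m % 2 = 0 then (n.choose m : R) * ((m.choose (m / 2) : R) * c ^ (m / 2)) * b ^ (n - m) else 0 := by
    intro m hm
    rw [mem_range] at hm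
    rw [mul_pow, ← C_pow, ← C_eq_natCast, coeff_mul_C,
      show (X ^ 2 + C (c : R)) ^ m * (C ((b : R) ^ (n - m)) * X ^ (n - m)) = ((X ^ 2 + C (c : R)) ^ m * C ((b : R) ^ (n - m))) * X ^ (n - m) by ring,
      coeff_mul_X_pow', if_pos (by omega), coeff_mul_C, coeff_even_pow, show n - (n - m) = m by omega]
    by_cases h : m % 2 = 0
    · rw [if_pos ⟨h, by omega⟩, if_pos h, show m - m / 2 = m / 2 by omega]; ring
    · rw [if_neg (fun h2 => h h2.1), if_neg h]; ring
  rw [sum_congr rfl this, ← sum_filter]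
  unfold T
  push_cast
  symm
  apply sum_nbij' (fun m => m / 2) (fun j => 2 * j)
  · intro m hm; simp only [mem_filter, mem_range] at *; omega
  · intro j hj; simp only [mem_filter, mem_range] at *; omega
  · intro m hm; simp only [mem_filter, mem_range] at *; omega
  · intro j hj; simp
  · intro m hm
    simp only [mem_filter, mem_range] at hm
    rw [show 2 * (m / 2) = m by omega]; ring

lemma rep1 (u v : R) (n : ℕ) : (((X + C u) * (X + C v)) ^ n).coeff n =
    ∑ k ∈ range (n + 1), (n.choose k : R) ^ 2 * u ^ k * v ^ (n - k) := by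
  rw [mul_pow, coeff_mul, Nat.sum_antidiagonal_eq_sum_range_succ_mk, ← sum_range_reflect]
  apply sum_congr rfl
  intro k hk
  rw [mem_range] at hk
  simp only [coeff_X_add_C_pow]
  rw [show n + 1 - 1 - k = n - k by omega, show n - (n - k) = k by omega, Nat.choose_symm (by omega)]
  ring

lemma rep2 (u v : R) (n : ℕ) : (((X + C u) * (X + C v)) ^ n).coeff n =
    ∑ k ∈ range (n + 1), (n.choose k : R) * ((n + k).choose k : R) * u ^ k * (v - u) ^ (n - k) := by
  have h1 : (X + C v : R[X]) = (X + C u) + C (v - u) := by rw [C_sub]; ring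
  rw [mul_pow]
  rw [h1]
  rw [add_pow (X + C u) (C (v - u)) n, mul_sum, finsetSum_coeff]
  apply sum_congr rfl
  intro k hk
  rw [mem_range] at hk
  rw [show (X + C u) ^ n * ((X + C u) ^ k * C (v - u) ^ (n - k) * (n.choose k : R[X])) =
    (X + C u) ^ (n + k) * (C ((v - u) ^ (n - k) * (n.choose k : R))) by
      rw [C_mul, C_pow, C_eq_natCast, pow_add]; ring, coeff_mul_C, coeff_X_add_C_pow,
      show n + k - n = k by omega, Nat.choose_symm_add]
  ring

section omega

variable {w : R} (hw : w ^ 2 + w + 1 = 0)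
include hw

lemma poly_eq : (X ^ 2 + C ((3 : ℤ) : R) * X + C ((3 : ℤ) : R)) = (X + C (2 + w)) * (X + C (1 - w)) := by
  have h3 : (2 + w) * (1 - w) = 3 := by linear_combination -hw
  have : (X + C (2 + w)) * (X + C (1 - w)) = X ^ 2 + C ((2 + w) + (1 - w)) * X + C ((2 + w) * (1 - w)) := by
    simp only [C_add, C_mul, C_sub]; ring
  rw [this, h3]
  congr 2
  · congr 2; push_cast; ring
  · push_cast; rfl

lemma T_rep1 (n : ℕ) : (T 3 3 n : R) = ∑ k ∈ range (n + 1), (n.choose k : R) ^ 2 * (2 + w) ^ k * (1 - w) ^ (n - k) := by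
  rw [rep0, poly_eq hw, rep1]

lemma T_rep2 (n : ℕ) : (T 3 3 n : R) = (-(1 + 2 * w)) ^ n * ∑ k ∈ range (n + 1), (n.choose k : R) * ((n + k).choose k : R) * w ^ k := by
  rw [rep0, poly_eq hw, rep2, mul_sum]
  apply sum_congr rfl
  intro k hk
  rw [mem_range] at hk
  have h1 : (1 - w) - (2 + w) = -(1 + 2 * w) := by ring
  have h2 : (2 + w) = w * (-(1 + 2 * w)) := by linear_combination 2 * hw
  rw [h1, h2, mul_pow]
  rw [show (-(1 + 2 * w)) ^ n = (-(1 + 2 * w)) ^ k * (-(1 + 2 * w)) ^ (n - k) by rw [← pow_add]; congr 1; omega]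
  ring

end omega

end Pool.Agent.H55.SunTM
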