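import Mathlib
import Pool.Agent.H55.SunRep

set_option autoImplicit false

namespace Pool.Agent.H55.SunTM

open Finset

section

variable {R : Type*} [CommRing R] {p : ℕ} {I : ℕ → R}

lemma p3_zero_of {R : Type*} [CommRing R] {p : ℕ} (hR : (p : R) ^ 3 = 0) {a : ℕ} (h : p ∣ a) : (p : R) ^ 2 * (a : R) = 0 := by
  obtain ⟨b, rfl⟩ := h
  push_cast
  linear_combination (b : R) * hR

/-- `p * C(p-1,k) * C(p-1+k,k-1) = p (-1)^k (1 - p/k)` for `k = j+1` -/
lemma c_lem (hp : p.Prime) (hR : (p : R) ^ 3 = 0) (hI : ∀ k, 1 ≤ k → k < p → (k : R) * I k = 1)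
    (j : ℕ) (hj : j + 1 < p) :
    (p : R) * ((p - 1).choose (j + 1) * (p + j).choose j) = p * (-1) ^ (j + 1) * (1 - p * I (j + 1)) := by
  induction j with
  | zero =>
    have h1 := hI 1 le_rfl hp.one_lt
    have hp1 : ((p - 1 : ℕ) : R) = p - 1 := by rw [Nat.cast_sub hp.one_lt.le]; simp
    simp only [zero_add, Nat.choose_one_right, add_zero, Nat.choose_zero_right, hp1]
    simp only [Nat.cast_one, one_mul] at h1
    rw [h1]; push_cast; ring
  | succ j ih =>
    have ih := ih (by omega)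
    have h1 := hI (j + 1) (by omega) (by omega)
    have h2 := hI (j + 2) (by omega) (by omega)
    have e1 : ((p - 1).choose (j + 2) : R) * (j + 2) = (p - 1).choose (j + 1) * (p - (j + 2)) := by
      have := Nat.choose_succ_right_eq (p - 1) (j + 1)
      have h : (((p - 1).choose (j + 2) * (j + 2) : ℕ) : R) = (((p - 1).choose (j + 1) * (p - (j + 2)) : ℕ) : R) := by
        rw [show p - (j + 2) = p - 1 - (j + 1) by omega]
        exact_mod_cast congrArg (Nat.cast : ℕ → R) this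
      push_cast [Nat.cast_sub (show j + 2 ≤ p by omega)] at h
      exact h
    have e2 : ((p + (j + 1)).choose (j + 1) : R) * (j + 1) = (p + j).choose j * (p + j + 1) := by
      have := Nat.add_one_mul_choose_eq (p + j) j
      have h : (((p + j + 1) * (p + j).choose j : ℕ) : R) = (((p + j + 1).choose (j + 1) * (j + 1) : ℕ) : R) := by
        exact_mod_cast congrArg (Nat.cast : ℕ → R) this
      push_cast at h
      rw [show p + (j + 1) = (p + j) + 1 by ring]
      linear_combination -h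
    push_cast at h1 h2 ⊢
    rw [show j + 1 + 1 = j + 2 by ring]
    have key : (p : R) * ((p - 1).choose (j + 2) * (p + (j + 1)).choose (j + 1)) * ((j + 1) * (j + 2)) =
        (p * ((p - 1).choose (j + 1) * (p + j).choose j)) * ((p - (j + 2)) * (p + j + 1)) := by
      linear_combination (p : R) * ((p + (j + 1)).choose (j + 1) : R) * (j + 1) * e1 + (p : R) * ((p - 1).choose (j + 1) * (p - (j + 2))) * e2
    rw [ih] at key
    set A := I (j + 1)
    set B := I (j + 2)
    set c := ((p - 1).choose (j + 2) : R) * ((p + (j + 1)).choose (j + 1) : R)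
    -- multiply key by A * B
    have k2 : (p : R) * c = (p * (-1) ^ (j + 1) * (1 - p * A)) * ((p - (j + 2)) * (p + j + 1)) * (A * B) := by
      have : (p : R) * c = (p : R) * c * ((j + 1) * (j + 2)) * (A * B) := by
        linear_combination (-(p : R) * c * (((j + 1) * A) * 1)) * h2 - (p : R) * c * h1
      rw [this, key]
    rw [k2]
    have hs : (-1 : R) ^ (j + 2) = - (-1) ^ (j + 1) := by ring
    rw [hs]
    -- now use A (j+1) = 1, B (j+2) = 1, p^3 = 0
    have hA : A = B + A * B := by linear_combination (-A) * h2 + B * h1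
    set e := (-1 : R) ^ (j + 1)
    linear_combination e * (A * B - p * A ^ 2 * B + A ^ 2 * B) * hR + (p : R) ^ 2 * e * hA - p * e * (1 - p * A) * ((j + 2) * B * h1 + h2)

/-- `p * C(p-1,k-1) * C(p+k,k) = p (-1)^(k-1) (1 + p/k)` for `k = j+1` -/
lemma d_lem (hp : p.Prime) (hR : (p : R) ^ 3 = 0) (hI : ∀ k, 1 ≤ k → k < p → (k : R) * I k = 1)
    (j : ℕ) (hj : j + 1 < p) :
    (p : R) * ((p - 1).choose j * (p + (j + 1)).choose (j + 1)) = p * (-1) ^ j * (1 + p * I (j + 1)) := by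
  induction j with
  | zero =>
    have h1 := hI 1 le_rfl hp.one_lt
    simp only [zero_add, Nat.choose_zero_right, Nat.choose_one_right]
    simp only [Nat.cast_one, one_mul] at h1
    rw [h1]; push_cast; ring
  | succ j ih =>
    have ih := ih (by omega)
    have h1 := hI (j + 1) (by omega) (by omega)
    have h2 := hI (j + 2) (by omega) (by omega)
    have e1 : ((p - 1).choose (j + 1) : R) * (j + 1) = (p - 1).choose j * (p - (j + 1)) := by
      have := Nat.choose_succ_right_eq (p - 1) j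
      have h : (((p - 1).choose (j + 1) * (j + 1) : ℕ) : R) = (((p - 1).choose j * (p - (j + 1)) : ℕ) : R) := by
        rw [show p - (j + 1) = p - 1 - j by omega]
        exact_mod_cast congrArg (Nat.cast : ℕ → R) this
      push_cast [Nat.cast_sub (show j + 1 ≤ p by omega)] at h
      exact h
    have e2 : ((p + (j + 1) + 1).choose (j + 1 + 1) : R) * (j + 2) = (p + (j + 1)).choose (j + 1) * (p + j + 2) := by
      have := Nat.add_one_mul_choose_eq (p + (j + 1)) (j + 1)
      have h : (((p + (j + 1) + 1) * (p + (j + 1)).choose (j + 1) : ℕ) : R) = (((p + (j + 1) + 1).choose (j + 1 + 1) * (j + 1 + 1) : ℕ) : R) := by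
        exact_mod_cast congrArg (Nat.cast : ℕ → R) this
      push_cast at h
      linear_combination -h
    push_cast at h1 h2 ⊢
    rw [show j + 1 + 1 = j + 2 by ring, show p + (j + 2) = p + (j + 1) + 1 by ring]
    rw [show j + 1 + 1 = j + 2 by ring] at e2
    have key : (p : R) * ((p - 1).choose (j + 1) * (p + (j + 1) + 1).choose (j + 2)) * ((j + 1) * (j + 2)) =
        (p * ((p - 1).choose j * (p + (j + 1)).choose (j + 1))) * ((p - (j + 1)) * (p + j + 2)) := by
      linear_combination (p : R) * ((p + (j + 1) + 1).choose (j + 2) : R) * (j + 2) * e1 + (p : R) * ((p - 1).choose j * (p - (j + 1))) * e2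
    rw [ih] at key
    set A := I (j + 1)
    set B := I (j + 2)
    set c := ((p - 1).choose (j + 1) : R) * ((p + (j + 1) + 1).choose (j + 2) : R)
    have k2 : (p : R) * c = (p * (-1) ^ j * (1 + p * A)) * ((p - (j + 1)) * (p + j + 2)) * (A * B) := by
      have : (p : R) * c = (p : R) * c * ((j + 1) * (j + 2)) * (A * B) := by
        linear_combination (-(p : R) * c * (((j + 1) * A) * 1)) * h2 - (p : R) * c * h1
      rw [this, key]
    rw [k2]
    have hs : (-1 : R) ^ (j + 1) = - (-1) ^ j := by ring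
    rw [hs]
    have hA : A = B + A * B := by linear_combination (-A) * h2 + B * h1
    set e := (-1 : R) ^ j
    linear_combination e * (A * B + p * A ^ 2 * B + A ^ 2 * B) * hR - (p : R) ^ 2 * e * hA - p * e * (1 + p * A) * ((j + 2) * B * h1 + h2)

/-- `p² C(p-1,j) = p² (-1)^j` -/
lemma e_lem (hp : p.Prime) (hR : (p : R) ^ 3 = 0) (j : ℕ) (hj : j < p) :
    (p : R) ^ 2 * ((p - 1).choose j : R) = p ^ 2 * (-1) ^ j := by
  induction j with
  | zero => simp
  | succ j ih =>
    have ih := ih (by omega)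
    have h1 : (p - 1).choose j + (p - 1).choose (j + 1) = p.choose (j + 1) := by
      conv_rhs => rw [show p = (p - 1) + 1 by have := hp.pos; omega]
      rw [Nat.choose_succ_succ']
    have h2 := p3_zero_of hR (hp.dvd_choose_self (k := j + 1) (by omega) (by omega))
    rw [← h1] at h2
    push_cast at h2
    rw [pow_succ]
    linear_combination h2 - ih

lemma choose_p (hI : ∀ k, 1 ≤ k → k < p → (k : R) * I k = 1) (j : ℕ) (hj : j + 1 < p) :
    (p.choose (j + 1) : R) = I (j + 1) * p * ((p - 1).choose j : R) := by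
  have h := Nat.add_one_mul_choose_eq (p - 1) j
  rw [show p - 1 + 1 = p by omega] at h
  have h' : ((p * (p - 1).choose j : ℕ) : R) = ((p.choose (j + 1) * (j + 1) : ℕ) : R) := by
    exact_mod_cast congrArg (Nat.cast : ℕ → R) h
  have h1 := hI (j + 1) (by omega) hj
  push_cast at h' h1
  linear_combination (-(p.choose (j + 1) : R)) * h1 - I (j + 1) * h'

lemma choose_sq (hp : p.Prime) (hR : (p : R) ^ 3 = 0) (hI : ∀ k, 1 ≤ k → k < p → (k : R) * I k = 1)
    (k : ℕ) (hk1 : 1 ≤ k) (hk : k < p) : (p.choose k : R) ^ 2 = p ^ 2 * I k ^ 2 := by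
  obtain ⟨j, rfl⟩ : ∃ j, k = j + 1 := ⟨k - 1, by omega⟩
  rw [choose_p hI j hk]
  have h := e_lem (R := R) hp hR j (by omega)
  have h2 : ((-1 : R) ^ j) ^ 2 = 1 := by rw [← pow_mul, mul_comm, pow_mul]; simp
  linear_combination (I (j + 1) ^ 2 * ((p - 1).choose j : R)) * h + I (j + 1) ^ 2 * (-1) ^ j * h + I (j + 1) ^ 2 * p ^ 2 * h2

lemma ab_a (hp : p.Prime) (hR : (p : R) ^ 3 = 0) (hI : ∀ k, 1 ≤ k → k < p → (k : R) * I k = 1)
    (k : ℕ) (hk1 : 1 ≤ k) (hk : k < p) :
    ((p - 1).choose k : R) * ((p - 1 + k).choose k : R) = (-1) ^ k * (p * I k - p ^ 2 * I k ^ 2) := by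
  obtain ⟨j, rfl⟩ : ∃ j, k = j + 1 := ⟨k - 1, by omega⟩
  have h := c_lem hp hR hI j hk
  have h1 := hI (j + 1) (by omega) hk
  have e : ((p - 1 + (j + 1)).choose (j + 1) : R) * (j + 1) = (p + j).choose j * p := by
    have := Nat.choose_succ_right_eq (p + j) j
    rw [show p + j - j = p by omega] at this
    rw [show p - 1 + (j + 1) = p + j by omega]
    exact_mod_cast congrArg (Nat.cast : ℕ → R) this
  push_cast at h1
  set x := ((p - 1).choose (j + 1) : R)
  set y := ((p - 1 + (j + 1)).choose (j + 1) : R)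
  set z := ((p + j).choose j : R)
  linear_combination (-x * y) * h1 + (x * I (j + 1)) * e + I (j + 1) * h

lemma ab_b (hp : p.Prime) (hR : (p : R) ^ 3 = 0) (hI : ∀ k, 1 ≤ k → k < p → (k : R) * I k = 1)
    (k : ℕ) (hk1 : 1 ≤ k) (hk : k < p) :
    (p.choose k : R) * ((p + k).choose k : R) = -((-1) ^ k * (p * I k + p ^ 2 * I k ^ 2)) := by
  obtain ⟨j, rfl⟩ : ∃ j, k = j + 1 := ⟨k - 1, by omega⟩
  have h := d_lem hp hR hI j hk
  rw [choose_p hI j hk]
  linear_combination I (j + 1) * h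

/-- `p² ∑ 1/k² = 0` -/
lemma sum_inv_sq (hp : p.Prime) (hp3 : 3 < p) (hR : (p : R) ^ 3 = 0) (hI : ∀ k, 1 ≤ k → k < p → (k : R) * I k = 1) :
    (p : R) ^ 2 * ∑ k ∈ Ico 1 p, I k ^ 2 = 0 := by
  have := Fact.mk hp
  have hz : (∑ k ∈ range p, (k : ZMod p) ^ (p - 3)) = 0 := by
    have h := FiniteField.sum_pow_lt_card_sub_one (ZMod p) (p - 3) (by rw [ZMod.card]; omega)
    rw [← h]
    apply sum_nbij' (fun k : ℕ => (k : ZMod p)) (fun x : ZMod p => ZMod.val x)
    · intro k _; simp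
    · intro x _; simp only [mem_range]; exact ZMod.val_lt x
    · intro k hk; rw [mem_range] at hk; exact ZMod.val_cast_of_lt hk
    · intro x _; exact ZMod.natCast_zmod_val x
    · intro k _; rfl
  have hd : p ∣ ∑ k ∈ range p, k ^ (p - 3) := by
    rw [← ZMod.natCast_eq_zero_iff]; push_cast; exact hz
  have h2 := p3_zero_of hR hd
  rw [range_eq_Ico, sum_eq_sum_Ico_succ_bot hp.pos] at h2
  rw [zero_pow (by omega), zero_add] at h2
  rw [← h2]
  push_cast
  rw [mul_sum, mul_sum]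
  apply sum_congr rfl
  intro k hk
  rw [mem_Ico] at hk
  have hk1 := hI k hk.1 hk.2
  have hfer : p ∣ k ^ (p - 1) - 1 := by
    have h3 : (k : ZMod p) ^ (p - 1) = 1 := by
      apply ZMod.pow_card_sub_one_eq_one
      rw [Ne, ZMod.natCast_eq_zero_iff]
      exact fun h => by have := Nat.le_of_dvd (by omega) h; omega
    rw [← Nat.modEq_iff_dvd' (Nat.one_le_pow _ _ (by omega))]
    rw [← ZMod.natCast_eq_natCast_iff]
    push_cast
    exact h3.symm
  have h4 := p3_zero_of hR hfer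
  rw [Nat.cast_sub (Nat.one_le_pow _ _ (by omega))] at h4
  push_cast at h4
  have h5 : (k : R) ^ (p - 1) = k ^ (p - 3) * k ^ 2 := by rw [← pow_add]; congr 1; omega
  rw [h5] at h4
  linear_combination (-(I k) ^ 2) * h4 + (p : R) ^ 2 * (k : R) ^ (p - 3) * ((k * I k) + 1) * hk1

lemma central (hp : p.Prime) (hp3 : 3 < p) (hR : (p : R) ^ 3 = 0) (hI : ∀ k, 1 ≤ k → k < p → (k : R) * I k = 1) :
    ((p + p).choose p : R) = 2 := by
  have h := Nat.sum_range_choose_sq p
  rw [two_mul] at h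
  rw [← h]
  push_cast
  rw [sum_range_succ, range_eq_Ico, sum_eq_sum_Ico_succ_bot hp.pos, sum_congr rfl (fun k hk => choose_sq hp hR hI k (mem_Ico.1 hk).1 (mem_Ico.1 hk).2), ← mul_sum, sum_inv_sq hp hp3 hR hI]
  simp
  norm_num

/-- reflection `k ↦ p - k` -/
lemma inv_reflect (hR : (p : R) ^ 3 = 0) (hI : ∀ k, 1 ≤ k → k < p → (k : R) * I k = 1)
    (k : ℕ) (hk1 : 1 ≤ k) (hk : k < p) : (p : R) ^ 2 * I (p - k) = - (p ^ 2 * I k) := by
  have h1 := hI k hk1 hk
  have h2 := hI (p - k) (by omega) (by omega)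
  rw [Nat.cast_sub hk.le] at h2
  linear_combination (-(p : R) ^ 2 * I (p - k)) * h1 - (p : R) ^ 2 * I k * h2 + I k * I (p - k) * hR

lemma inv_reflect_sq (hR : (p : R) ^ 3 = 0) (hI : ∀ k, 1 ≤ k → k < p → (k : R) * I k = 1)
    (k : ℕ) (hk1 : 1 ≤ k) (hk : k < p) : (p : R) ^ 2 * I (p - k) ^ 2 = p ^ 2 * I k ^ 2 := by
  have h := inv_reflect hR hI k hk1 hk
  linear_combination (I (p - k) - I k) * h

end

section omega

variable {R : Type*} [CommRing R] {p : ℕ} {I : ℕ → R} {w : R}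

/-- `∑ (-w)^k / k` -/
def s1 (p : ℕ) (I : ℕ → R) (w : R) : R := ∑ k ∈ Ico 1 p, (-w) ^ k * I k
/-- `∑ (-w)^k / k²` -/
def s2 (p : ℕ) (I : ℕ → R) (w : R) : R := ∑ k ∈ Ico 1 p, (-w) ^ k * I k ^ 2

lemma Tpm1 (hw : w ^ 2 + w + 1 = 0) (hp : p.Prime) (hR : (p : R) ^ 3 = 0) (hI : ∀ k, 1 ≤ k → k < p → (k : R) * I k = 1) :
    (T 3 3 (p - 1) : R) = (-(1 + 2 * w)) ^ (p - 1) * (1 + p * s1 p I w - p ^ 2 * s2 p I w) := by
  rw [T_rep2 hw]
  congr 1
  rw [show p - 1 + 1 = p by have := hp.pos; omega, range_eq_Ico, sum_eq_sum_Ico_succ_bot hp.pos]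
  have : ∀ k ∈ Ico (0 + 1) p, ((p - 1).choose k : R) * ((p - 1 + k).choose k : R) * w ^ k =
      p * ((-w) ^ k * I k) - p ^ 2 * ((-w) ^ k * I k ^ 2) := by
    intro k hk
    rw [mem_Ico] at hk
    rw [ab_a hp hR hI k (by omega) hk.2, neg_pow w k]
    ring
  rw [sum_congr rfl this, sum_sub_distrib, ← mul_sum, ← mul_sum]
  unfold s1 s2
  simp
  ring

lemma Tp2 (hw : w ^ 2 + w + 1 = 0) (hp : p.Prime) (hp3 : 3 < p) (hR : (p : R) ^ 3 = 0) (hI : ∀ k, 1 ≤ k → k < p → (k : R) * I k = 1) :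
    (T 3 3 p : R) = (-(1 + 2 * w)) ^ p * (1 - p * s1 p I w - p ^ 2 * s2 p I w + 2 * w ^ p) := by
  rw [T_rep2 hw]
  congr 1
  rw [sum_range_succ, range_eq_Ico, sum_eq_sum_Ico_succ_bot hp.pos, central hp hp3 hR hI]
  have : ∀ k ∈ Ico (0 + 1) p, (p.choose k : R) * ((p + k).choose k : R) * w ^ k =
      -(p * ((-w) ^ k * I k) + p ^ 2 * ((-w) ^ k * I k ^ 2)) := by
    intro k hk
    rw [mem_Ico] at hk
    rw [ab_b hp hR hI k (by omega) hk.2, neg_pow w k]
    ring
  rw [sum_congr rfl this, sum_neg_distrib, sum_add_distrib, ← mul_sum, ← mul_sum]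
  unfold s1 s2
  simp
  ring

lemma Tp1 (hw : w ^ 2 + w + 1 = 0) (hp : p.Prime) (hp3 : 3 < p) (hR : (p : R) ^ 3 = 0) (hI : ∀ k, 1 ≤ k → k < p → (k : R) * I k = 1) :
    (T 3 3 p : R) = (2 + w) ^ p * (1 - w ^ p + p ^ 2 * s2 p I w) := by
  rw [T_rep1 hw]
  rw [sum_range_succ, range_eq_Ico, sum_eq_sum_Ico_succ_bot hp.pos]
  have hv : (1 - w) = (-w) * (2 + w) := by linear_combination hw
  have hodd : (-w) ^ p = - w ^ p := (hp.odd_of_ne_two (by omega)).neg_pow w
  have : ∀ k ∈ Ico (0 + 1) p, (p.choose k : R) ^ 2 * (2 + w) ^ k * (1 - w) ^ (p - k) =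
      (2 + w) ^ p * (p ^ 2 * I k ^ 2 * (-w) ^ (p - k)) := by
    intro k hk
    rw [mem_Ico] at hk
    rw [choose_sq hp hR hI k (by omega) hk.2, hv, mul_pow]
    rw [show (2 + w) ^ p = (2 + w) ^ k * (2 + w) ^ (p - k) by rw [← pow_add]; congr 1; omega]
    ring
  rw [sum_congr rfl this, ← mul_sum]
  have h2 : ∑ k ∈ Ico (0 + 1) p, (p : R) ^ 2 * I k ^ 2 * (-w) ^ (p - k) = p ^ 2 * s2 p I w := by
    unfold s2
    rw [mul_sum]
    apply sum_nbij' (fun k => p - k) (fun k => p - k)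
    · intro k hk; rw [mem_Ico] at *; omega
    · intro k hk; rw [mem_Ico] at *; omega
    · intro k hk; rw [mem_Ico] at *; omega
    · intro k hk; rw [mem_Ico] at *; omega
    · intro k hk
      rw [mem_Ico] at hk
      have := inv_reflect_sq hR hI k (by omega) hk.2
      linear_combination (-(-w) ^ (p - k)) * this
  rw [h2]
  simp only [Nat.choose_zero_right, Nat.cast_one, one_pow, one_mul, pow_zero, tsub_zero, Nat.choose_self, tsub_self, mul_one]
  rw [hv, mul_pow, hodd]
  ring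

/-- Comparison of the two expansions of `T_p`. -/
lemma compare (hw : w ^ 2 + w + 1 = 0) (hp : p.Prime) (hp3 : 3 < p) (hR : (p : R) ^ 3 = 0) (hI : ∀ k, 1 ≤ k → k < p → (k : R) * I k = 1) :
    1 - w ^ p + p ^ 2 * s2 p I w = w ^ (2 * p) * (1 - p * s1 p I w - p ^ 2 * s2 p I w + 2 * w ^ p) := by
  have h1 := Tp1 hw hp hp3 hR hI
  have h2 := Tp2 hw hp hp3 hR hI
  rw [h1] at h2
  have hx : -(1 + 2 * w) = w ^ 2 * (2 + w) := by linear_combination (-1 - w) * hw
  rw [hx, mul_pow, ← pow_mul] at h2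
  have hu : IsUnit (2 + w) := by
    have h3 := hI 3 (by omega) hp3
    push_cast at h3
    refine IsUnit.of_mul_eq_one ((1 - w) * I 3) ?_
    linear_combination (-I 3) * hw + h3
  have hup : IsUnit ((2 + w) ^ p) := hu.pow p
  apply hup.mul_left_cancel
  rw [h2]; ring

end omega

end Pool.Agent.H55.SunTM
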