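import Mathlib
import Pool.Agent.H55.SunExp

set_option autoImplicit false

namespace Pool.Agent.H55.SunTM

open Finset

section

variable {R : Type*} [CommRing R] {p : ℕ} {I : ℕ → R} {w : R}

lemma w3 (hw : w ^ 2 + w + 1 = 0) : w ^ 3 = 1 := by linear_combination (w - 1) * hw

lemma w_pow_mod (hw : w ^ 2 + w + 1 = 0) (n : ℕ) : w ^ n = w ^ (n % 3) := by
  conv_lhs => rw [← Nat.div_add_mod n 3, pow_add, pow_mul, w3 hw, one_pow, one_mul]

lemma T_rec_int (n : ℕ) : ((n : ℤ) + 2) * T 3 3 (n + 2) = 3 * (2 * n + 3) * T 3 3 (n + 1) + 3 * (n + 1) * T 3 3 n := by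
  have := T_rec n
  exact_mod_cast this

lemma T_rec_R (hp : p.Prime) : ((p : R) + 1) * (T 3 3 (p + 1) : R) = 3 * (2 * p + 1) * T 3 3 p + 3 * p * T 3 3 (p - 1) := by
  obtain ⟨n, rfl⟩ : ∃ n, p = n + 1 := ⟨p - 1, by have := hp.pos; omega⟩
  have := congrArg (Int.cast : ℤ → R) (T_rec_int n)
  push_cast at this
  rw [show n + 1 + 1 = n + 2 by ring, show n + 1 - 1 = n by omega]
  push_cast
  linear_combination this

lemma U_sq (hw : w ^ 2 + w + 1 = 0) (n : ℕ) : ((2 + w) ^ n) ^ 2 = (-3) ^ n * w ^ (2 * n) := by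
  have h : (2 + w) ^ 2 = -3 * w ^ 2 := by linear_combination 4 * hw
  rw [← pow_mul, mul_comm n 2, pow_mul, h, mul_pow, ← pow_mul]

lemma case2 (hw : w ^ 2 + w + 1 = 0) (hp : p.Prime) (hp3 : 3 < p) (hR : (p : R) ^ 3 = 0)
    (hI : ∀ k, 1 ≤ k → k < p → (k : R) * I k = 1) (hmod : p % 3 = 2) :
    ((T 3 3 p : R) ^ 2 - (T 3 3 (p + 1) : R) * (T 3 3 (p - 1) : R)) = 2 * (-3) ^ p * (p ^ 2 - p - 3) := by
  have hc := compare hw hp hp3 hR hI
  have hTp := Tp1 hw hp hp3 hR hI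
  have hTm := Tpm1 hw hp hR hI
  have hrec := T_rec_R (R := R) hp
  have e1 : w ^ p = w ^ 2 := by rw [w_pow_mod hw, hmod]
  have e2 : w ^ (2 * p) = w := by rw [w_pow_mod hw, show 2 * p % 3 = 1 by omega, pow_one]
  have e3 : w ^ (2 * (p - 1)) = w ^ 2 := by rw [w_pow_mod hw, show 2 * (p - 1) % 3 = 2 by omega]
  have hs2 : ((p : R) ^ 2 * s2 p I w) ^ 2 = 0 := by linear_combination ((p : R) * s2 p I w ^ 2) * hR
  have hps : (p : R) * ((p : R) ^ 2 * s2 p I w) = 0 := by linear_combination (s2 p I w) * hR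
  rw [e1, e2] at hc
  rw [e1] at hTp
  generalize hs : (p : R) ^ 2 * s2 p I w = s at *
  generalize ht : (p : R) * s1 p I w = t at *
  have ht2 : t = w * s := by linear_combination w ^ 2 * hc + (-(w - 1) * t - w * s + w ^ 2 * (2 * w - 1)) * hw
  have hx : -(1 + 2 * w) = w ^ 2 * (2 + w) := by linear_combination (-1 - w) * hw
  rw [hx, mul_pow, ← pow_mul, e3, ht2] at hTm
  have hpp : (2 + w) ^ p = (2 + w) ^ (p - 1) * (2 + w) := by rw [← pow_succ]; congr 1; have := hp.pos; omega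
  have hQp : (-3 : R) ^ p = (-3) ^ (p - 1) * (-3) := by rw [← pow_succ]; congr 1; have := hp.pos; omega
  have hU := U_sq hw (p - 1)
  rw [e3] at hU
  rw [hpp] at hTp
  rw [hQp]
  generalize (2 + w) ^ (p - 1) = U at *
  generalize (-3 : R) ^ (p - 1) = Q at *
  have hTp' : (T 3 3 p : R) = U * (-3 * w ^ 2 + (2 + w) * s) := by
    rw [hTp]; linear_combination U * (2 - w) * hw
  have hTm' : (T 3 3 (p - 1) : R) = U * (w ^ 2 + (1 - w ^ 2) * s) := by
    rw [hTm]; linear_combination U * (w * s - s) * hw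
  generalize (T 3 3 p : R) = a at *
  generalize (T 3 3 (p - 1) : R) = b at *
  generalize (T 3 3 (p + 1) : R) = c at *
  have hbr : (p + 1) * (-3 * w ^ 2 + (2 + w) * s) ^ 2 - 3 * (2 * p + 1) * (-3 * w ^ 2 + (2 + w) * s) * (w ^ 2 + (1 - w ^ 2) * s)
      - 3 * p * (w ^ 2 + (1 - w ^ 2) * s) ^ 2 = w * (24 * p + 18) := by
    linear_combination ((-3)*w^4*p + 6*w^3*p + 3*w^3 + 19*w^2*p + 7*w^2 + (-2)*w*p + 1*w + (-11)*p + (-2)) * hs2
      + ((-12)*w^4 + (-12)*w^3 + (-12)*w^2) * hps + ((-9)*w^2*s + 24*w^2*p + 18*w^2 + (-24)*w*p + (-18)*w) * hw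
  have hE : (p + 1) * (a ^ 2 - c * b) = Q * (24 * p + 18) := by
    have h1 : (p + 1) * (a ^ 2 - c * b) = (p + 1) * a ^ 2 - 3 * (2 * p + 1) * a * b - 3 * p * b ^ 2 := by
      linear_combination (-b) * hrec
    rw [h1, hTp', hTm']
    have h2 : (p + 1) * (U * (-3 * w ^ 2 + (2 + w) * s)) ^ 2 - 3 * (2 * p + 1) * (U * (-3 * w ^ 2 + (2 + w) * s)) * (U * (w ^ 2 + (1 - w ^ 2) * s))
      - 3 * p * (U * (w ^ 2 + (1 - w ^ 2) * s)) ^ 2 = U ^ 2 * (w * (24 * p + 18)) := by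
      linear_combination U ^ 2 * hbr
    rw [h2, hU]
    linear_combination Q * (24 * p + 18) * (w - 1) * hw
  linear_combination (1 - (p : R) + p ^ 2) * hE + (-(a ^ 2 - c * b) + 24 * Q) * hR

lemma case1 (hw : w ^ 2 + w + 1 = 0) (hp : p.Prime) (hp3 : 3 < p) (hR : (p : R) ^ 2 = 0)
    (hI : ∀ k, 1 ≤ k → k < p → (k : R) * I k = 1) (hmod : p % 3 = 1) :
    ((T 3 3 p : R) ^ 2 - (T 3 3 (p + 1) : R) * (T 3 3 (p - 1) : R)) = 4 * p * (-3) ^ p := by
  have hR3 : (p : R) ^ 3 = 0 := by rw [pow_succ, hR, zero_mul]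
  have hc := compare hw hp hp3 hR3 hI
  have hTp := Tp1 hw hp hp3 hR3 hI
  have hTm := Tpm1 hw hp hR3 hI
  have hrec := T_rec_R (R := R) hp
  have e1 : w ^ p = w := by rw [w_pow_mod hw, hmod, pow_one]
  have e2 : w ^ (2 * p) = w ^ 2 := by rw [w_pow_mod hw, show 2 * p % 3 = 2 by omega]
  have e3 : w ^ (2 * (p - 1)) = 1 := by rw [w_pow_mod hw, show 2 * (p - 1) % 3 = 0 by omega, pow_zero]
  rw [e1, e2, hR] at hc
  rw [e1, hR] at hTp
  rw [hR] at hTm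
  generalize ht : (p : R) * s1 p I w = t at *
  have ht2 : t = 0 := by linear_combination w * hc + (-(w - 1) * t + 2 * w ^ 2 - w) * hw
  have hx : -(1 + 2 * w) = w ^ 2 * (2 + w) := by linear_combination (-1 - w) * hw
  rw [hx, mul_pow, ← pow_mul, e3, ht2] at hTm
  have hpp : (2 + w) ^ p = (2 + w) ^ (p - 1) * (2 + w) := by rw [← pow_succ]; congr 1; have := hp.pos; omega
  have hQp : (-3 : R) ^ p = (-3) ^ (p - 1) * (-3) := by rw [← pow_succ]; congr 1; have := hp.pos; omega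
  have hU := U_sq hw (p - 1)
  rw [e3] at hU
  rw [hpp] at hTp
  rw [hQp]
  generalize (2 + w) ^ (p - 1) = U at *
  generalize (-3 : R) ^ (p - 1) = Q at *
  have hTp' : (T 3 3 p : R) = U * 3 := by
    rw [hTp]; linear_combination (-U) * hw
  have hTm' : (T 3 3 (p - 1) : R) = U := by
    rw [hTm]; ring
  generalize (T 3 3 p : R) = a at *
  generalize (T 3 3 (p - 1) : R) = b at *
  generalize (T 3 3 (p + 1) : R) = c at *
  have hE : (p + 1) * (a ^ 2 - c * b) = -12 * p * Q := by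
    have h1 : (p + 1) * (a ^ 2 - c * b) = (p + 1) * a ^ 2 - 3 * (2 * p + 1) * a * b - 3 * p * b ^ 2 := by
      linear_combination (-b) * hrec
    rw [h1, hTp', hTm']
    linear_combination (-12 * (p : R)) * hU
  linear_combination (1 - (p : R)) * hE + ((a ^ 2 - c * b) + 12 * Q) * hR

end

/-- the ring `ℤ/p^m [w]`, `w² + w + 1 = 0` -/
abbrev QA (N : ℕ) := QuadraticAlgebra (ZMod N) (-1) (-1)

lemma QA_w (N : ℕ) : (⟨0, 1⟩ : QA N) ^ 2 + ⟨0, 1⟩ + 1 = 0 := by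
  ext
  · simp [pow_two, QuadraticAlgebra.re_one]
  · simp [pow_two, QuadraticAlgebra.im_one]

lemma QA_inv {p m : ℕ} (hp : p.Prime) (k : ℕ) (h1 : 1 ≤ k) (h2 : k < p) :
    ((k : ℕ) : QA (p ^ m)) * algebraMap (ZMod (p ^ m)) (QA (p ^ m)) ((k : ZMod (p ^ m))⁻¹) = 1 := by
  have hcop : Nat.Coprime k (p ^ m) := by
    apply Nat.Coprime.pow_right
    exact (Nat.coprime_of_lt_prime (by omega) h2 hp).symm
  have : (k : ZMod (p ^ m)) * (k : ZMod (p ^ m))⁻¹ = 1 := ZMod.coe_mul_inv_eq_one k hcop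
  rw [← map_natCast (algebraMap (ZMod (p ^ m)) (QA (p ^ m))) k, ← map_mul, this, map_one]

lemma QA_int {N : ℕ} {a b : ℤ} (h : (a : QA N) = (b : QA N)) : (N : ℤ) ∣ a - b := by
  rw [← map_intCast (algebraMap (ZMod N) (QA N)), ← map_intCast (algebraMap (ZMod N) (QA N)) b] at h
  have h2 := QuadraticAlgebra.algebraMap_injective h
  exact (ZMod.intCast_eq_intCast_iff_dvd_sub b a N).1 h2.symm

lemma int1 {p : ℕ} (hp : p.Prime) (hp3 : 3 < p) (hmod : p % 3 = 1) :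
    (p : ℤ) ^ 2 ∣ (T 3 3 p ^ 2 - T 3 3 (p + 1) * T 3 3 (p - 1)) - 4 * p * (-3) ^ p := by
  have h := case1 (R := QA (p ^ 2)) (I := fun k => algebraMap (ZMod (p ^ 2)) (QA (p ^ 2)) ((k : ZMod (p ^ 2))⁻¹))
    (QA_w _) hp hp3 ?_ (fun k h1 h2 => QA_inv hp k h1 h2) hmod
  · have := QA_int (N := p ^ 2) (a := T 3 3 p ^ 2 - T 3 3 (p + 1) * T 3 3 (p - 1)) (b := 4 * p * (-3) ^ p) (by push_cast; exact h)
    exact_mod_cast this
  · have h0 : ((p ^ 2 : ℕ) : ZMod (p ^ 2)) = 0 := ZMod.natCast_self _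
    have := congrArg (algebraMap (ZMod (p ^ 2)) (QA (p ^ 2))) h0
    rw [map_natCast, map_zero] at this
    push_cast at this
    exact this

lemma int2 {p : ℕ} (hp : p.Prime) (hp3 : 3 < p) (hmod : p % 3 = 2) :
    (p : ℤ) ^ 3 ∣ (T 3 3 p ^ 2 - T 3 3 (p + 1) * T 3 3 (p - 1)) - 2 * (-3) ^ p * (p ^ 2 - p - 3) := by
  have h := case2 (R := QA (p ^ 3)) (I := fun k => algebraMap (ZMod (p ^ 3)) (QA (p ^ 3)) ((k : ZMod (p ^ 3))⁻¹))
    (QA_w _) hp hp3 ?_ (fun k h1 h2 => QA_inv hp k h1 h2) hmod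
  · have := QA_int (N := p ^ 3) (a := T 3 3 p ^ 2 - T 3 3 (p + 1) * T 3 3 (p - 1)) (b := 2 * (-3) ^ p * (p ^ 2 - p - 3)) (by push_cast; exact h)
    exact_mod_cast this
  · have h0 : ((p ^ 3 : ℕ) : ZMod (p ^ 3)) = 0 := ZMod.natCast_self _
    have := congrArg (algebraMap (ZMod (p ^ 3)) (QA (p ^ 3))) h0
    rw [map_natCast, map_zero] at this
    push_cast at this
    exact this

lemma num_dvd {q : ℚ} {D Y : ℤ} {p m : ℕ} (hp : p.Prime) (hD : ¬ (p : ℤ) ∣ D) (h : q * D = (p : ℚ) ^ m * Y) :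
    (p : ℤ) ^ m ∣ q.num := by
  have h1 : q.num * D = (p : ℤ) ^ m * Y * q.den := by
    have h2 : (q.num : ℚ) / q.den = q := Rat.num_div_den q
    have h3 : (q.den : ℚ) ≠ 0 := by exact_mod_cast q.den_nz
    have h4 : (q.num : ℚ) * D = (p : ℚ) ^ m * Y * q.den := by
      rw [← h, ← h2]; field_simp
      rw [h2]; ring
    exact_mod_cast h4
  have h5 : (p : ℤ) ^ m ∣ q.num * D := ⟨Y * q.den, by rw [h1]; ring⟩
  have hpI : Prime (p : ℤ) := Nat.prime_iff_prime_int.1 hp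
  exact (hpI.coprime_iff_not_dvd.2 hD).pow_left.dvd_of_dvd_mul_right h5

lemma not_dvd {p : ℕ} (hp : p.Prime) (hp3 : 3 < p) : ¬ (p : ℤ) ∣ 2 * (-3) ^ p := by
  intro h
  have hpI : Prime (p : ℤ) := Nat.prime_iff_prime_int.1 hp
  rcases hpI.dvd_or_dvd h with h | h
  · have h' : p ∣ 2 := by exact_mod_cast h
    have := Nat.le_of_dvd (by norm_num) h'
    omega
  · have h2 := hpI.dvd_of_dvd_pow h
    rw [dvd_neg] at h2
    have h' : p ∣ 3 := by exact_mod_cast h2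
    have := Nat.le_of_dvd (by norm_num) h'
    omega

theorem main1 {p : ℕ} (hp : p.Prime) (hp3 : 3 < p) (hmod : p % 3 = 1) :
    (p : ℤ) ^ 3 ∣ (S p - 2 * (p : ℚ) ^ 2).num := by
  obtain ⟨Y, hY⟩ := int1 hp hp3 hmod
  have hcf := closed_form (p - 1)
  have h1 : p - 1 + 1 = p := by omega
  have h2 : p - 1 + 2 = p + 1 := by omega
  have h3 : ((p - 1 : ℕ) : ℚ) + 1 = p := by rw [Nat.cast_sub (by omega)]; simp
  rw [h1, h2, h3] at hcf
  apply num_dvd (D := 2 * (-3) ^ p) (Y := Y) hp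
  · exact not_dvd hp hp3
  · push_cast
    have hY' := congrArg (Int.cast : ℤ → ℚ) hY
    push_cast at hY'
    linear_combination hcf + (p : ℚ) * hY'

theorem main2 {p : ℕ} (hp : p.Prime) (hp3 : 3 < p) (hmod : p % 3 = 2) :
    (p : ℤ) ^ 4 ∣ (S p - ((p : ℚ) ^ 3 - (p : ℚ) ^ 2 - 3 * p)).num := by
  obtain ⟨Y, hY⟩ := int2 hp hp3 hmod
  have hcf := closed_form (p - 1)
  have h1 : p - 1 + 1 = p := by omega
  have h2 : p - 1 + 2 = p + 1 := by omega
  have h3 : ((p - 1 : ℕ) : ℚ) + 1 = p := by rw [Nat.cast_sub (by omega)]; simp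
  rw [h1, h2, h3] at hcf
  apply num_dvd (D := 2 * (-3) ^ p) (Y := Y) hp
  · exact not_dvd hp hp3
  · push_cast
    have hY' := congrArg (Int.cast : ℤ → ℚ) hY
    push_cast at hY'
    linear_combination hcf + (p : ℚ) * hY'

end Pool.Agent.H55.SunTM
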