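import Mathlib

open MeasureTheory Filter Topology InnerProductSpace Laplacian
open scoped ContDiff Convolution

noncomputable section

namespace Pool.Agent.H55.Super

abbrev E (N : ℕ) := EuclideanSpace ℝ (Fin N)

/-- directional derivative -/
def D {N : ℕ} (v : E N) (f : E N → ℝ) : E N → ℝ := fun x => fderiv ℝ f x v

lemma D_contDiff {N : ℕ} {v : E N} {f : E N → ℝ} (hf : ContDiff ℝ ∞ f) : ContDiff ℝ ∞ (D v f) := by
  unfold D
  have h1 : ContDiff ℝ ∞ (fderiv ℝ f) := hf.fderiv_right (m := ∞) (by simp)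
  exact h1.clm_apply contDiff_const

lemma laplacian_eq {N : ℕ} {f : E N → ℝ} (hf : ContDiff ℝ ∞ f) (x : E N) :
    (Δ f) x = ∑ i, D (EuclideanSpace.basisFun (Fin N) ℝ i) (D (EuclideanSpace.basisFun (Fin N) ℝ i) f) x := by
  rw [laplacian_eq_iteratedFDeriv_orthonormalBasis f (EuclideanSpace.basisFun (Fin N) ℝ)]
  refine Finset.sum_congr rfl fun i _ => ?_
  rw [iteratedFDeriv_two_apply]
  simp only [Matrix.cons_val_zero, Matrix.cons_val_one]
  unfold D
  have h1 : ContDiff ℝ ∞ (fderiv ℝ f) := hf.fderiv_right (m := ∞) (by simp)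
  have h2 : DifferentiableAt ℝ (fderiv ℝ f) x := h1.differentiable (by simp) x
  rw [fderiv_clm_apply h2 (differentiableAt_const _)]
  simp

lemma D_support {N : ℕ} {v : E N} {f : E N → ℝ} (hf : HasCompactSupport f) : HasCompactSupport (D v f) := by
  unfold D
  exact hf.fderiv_apply (𝕜 := ℝ) v

lemma D_zero_of_notMem {N : ℕ} {v : E N} {f : E N → ℝ} {x : E N} (hx : x ∉ tsupport f) : D v f x = 0 := by
  unfold D
  rw [(fderiv_of_notMem_tsupport ℝ hx)]
  simp

lemma D_tsupport {N : ℕ} {v : E N} {f : E N → ℝ} : tsupport (D v f) ⊆ tsupport f := by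
  apply closure_minimal _ (isClosed_tsupport f)
  intro x hx
  by_contra h
  exact hx (D_zero_of_notMem h)

lemma laplacian_zero_of_notMem {N : ℕ} {f : E N → ℝ} (hf : ContDiff ℝ ∞ f) {x : E N} (hx : x ∉ tsupport f) :
    (Δ f) x = 0 := by
  rw [laplacian_eq hf]
  apply Finset.sum_eq_zero
  intro i _
  apply D_zero_of_notMem
  exact fun h => hx (D_tsupport h)

lemma laplacian_contDiff {N : ℕ} {f : E N → ℝ} (hf : ContDiff ℝ ∞ f) : ContDiff ℝ ∞ (Δ f) := by
  have : Δ f = fun x => ∑ i, D (EuclideanSpace.basisFun (Fin N) ℝ i) (D (EuclideanSpace.basisFun (Fin N) ℝ i) f) x := by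
    ext x; exact laplacian_eq hf x
  rw [this]
  apply ContDiff.sum
  intro i _
  exact D_contDiff (D_contDiff hf)

lemma laplacian_hasCompactSupport {N : ℕ} {f : E N → ℝ} (hf : ContDiff ℝ ∞ f) (h : HasCompactSupport f) :
    HasCompactSupport (Δ f) := by
  apply HasCompactSupport.intro h.isCompact
  intro x hx
  exact laplacian_zero_of_notMem hf hx

lemma ibp1 {N : ℕ} {v : E N} {f g : E N → ℝ} (hf : ContDiff ℝ ∞ f) (hg : ContDiff ℝ ∞ g)
    (hgs : HasCompactSupport g) : ∫ x, f x * D v g x = - ∫ x, D v f x * g x := by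
  unfold D
  apply integral_mul_fderiv_eq_neg_fderiv_mul_of_integrable
  · have : ContDiff ℝ ∞ (D v f) := D_contDiff hf
    exact (this.continuous.mul hg.continuous).integrable_of_hasCompactSupport (hgs.mul_left)
  · have : ContDiff ℝ ∞ (D v g) := D_contDiff hg
    exact (hf.continuous.mul this.continuous).integrable_of_hasCompactSupport ((D_support hgs).mul_left)
  · exact (hf.continuous.mul hg.continuous).integrable_of_hasCompactSupport (hgs.mul_left)
  · intro x _; exact hf.differentiable (by simp) x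
  · intro x _; exact hg.differentiable (by simp) x

lemma ibp2 {N : ℕ} {v : E N} {f g : E N → ℝ} (hf : ContDiff ℝ ∞ f) (hg : ContDiff ℝ ∞ g)
    (hgs : HasCompactSupport g) : ∫ x, f x * D v (D v g) x = ∫ x, D v (D v f) x * g x := by
  rw [ibp1 hf (D_contDiff hg) (D_support hgs)]
  have := ibp1 (v := v) (D_contDiff (v := v) hf) hg hgs
  rw [this]; ring

lemma ibp_laplacian {N : ℕ} {f g : E N → ℝ} (hf : ContDiff ℝ ∞ f) (hg : ContDiff ℝ ∞ g)
    (hgs : HasCompactSupport g) : ∫ x, f x * (Δ g) x = ∫ x, (Δ f) x * g x := by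
  simp_rw [laplacian_eq hf, laplacian_eq hg, Finset.mul_sum, Finset.sum_mul]
  rw [integral_finsetSum, integral_finsetSum]
  · exact Finset.sum_congr rfl fun i _ => ibp2 hf hg hgs
  · intro i _
    exact ((D_contDiff (D_contDiff hf)).continuous.mul hg.continuous).integrable_of_hasCompactSupport (hgs.mul_left)
  · intro i _
    exact (hf.continuous.mul (D_contDiff (D_contDiff hg)).continuous).integrable_of_hasCompactSupport ((D_support (D_support hgs)).mul_left)

lemma D_comp {N : ℕ} {v : E N} {w : E N → ℝ} (hw : ContDiff ℝ ∞ w) {Ψ θ : ℝ → ℝ}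
    (hΨ : ∀ t, HasDerivAt Ψ (θ t) t) : D v (fun x => Ψ (w x)) = fun x => θ (w x) * D v w x := by
  ext x
  unfold D
  have h1 : HasFDerivAt w (fderiv ℝ w x) x := (hw.differentiable (by simp) x).hasFDerivAt
  have h2 := (hΨ (w x)).comp_hasFDerivAt x h1
  have h3 : fderiv ℝ (fun x => Ψ (w x)) x = θ (w x) • fderiv ℝ w x := h2.fderiv
  rw [h3]; simp

lemma D_mul {N : ℕ} {v : E N} {f g : E N → ℝ} (hf : ContDiff ℝ ∞ f) (hg : ContDiff ℝ ∞ g) (x : E N) :
    D v (fun x => f x * g x) x = f x * D v g x + g x * D v f x := by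
  unfold D
  have := fderiv_mul (hf.differentiable (by simp) x) (hg.differentiable (by simp) x)
  have h2 : fderiv ℝ (fun x => f x * g x) x = f x • fderiv ℝ g x + g x • fderiv ℝ f x := this
  rw [h2]; simp

lemma chain_ineq {N : ℕ} {w : E N → ℝ} (hw : ContDiff ℝ ∞ w) {Ψ θ θ' : ℝ → ℝ}
    (hΨ : ∀ t, HasDerivAt Ψ (θ t) t) (hθ : ∀ t, HasDerivAt θ (θ' t) t) (hθs : ContDiff ℝ ∞ θ) (hΨs : ContDiff ℝ ∞ Ψ)
    (hneg : ∀ t, θ' t ≤ 0) (x : E N) : (Δ (fun x => Ψ (w x))) x ≤ θ (w x) * (Δ w) x := by
  rw [laplacian_eq (f := fun x => Ψ (w x)) (hΨs.comp hw), laplacian_eq hw, Finset.mul_sum]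
  apply Finset.sum_le_sum
  intro i _
  rw [D_comp hw hΨ, D_mul (f := fun x => θ (w x)) (hθs.comp hw) (D_contDiff hw), D_comp hw hθ]
  have : D (EuclideanSpace.basisFun (Fin N) ℝ i) w x * (θ' (w x) * D (EuclideanSpace.basisFun (Fin N) ℝ i) w x) ≤ 0 := by
    have h := hneg (w x)
    nlinarith [mul_self_nonneg (D (EuclideanSpace.basisFun (Fin N) ℝ i) w x)]
  linarith


abbrev cv {N : ℕ} (ρ f : E N → ℝ) : E N → ℝ := (ρ ⋆[ContinuousLinearMap.lsmul ℝ ℝ, volume] f)

lemma cv_contDiff {N : ℕ} {ρ f : E N → ℝ} (hρ : ContDiff ℝ ∞ ρ) (hρs : HasCompactSupport ρ)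
    (hf : Integrable f) : ContDiff ℝ ∞ (cv ρ f) :=
  hρs.contDiff_convolution_left _ hρ hf.locallyIntegrable

lemma D_cv {N : ℕ} {v : E N} {ρ f : E N → ℝ} (hρ : ContDiff ℝ ∞ ρ) (hρs : HasCompactSupport ρ)
    (hf : Integrable f) : D v (cv ρ f) = cv (D v ρ) f := by
  ext x
  have h := hρs.hasFDerivAt_convolution_left (ContinuousLinearMap.lsmul ℝ ℝ : ℝ →L[ℝ] ℝ →L[ℝ] ℝ) (hρ.of_le (by simp)) hf.locallyIntegrable x
  have hint := (hρs.fderiv (𝕜 := ℝ)).convolutionExists_left ((ContinuousLinearMap.lsmul ℝ ℝ : ℝ →L[ℝ] ℝ →L[ℝ] ℝ).precompL (E N)) (hρ.continuous_fderiv (by simp)) hf.locallyIntegrable x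
  unfold D
  rw [h.fderiv, convolution_def, ContinuousLinearMap.integral_apply hint]
  unfold cv
  rw [convolution_def]
  rfl

lemma laplacian_cv {N : ℕ} {ρ f : E N → ℝ} (hρ : ContDiff ℝ ∞ ρ) (hρs : HasCompactSupport ρ)
    (hf : Integrable f) (x : E N) : (Δ (cv ρ f)) x = ∫ t, (Δ ρ) (x - t) * f t := by
  rw [laplacian_eq (cv_contDiff hρ hρs hf)]
  have h1 : ∀ i, D (EuclideanSpace.basisFun (Fin N) ℝ i) (D (EuclideanSpace.basisFun (Fin N) ℝ i) (cv ρ f)) x
      = ∫ t, D (EuclideanSpace.basisFun (Fin N) ℝ i) (D (EuclideanSpace.basisFun (Fin N) ℝ i) ρ) (x - t) * f t := by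
    intro i
    rw [D_cv hρ hρs hf, D_cv (D_contDiff hρ) (D_support hρs) hf]
    unfold cv
    rw [convolution_eq_swap]
    simp
  simp_rw [h1, laplacian_eq hρ, Finset.sum_mul]
  rw [integral_finsetSum]
  intro i _
  have h2 : ContDiff ℝ ∞ (D (EuclideanSpace.basisFun (Fin N) ℝ i) (D (EuclideanSpace.basisFun (Fin N) ℝ i) ρ)) := D_contDiff (D_contDiff hρ)
  have h3 : HasCompactSupport (D (EuclideanSpace.basisFun (Fin N) ℝ i) (D (EuclideanSpace.basisFun (Fin N) ℝ i) ρ)) := D_support (D_support hρs)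
  have := (h3.convolutionExists_left (ContinuousLinearMap.lsmul ℝ ℝ : ℝ →L[ℝ] ℝ →L[ℝ] ℝ) h2.continuous hf.locallyIntegrable x).integrable_swap
  simpa using this

lemma D_reflect {N : ℕ} {v : E N} {ρ : E N → ℝ} (hρ : ContDiff ℝ ∞ ρ) (x : E N) :
    D v (fun t => ρ (x - t)) = fun t => - D v ρ (x - t) := by
  ext t
  unfold D
  have h1 : HasFDerivAt ρ (fderiv ℝ ρ (x - t)) (x - t) := (hρ.differentiable (by simp) _).hasFDerivAt
  have h2 : HasFDerivAt (fun t : E N => x - t) (-(ContinuousLinearMap.id ℝ (E N))) t := by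
    simpa using (hasFDerivAt_id t).const_sub x
  have h3 := h1.comp t h2
  have h4 : fderiv ℝ (fun t => ρ (x - t)) t = (fderiv ℝ ρ (x - t)).comp (-(ContinuousLinearMap.id ℝ (E N))) := h3.fderiv
  rw [h4]; simp

lemma D_neg {N : ℕ} {v : E N} {ρ : E N → ℝ} : D v (fun t => - ρ t) = fun t => - D v ρ t := by
  ext t
  unfold D
  rw [fderiv_fun_neg]; simp

lemma laplacian_reflect {N : ℕ} {ρ : E N → ℝ} (hρ : ContDiff ℝ ∞ ρ) (x t : E N) :
    (Δ (fun t => ρ (x - t))) t = (Δ ρ) (x - t) := by
  have hs : ContDiff ℝ ∞ (fun t => ρ (x - t)) := hρ.comp (contDiff_const.sub contDiff_id)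
  rw [laplacian_eq hs, laplacian_eq hρ]
  refine Finset.sum_congr rfl fun i _ => ?_
  rw [D_reflect hρ, D_neg]
  have := D_reflect (v := EuclideanSpace.basisFun (Fin N) ℝ i) (D_contDiff (v := EuclideanSpace.basisFun (Fin N) ℝ i) hρ) x
  rw [this]
  simp


lemma cv_norm_le {N : ℕ} (ρ : ContDiffBump (0 : E N)) {f : E N → ℝ} (hf : Integrable f) :
    ∫ x, |cv (ρ.normed volume) f x| ≤ ∫ x, |f x| := by
  have h1 : Integrable (ρ.normed (volume : Measure (E N))) := ρ.integrable_normed
  have h2 : Integrable (fun x => |f x|) := hf.abs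
  have key := integral_convolution (μ := (volume : Measure (E N))) (ν := (volume : Measure (E N))) (ContinuousLinearMap.lsmul ℝ ℝ : ℝ →L[ℝ] ℝ →L[ℝ] ℝ) h1 h2
  have h3 : ∀ x, |cv (ρ.normed volume) f x| ≤ cv (ρ.normed volume) (fun x => |f x|) x := by
    intro x
    unfold cv
    rw [convolution_def, convolution_def, ← Real.norm_eq_abs]
    refine (norm_integral_le_integral_norm _).trans (le_of_eq ?_)
    congr 1
    ext t
    simp [abs_of_nonneg (ρ.nonneg_normed (μ := volume) t)]
  calc ∫ x, |cv (ρ.normed volume) f x| ≤ ∫ x, cv (ρ.normed volume) (fun x => |f x|) x := by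
        apply integral_mono_of_nonneg
        · exact Eventually.of_forall fun x => abs_nonneg _
        · exact h1.integrable_convolution _ h2
        · exact Eventually.of_forall h3
    _ = ∫ x, |f x| := by
        unfold cv
        rw [key]
        simp [ρ.integral_normed]

lemma cv_exists {N : ℕ} (ρ : ContDiffBump (0 : E N)) {f : E N → ℝ} (hf : Integrable f) :
    ConvolutionExists (ρ.normed volume) f (ContinuousLinearMap.lsmul ℝ ℝ) (volume : Measure (E N)) :=
  ρ.hasCompactSupport_normed.convolutionExists_left _ ρ.continuous_normed hf.locallyIntegrable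

lemma cv_integrable {N : ℕ} (ρ : ContDiffBump (0 : E N)) {f : E N → ℝ} (hf : Integrable f) :
    Integrable (cv (ρ.normed volume) f) :=
  (ρ.integrable_normed).integrable_convolution _ hf

lemma L1_approx {N : ℕ} {f : E N → ℝ} (hf : Integrable f) {ρ : ℕ → ContDiffBump (0 : E N)}
    (hρ : Tendsto (fun n => (ρ n).rOut) atTop (𝓝 0)) :
    Tendsto (fun n => ∫ x, |cv ((ρ n).normed volume) f x - f x|) atTop (𝓝 0) := by
  rw [Metric.tendsto_atTop]
  intro ε hε
  obtain ⟨g, hgs, hfg, hgc, hgi⟩ := hf.exists_hasCompactSupport_integral_sub_le (ε := ε / 4) (by positivity)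
  set K : Set (E N) := Metric.cthickening 1 (tsupport g) with hK
  have hKc : IsCompact K := hgs.isCompact.cthickening
  have hKfin : volume K ≠ ⊤ := hKc.measure_lt_top.ne
  set V : ℝ := (volume K).toReal with hV
  have hV0 : 0 ≤ V := ENNReal.toReal_nonneg
  set η : ℝ := ε / (4 * (V + 1)) with hη
  have hη0 : 0 < η := by positivity
  have huc : UniformContinuous g := hgs.uniformContinuous_of_continuous hgc
  rw [Metric.uniformContinuous_iff] at huc
  obtain ⟨δ, hδ, hδ2⟩ := huc η hη0
  rw [Metric.tendsto_atTop] at hρ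
  obtain ⟨n0, hn0⟩ := hρ (min δ 1) (by positivity)
  refine ⟨n0, fun n hn => ?_⟩
  have hr := hn0 n hn
  rw [Real.dist_eq, sub_zero, abs_of_pos (ρ n).rOut_pos] at hr
  have hr1 : (ρ n).rOut < δ := lt_of_lt_of_le hr (min_le_left _ _)
  have hr2 : (ρ n).rOut < 1 := lt_of_lt_of_le hr (min_le_right _ _)
  rw [Real.dist_eq, sub_zero, abs_of_nonneg (integral_nonneg fun x => abs_nonneg _)]
  have hgdist : ∀ x, |cv ((ρ n).normed volume) g x - g x| ≤ K.indicator (fun _ => η) x := by
    intro x
    by_cases hx : x ∈ K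
    · rw [Set.indicator_of_mem hx, ← Real.dist_eq]
      apply ContDiffBump.dist_normed_convolution_le hgc.aestronglyMeasurable
      intro y hy
      exact (hδ2 (lt_trans (Metric.mem_ball.1 hy) hr1)).le
    · rw [Set.indicator_of_notMem hx, ← Real.dist_eq]
      apply ContDiffBump.dist_normed_convolution_le hgc.aestronglyMeasurable
      intro y hy
      have hx0 : g x = 0 := by
        apply image_eq_zero_of_notMem_tsupport
        intro h; exact hx (Metric.self_subset_cthickening _ h)
      have hy0 : g y = 0 := by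
        apply image_eq_zero_of_notMem_tsupport
        intro h
        apply hx
        apply Metric.mem_cthickening_of_dist_le x y 1 _ h
        rw [dist_comm]
        exact (lt_trans (Metric.mem_ball.1 hy) hr2).le
      simp [hx0, hy0]
  have hsum : ∀ x, |cv ((ρ n).normed volume) f x - f x| ≤
      |cv ((ρ n).normed volume) (fun x => f x - g x) x| + K.indicator (fun _ => η) x + |f x - g x| := by
    intro x
    have h1 : cv ((ρ n).normed volume) f x = cv ((ρ n).normed volume) (fun x => f x - g x) x +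
        cv ((ρ n).normed volume) g x := by
      have := (cv_exists (ρ n) (hf.sub hgi) x).distrib_add (cv_exists (ρ n) hgi x)
      rw [show f = (f - g) + g by simp]
      rw [show (fun x => ((f - g) + g) x - g x) = f - g by ext; simp]
      exact this
    rw [h1]
    have h2 := hgdist x
    calc |cv ((ρ n).normed volume) (fun x => f x - g x) x + cv ((ρ n).normed volume) g x - f x|
        = |cv ((ρ n).normed volume) (fun x => f x - g x) x + (cv ((ρ n).normed volume) g x - g x) - (f x - g x)| := by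
          congr 1; ring
      _ ≤ |cv ((ρ n).normed volume) (fun x => f x - g x) x + (cv ((ρ n).normed volume) g x - g x)| + |f x - g x| := abs_sub _ _
      _ ≤ |cv ((ρ n).normed volume) (fun x => f x - g x) x| + |(cv ((ρ n).normed volume) g x - g x)| + |f x - g x| := by
          gcongr; exact abs_add_le _ _
      _ ≤ _ := by gcongr
  have hi1 : Integrable (fun x => |cv ((ρ n).normed volume) (fun x => f x - g x) x|) := (cv_integrable (ρ n) (hf.sub hgi)).abs
  have hi2 : Integrable (K.indicator (fun _ : E N => η)) := by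
    rw [integrable_indicator_iff hKc.measurableSet]
    exact integrableOn_const hKfin
  have hi3 : Integrable (fun x => |f x - g x|) := (hf.sub hgi).abs
  calc ∫ x, |cv ((ρ n).normed volume) f x - f x|
      ≤ ∫ x, (|cv ((ρ n).normed volume) (fun x => f x - g x) x| + K.indicator (fun _ => η) x + |f x - g x|) := by
        apply integral_mono_of_nonneg
        · exact Eventually.of_forall fun x => abs_nonneg _
        · exact (hi1.add hi2).add hi3
        · exact Eventually.of_forall hsum
    _ = (∫ x, |cv ((ρ n).normed volume) (fun x => f x - g x) x|) + (∫ x, K.indicator (fun _ => η) x) + ∫ x, |f x - g x| := by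
        have a1 := integral_add (hi1.add hi2) hi3
        have a2 := integral_add hi1 hi2
        simp only [Pi.add_apply] at a1 a2
        rw [a1, a2]
    _ ≤ ε / 4 + η * V + ε / 4 := by
        have e1 : ∫ x, |cv ((ρ n).normed volume) (fun x => f x - g x) x| ≤ ε / 4 :=
          (cv_norm_le (ρ n) (hf.sub hgi)).trans (by simpa using hfg)
        have e2 : ∫ x, K.indicator (fun _ => η) x = η * V := by
          rw [integral_indicator hKc.measurableSet, setIntegral_const]
          simp [Measure.real, hV, mul_comm]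
        have e3 : ∫ x, |f x - g x| ≤ ε / 4 := by simpa using hfg
        linarith
    _ < ε := by
        have : η * V ≤ ε / 4 := by
          rw [hη, div_mul_eq_mul_div, div_le_div_iff₀ (by positivity) (by positivity)]
          nlinarith
        linarith

end Pool.Agent.H55.Super
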