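import Mathlib
import Pool.Agent.H55.SuperBasic

open MeasureTheory Filter Topology InnerProductSpace Laplacian
open scoped ContDiff Convolution

noncomputable section

namespace Pool.Agent.H55.Super

/-- The inequality `-Δ w + h ≥ 0` on `Ω` in the sense of distributions. -/
def DistSuper {N : ℕ} (Ω : Set (E N)) (w h : E N → ℝ) : Prop :=
  ∀ φ : E N → ℝ, ContDiff ℝ ∞ φ → HasCompactSupport φ → tsupport φ ⊆ Ω → (∀ x, 0 ≤ φ x) →
    0 ≤ (∫ x in Ω, w x * (-(Δ φ) x)) + ∫ x in Ω, h x * φ x

/-- a sequence of bumps with radius `δ/(n+1)` -/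
def bump {N : ℕ} (δ : ℝ) (hδ : 0 < δ) (n : ℕ) : ContDiffBump (0 : E N) where
  rIn := δ / (n + 1) / 2
  rOut := δ / (n + 1)
  rIn_pos := by positivity
  rIn_lt_rOut := by
    have : 0 < δ / ((n : ℝ) + 1) := by positivity
    linarith

lemma bump_tendsto {N : ℕ} (δ : ℝ) (hδ : 0 < δ) :
    Tendsto (fun n => (bump (N := N) δ hδ n).rOut) atTop (𝓝 0) := by
  simp only [bump]
  exact tendsto_const_div_atTop_nhds_zero_nat δ |>.comp (tendsto_add_atTop_nat 1) |>.congr (by intro n; simp)

lemma bump_le {N : ℕ} (δ : ℝ) (hδ : 0 < δ) (n : ℕ) : (bump (N := N) δ hδ n).rOut ≤ δ := by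
  simp only [bump]
  apply div_le_self hδ.le
  have : (0:ℝ) ≤ n := Nat.cast_nonneg n
  linarith

lemma moll_ineq {N : ℕ} {Ω : Set (E N)} (hΩ : IsOpen Ω) {w h : E N → ℝ} (hw : IntegrableOn w Ω)
    (hh : IntegrableOn h Ω) (hs : DistSuper Ω w h) (ρ : ContDiffBump (0 : E N)) (x : E N)
    (hx : Metric.closedBall x ρ.rOut ⊆ Ω) :
    (Δ (cv (ρ.normed volume) (Ω.indicator w))) x ≤ cv (ρ.normed volume) (Ω.indicator h) x := by
  have hρ : ContDiff ℝ ∞ (ρ.normed (volume : Measure (E N))) := ρ.contDiff_normed
  have hρs : HasCompactSupport (ρ.normed (volume : Measure (E N))) := ρ.hasCompactSupport_normed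
  have hW : Integrable (Ω.indicator w) := (integrable_indicator_iff hΩ.measurableSet).2 hw
  have hH : Integrable (Ω.indicator h) := (integrable_indicator_iff hΩ.measurableSet).2 hh
  have hψs : ContDiff ℝ ∞ (fun t => ρ.normed volume (x - t)) := hρ.comp (contDiff_const.sub contDiff_id)
  have hsub : tsupport (fun t => ρ.normed volume (x - t)) ⊆ Metric.closedBall x ρ.rOut := by
    apply closure_minimal _ Metric.isClosed_closedBall
    intro t ht
    have h1 : (x - t) ∈ Function.support (ρ.normed (volume : Measure (E N))) := ht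
    rw [ρ.support_normed_eq] at h1
    rw [Metric.mem_ball, dist_zero_right] at h1
    rw [Metric.mem_closedBall, dist_comm, dist_eq_norm]
    exact h1.le
  have hcs : HasCompactSupport (fun t => ρ.normed volume (x - t)) :=
    (isCompact_closedBall x ρ.rOut).of_isClosed_subset (isClosed_tsupport _) hsub
  have key := hs _ hψs hcs (hsub.trans hx) (fun t => ρ.nonneg_normed _)
  simp_rw [laplacian_reflect hρ x] at key
  rw [laplacian_cv hρ hρs hW]
  unfold cv
  rw [convolution_eq_swap]
  have e1 : ∫ t in Ω, w t * -(Δ (ρ.normed volume)) (x - t) = - ∫ t, (Δ (ρ.normed volume)) (x - t) * Ω.indicator w t := by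
    rw [← integral_neg, ← integral_indicator hΩ.measurableSet]
    congr 1
    ext t
    by_cases ht : t ∈ Ω
    · simp [ht]; ring
    · simp [ht]
  have e2 : ∫ t in Ω, h t * ρ.normed volume (x - t) = ∫ t, ((ContinuousLinearMap.lsmul ℝ ℝ : ℝ →L[ℝ] ℝ →L[ℝ] ℝ) (ρ.normed volume (x - t))) (Ω.indicator h t) := by
    rw [← integral_indicator hΩ.measurableSet]
    congr 1
    ext t
    by_cases ht : t ∈ Ω
    · simp [ht]; ring
    · simp [ht]
  rw [e1, e2] at key
  linarith

lemma kato {N : ℕ} {Ω : Set (E N)} (hΩ : IsOpen Ω) {w h : E N → ℝ} (hw : IntegrableOn w Ω)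
    (hh : IntegrableOn h Ω) (hs : DistSuper Ω w h) {Ψ θ θ' : ℝ → ℝ}
    (hΨ : ∀ t, HasDerivAt Ψ (θ t) t) (hθ : ∀ t, HasDerivAt θ (θ' t) t) (hθs : ContDiff ℝ ∞ θ)
    (hΨs : ContDiff ℝ ∞ Ψ) (hneg : ∀ t, θ' t ≤ 0) (h0 : ∀ t, 0 ≤ θ t) (h1 : ∀ t, θ t ≤ 1) 
    (hlip : ∀ s t, |Ψ s - Ψ t| ≤ |s - t|) :
    DistSuper Ω (fun x => Ψ (w x)) (fun x => θ (w x) * h x) := by
  intro φ hφ hφs hφΩ hφ0
  have hW : Integrable (Ω.indicator w) := (integrable_indicator_iff hΩ.measurableSet).2 hw
  have hH : Integrable (Ω.indicator h) := (integrable_indicator_iff hΩ.measurableSet).2 hh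
  obtain ⟨δ, hδ, hδΩ⟩ := hφs.isCompact.exists_cthickening_subset_open hΩ hφΩ
  set ρ : ℕ → ContDiffBump (0 : E N) := fun n => bump δ hδ n with hρdef
  have hρt : Tendsto (fun n => (ρ n).rOut) atTop (𝓝 0) := bump_tendsto δ hδ
  set W := Ω.indicator w with hWdef
  set H := Ω.indicator h with hHdef
  set wn : ℕ → E N → ℝ := fun n => cv ((ρ n).normed volume) W with hwn
  set hn : ℕ → E N → ℝ := fun n => cv ((ρ n).normed volume) H with hhn
  have hwns : ∀ n, ContDiff ℝ ∞ (wn n) := fun n => cv_contDiff (ρ n).contDiff_normed (ρ n).hasCompactSupport_normed hW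
  have hhns : ∀ n, ContDiff ℝ ∞ (hn n) := fun n => cv_contDiff (ρ n).contDiff_normed (ρ n).hasCompactSupport_normed hH
  have hΔc : Continuous (Δ φ) := (laplacian_contDiff hφ).continuous
  have hΔs : HasCompactSupport (Δ φ) := laplacian_hasCompactSupport hφ hφs
  have hn_ineq : ∀ n, ∫ x, Ψ (wn n x) * (Δ φ) x ≤ ∫ x, θ (wn n x) * hn n x * φ x := by
    intro n
    have hibp := ibp_laplacian (f := fun x => Ψ (wn n x)) (hΨs.comp (hwns n)) hφ hφs
    rw [hibp]
    apply integral_mono
    · exact ((laplacian_contDiff (f := fun x => Ψ (wn n x)) (hΨs.comp (hwns n))).continuous.mul hφ.continuous).integrable_of_hasCompactSupport hφs.mul_left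
    · exact (((hθs.continuous.comp (hwns n).continuous).mul (hhns n).continuous).mul hφ.continuous).integrable_of_hasCompactSupport hφs.mul_left
    · intro x
      by_cases hx : x ∈ tsupport φ
      · have hball : Metric.closedBall x (ρ n).rOut ⊆ Ω := by
          exact (Metric.closedBall_subset_closedBall (bump_le δ hδ n)).trans ((Metric.closedBall_subset_cthickening hx δ).trans hδΩ)
        have e1 := chain_ineq (hwns n) hΨ hθ hθs hΨs hneg x
        have e2 := moll_ineq hΩ hw hh hs (ρ n) x hball
        have e3 : (Δ (fun x => Ψ (wn n x))) x ≤ θ (wn n x) * hn n x :=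
          e1.trans (mul_le_mul_of_nonneg_left e2 (h0 _))
        exact mul_le_mul_of_nonneg_right e3 (hφ0 x)
      · have : φ x = 0 := image_eq_zero_of_notMem_tsupport hx
        simp [this]
  obtain ⟨C, hC⟩ := hΔc.bounded_above_of_compact_support hΔs
  obtain ⟨C', hC'⟩ := hφ.continuous.bounded_above_of_compact_support hφs
  have hWm : AEStronglyMeasurable W volume := hW.aestronglyMeasurable
  have hHm : AEStronglyMeasurable H volume := hH.aestronglyMeasurable
  have hL1w := L1_approx hW hρt
  have hL1h := L1_approx hH hρt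
  have haew : ∀ᵐ x, Tendsto (fun n => wn n x) atTop (𝓝 (W x)) := by
    apply ContDiffBump.ae_convolution_tendsto_right_of_locallyIntegrable (K := 2) hρt _ hW.locallyIntegrable
    apply Eventually.of_forall
    intro n
    simp only [hρdef, bump]
    linarith
  have hwnm : ∀ n, AEStronglyMeasurable (wn n) volume := fun n => (hwns n).continuous.aestronglyMeasurable
  have hhnm : ∀ n, AEStronglyMeasurable (hn n) volume := fun n => (hhns n).continuous.aestronglyMeasurable
  have hwni : ∀ n, Integrable (wn n) := fun n => cv_integrable (ρ n) hW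
  have hhni : ∀ n, Integrable (hn n) := fun n => cv_integrable (ρ n) hH
  have hΨb : ∀ t, |Ψ t| ≤ |Ψ 0| + |t| := by
    intro t
    have := hlip t 0
    rw [sub_zero] at this
    have h2 := abs_sub_abs_le_abs_sub (Ψ t) (Ψ 0)
    linarith
  have hΨint : ∀ f : E N → ℝ, Integrable f → Integrable (fun x => Ψ (f x) * (Δ φ) x) := by
    intro f hf
    have hb : Integrable (fun x => |Ψ 0| * ‖(Δ φ) x‖ + |f x| * C) :=
      ((hΔc.norm.integrable_of_hasCompactSupport hΔs.norm).const_mul _).add (hf.abs.mul_const _)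
    apply hb.mono' ((hΨs.continuous.comp_aestronglyMeasurable hf.aestronglyMeasurable).mul hΔc.aestronglyMeasurable)
    apply Eventually.of_forall
    intro x
    simp only [Pi.mul_apply]
    rw [norm_mul, Real.norm_eq_abs]
    calc |Ψ (f x)| * ‖(Δ φ) x‖ ≤ (|Ψ 0| + |f x|) * ‖(Δ φ) x‖ := by gcongr; exact hΨb _
      _ = |Ψ 0| * ‖(Δ φ) x‖ + |f x| * ‖(Δ φ) x‖ := by ring
      _ ≤ _ := by gcongr; exact hC x
  have hA : Tendsto (fun n => ∫ x, Ψ (wn n x) * (Δ φ) x) atTop (𝓝 (∫ x, Ψ (W x) * (Δ φ) x)) := by
    rw [tendsto_iff_dist_tendsto_zero]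
    apply squeeze_zero (fun n => dist_nonneg) (g := fun n => C * ∫ x, |wn n x - W x|)
    · intro n
      rw [dist_eq_norm, ← integral_sub (hΨint _ (hwni n)) (hΨint _ hW)]
      refine (norm_integral_le_integral_norm _).trans ?_
      rw [← integral_const_mul]
      apply integral_mono_of_nonneg
      · exact Eventually.of_forall fun x => norm_nonneg _
      · exact ((hwni n).sub hW).abs.const_mul _
      · apply Eventually.of_forall
        intro x
        simp only
        rw [← sub_mul, norm_mul, Real.norm_eq_abs, mul_comm]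
        exact mul_le_mul (hC x) (hlip _ _) (abs_nonneg _) ((norm_nonneg _).trans (hC x))
    · simpa using hL1w.const_mul C
  have hθm : ∀ n, AEStronglyMeasurable (fun x => θ (wn n x)) volume := fun n =>
    (hθs.continuous.comp (hwns n).continuous).aestronglyMeasurable
  have hB1 : Tendsto (fun n => ∫ x, θ (wn n x) * (hn n x - H x) * φ x) atTop (𝓝 0) := by
    rw [tendsto_iff_dist_tendsto_zero]
    apply squeeze_zero (fun n => dist_nonneg) (g := fun n => C' * ∫ x, |hn n x - H x|)
    · intro n
      rw [dist_eq_norm, sub_zero]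
      refine (norm_integral_le_integral_norm _).trans ?_
      rw [← integral_const_mul]
      apply integral_mono_of_nonneg
      · exact Eventually.of_forall fun x => norm_nonneg _
      · exact ((hhni n).sub hH).abs.const_mul _
      · apply Eventually.of_forall
        intro x
        simp only
        rw [norm_mul, norm_mul, mul_comm, Real.norm_eq_abs (θ _), abs_of_nonneg (h0 _), Real.norm_eq_abs (hn n x - H x)]
        apply mul_le_mul (hC' x) _ (by have := h0 (wn n x); positivity) ((norm_nonneg _).trans (hC' x))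
        calc θ (wn n x) * |hn n x - H x| ≤ 1 * |hn n x - H x| := by gcongr; exact h1 _
          _ = _ := one_mul _
    · simpa using hL1h.const_mul C'
  have hB2 : Tendsto (fun n => ∫ x, θ (wn n x) * H x * φ x) atTop (𝓝 (∫ x, θ (W x) * H x * φ x)) := by
    apply tendsto_integral_of_dominated_convergence (fun x => |H x| * C')
    · intro n
      exact ((hθm n).mul hHm).mul hφ.continuous.aestronglyMeasurable
    · exact hH.abs.mul_const _
    · intro n
      apply Eventually.of_forall
      intro x
      rw [norm_mul, norm_mul, Real.norm_eq_abs (θ _), abs_of_nonneg (h0 _), Real.norm_eq_abs (H x)]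
      apply mul_le_mul _ (hC' x) (norm_nonneg _) (abs_nonneg _)
      calc θ (wn n x) * |H x| ≤ 1 * |H x| := by gcongr; exact h1 _
          _ = _ := one_mul _
    · filter_upwards [haew] with x hx
      exact (((hθs.continuous.tendsto _).comp hx).mul_const _).mul_const _
  have hB : Tendsto (fun n => ∫ x, θ (wn n x) * hn n x * φ x) atTop (𝓝 (∫ x, θ (W x) * H x * φ x)) := by
    have := hB1.add hB2
    rw [zero_add] at this
    refine this.congr fun n => ?_
    rw [← integral_add]
    · congr 1
      ext x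
      ring
    · have hb : Integrable (fun x => C' * |hn n x - H x|) := ((hhni n).sub hH).abs.const_mul _
      apply hb.mono' (((hθm n).mul ((hhnm n).sub hHm)).mul hφ.continuous.aestronglyMeasurable)
      apply Eventually.of_forall
      intro x
      simp only [Pi.mul_apply, Pi.sub_apply]
      rw [norm_mul, norm_mul, mul_comm, Real.norm_eq_abs (θ _), abs_of_nonneg (h0 _), Real.norm_eq_abs (hn n x - H x)]
      apply mul_le_mul (hC' x) _ (by have := h0 (wn n x); positivity) ((norm_nonneg _).trans (hC' x))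
      calc θ (wn n x) * |hn n x - H x| ≤ 1 * |hn n x - H x| := by gcongr; exact h1 _
          _ = _ := one_mul _
    · have hb : Integrable (fun x => C' * |H x|) := hH.abs.const_mul _
      apply hb.mono' (((hθm n).mul hHm).mul hφ.continuous.aestronglyMeasurable)
      apply Eventually.of_forall
      intro x
      simp only [Pi.mul_apply, Pi.sub_apply]
      rw [norm_mul, norm_mul, mul_comm, Real.norm_eq_abs (θ _), abs_of_nonneg (h0 _), Real.norm_eq_abs (H x)]
      apply mul_le_mul (hC' x) _ (by have := h0 (wn n x); positivity) ((norm_nonneg _).trans (hC' x))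
      calc θ (wn n x) * |H x| ≤ 1 * |H x| := by gcongr; exact h1 _
          _ = _ := one_mul _
  have hfin := le_of_tendsto_of_tendsto' hA hB hn_ineq
  have e1 : ∫ x in Ω, Ψ (w x) * -(Δ φ) x = - ∫ x, Ψ (W x) * (Δ φ) x := by
    rw [← integral_neg, ← integral_indicator hΩ.measurableSet]
    congr 1
    ext t
    by_cases ht : t ∈ Ω
    · simp [hWdef, ht]
    · have : (Δ φ) t = 0 := laplacian_zero_of_notMem hφ (fun h => ht (hφΩ h))
      simp [ht, this]
  have e2 : ∫ x in Ω, θ (w x) * h x * φ x = ∫ x, θ (W x) * H x * φ x := by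
    rw [← integral_indicator hΩ.measurableSet]
    congr 1
    ext t
    by_cases ht : t ∈ Ω
    · simp [hWdef, hHdef, ht]
    · simp [hHdef, ht]
  rw [e1, e2]
  linarith

end Pool.Agent.H55.Super
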