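import Mathlib
import Pool.Agent.H55.SuperKato

open MeasureTheory Filter Topology InnerProductSpace Laplacian
open scoped ContDiff Convolution

noncomputable section

namespace Pool.Agent.H55.Super

def th (k : ℕ) (t : ℝ) : ℝ := 1 - Real.smoothTransition (t - k)

lemma th_contDiff (k : ℕ) : ContDiff ℝ ∞ (th k) := by
  unfold th
  exact contDiff_const.sub (Real.smoothTransition.contDiff.comp (contDiff_id.sub contDiff_const))

lemma th_nonneg (k : ℕ) (t : ℝ) : 0 ≤ th k t := by
  unfold th; linarith [Real.smoothTransition.le_one (t - k)]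

lemma th_le_one (k : ℕ) (t : ℝ) : th k t ≤ 1 := by
  unfold th; linarith [Real.smoothTransition.nonneg (t - k)]

lemma th_antitone (k : ℕ) : Antitone (th k) := by
  intro s t hst
  unfold th
  have := Real.smoothTransition.monotone (show s - k ≤ t - k by linarith)
  linarith

lemma th_of_le (k : ℕ) {t : ℝ} (h : t ≤ k) : th k t = 1 := by
  unfold th; rw [Real.smoothTransition.zero_of_nonpos (by linarith)]; ring

lemma th_of_ge (k : ℕ) {t : ℝ} (h : k + 1 ≤ t) : th k t = 0 := by
  unfold th; rw [Real.smoothTransition.one_of_one_le (by linarith)]; ring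

def Ps (k : ℕ) (t : ℝ) : ℝ := ∫ s in (0:ℝ)..t, th k s

lemma Ps_hasDeriv (k : ℕ) (t : ℝ) : HasDerivAt (Ps k) (th k t) t := by
  unfold Ps
  exact intervalIntegral.integral_hasDerivAt_right ((th_contDiff k).continuous.intervalIntegrable _ _)
    ((th_contDiff k).continuous.stronglyMeasurableAtFilter _ _) (th_contDiff k).continuous.continuousAt

lemma Ps_contDiff (k : ℕ) : ContDiff ℝ ∞ (Ps k) := by
  rw [contDiff_infty_iff_deriv]
  refine ⟨fun t => (Ps_hasDeriv k t).differentiableAt, ?_⟩
  have : deriv (Ps k) = th k := by ext t; exact (Ps_hasDeriv k t).deriv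
  rw [this]; exact th_contDiff k

lemma Ps_lip (k : ℕ) (s t : ℝ) : |Ps k s - Ps k t| ≤ |s - t| := by
  unfold Ps
  rw [intervalIntegral.integral_interval_sub_left ((th_contDiff k).continuous.intervalIntegrable _ _) ((th_contDiff k).continuous.intervalIntegrable _ _)]
  have := intervalIntegral.norm_integral_le_of_norm_le_const (f := th k) (C := 1) (a := t) (b := s) (by
    intro x _
    rw [Real.norm_eq_abs, abs_of_nonneg (th_nonneg k x)]
    exact th_le_one k x)
  simpa using this

lemma Ps_of_le (k : ℕ) {t : ℝ} (h : t ≤ k) : Ps k t = t := by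
  unfold Ps
  have : ∫ s in (0:ℝ)..t, th k s = ∫ s in (0:ℝ)..t, (1:ℝ) := by
    apply intervalIntegral.integral_congr
    intro s hs
    apply th_of_le
    rw [Set.mem_uIcc] at hs
    have : (0:ℝ) ≤ k := Nat.cast_nonneg k
    rcases hs with hs | hs <;> linarith [hs.1, hs.2]
  rw [this]; simp

lemma Ps_zero (k : ℕ) : Ps k 0 = 0 := by unfold Ps; simp

lemma Ps_abs (k : ℕ) (t : ℝ) : |Ps k t| ≤ |t| := by
  have := Ps_lip k t 0
  simpa [Ps_zero] using this

lemma kato_k {N : ℕ} {Ω : Set (E N)} (hΩ : IsOpen Ω) {w h : E N → ℝ} (hw : IntegrableOn w Ω)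
    (hh : IntegrableOn h Ω) (hs : DistSuper Ω w h) (k : ℕ) :
    DistSuper Ω (fun x => Ps k (w x)) (fun x => th k (w x) * h x) :=
  kato hΩ hw hh hs (θ' := deriv (th k)) (Ps_hasDeriv k)
    (fun t => ((th_contDiff k).differentiable (by simp) t).hasDerivAt) (th_contDiff k) (Ps_contDiff k)
    (fun t => (th_antitone k).deriv_nonpos) (th_nonneg k) (th_le_one k) (Ps_lip k)

/-- positive part is bounded -/
lemma P_bound {g : ℝ → ℝ} (hg : Continuous g) (hsign : ∀ t, 0 ≤ g t * t) (k : ℕ) :
    ∃ B, ∀ t, th k t * max (g t) 0 ≤ B := by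
  have hc : Continuous (fun t => th k t * max (g t) 0) := (th_contDiff k).continuous.mul (hg.max continuous_const)
  obtain ⟨B, hB⟩ := (isCompact_Icc (a := (0:ℝ)) (b := k + 1)).exists_bound_of_continuousOn hc.continuousOn
  refine ⟨max B 0, fun t => ?_⟩
  by_cases h1 : t < 0
  · have : g t ≤ 0 := by
      by_contra hcon
      push Not at hcon
      have := hsign t
      nlinarith
    rw [max_eq_right this]; simp
  · by_cases h2 : (k:ℝ) + 1 < t
    · rw [th_of_ge k h2.le]; simp
    · push Not at h1 h2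
      have := hB t ⟨h1, h2⟩
      exact (le_abs_self _).trans (this.trans (le_max_left _ _))

lemma fatou_real {α : Type*} [MeasurableSpace α] {μ : Measure α} {F : ℕ → α → ℝ} {f : α → ℝ}
    (hF : ∀ i, Integrable (F i) μ) (hF0 : ∀ i x, 0 ≤ F i x) (hf : Integrable f μ) (hf0 : ∀ x, 0 ≤ f x)
    (hae : ∀ᵐ x ∂μ, Tendsto (fun i => F i x) atTop (𝓝 (f x))) {R : ℕ → ℝ} {r : ℝ}
    (hR : ∀ i, ∫ x, F i x ∂μ ≤ R i) (hr : Tendsto R atTop (𝓝 r)) : ∫ x, f x ∂μ ≤ r := by
  have hr0 : 0 ≤ r := by
    apply ge_of_tendsto' hr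
    intro i
    exact le_trans (integral_nonneg fun x => hF0 i x) (hR i)
  have h1 : ∫⁻ x, ENNReal.ofReal (f x) ∂μ = ∫⁻ x, liminf (fun i => ENNReal.ofReal (F i x)) atTop ∂μ := by
    apply lintegral_congr_ae
    filter_upwards [hae] with x hx
    exact (ENNReal.tendsto_ofReal hx).liminf_eq.symm
  have h2 : ∫⁻ x, liminf (fun i => ENNReal.ofReal (F i x)) atTop ∂μ ≤ liminf (fun i => ∫⁻ x, ENNReal.ofReal (F i x) ∂μ) atTop :=
    lintegral_liminf_le' fun i => (hF i).aestronglyMeasurable.aemeasurable.ennreal_ofReal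
  have h3 : liminf (fun i => ∫⁻ x, ENNReal.ofReal (F i x) ∂μ) atTop ≤ liminf (fun i => ENNReal.ofReal (R i)) atTop := by
    refine liminf_le_liminf (Eventually.of_forall fun i => ?_)
    show ∫⁻ x, ENNReal.ofReal (F i x) ∂μ ≤ ENNReal.ofReal (R i)
    rw [← ofReal_integral_eq_lintegral_ofReal (hF i) (Eventually.of_forall fun x => hF0 i x)]
    exact ENNReal.ofReal_le_ofReal (hR i)
  have h4 : liminf (fun i => ENNReal.ofReal (R i)) atTop = ENNReal.ofReal r := (ENNReal.tendsto_ofReal hr).liminf_eq
  have h5 : ENNReal.ofReal (∫ x, f x ∂μ) ≤ ENNReal.ofReal r := by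
    rw [ofReal_integral_eq_lintegral_ofReal hf (Eventually.of_forall hf0), h1]
    exact (h2.trans h3).trans h4.le
  exact (ENNReal.ofReal_le_ofReal_iff hr0).1 h5

theorem closed {N : ℕ} {Ω : Set (E N)} (hΩ : IsOpen Ω) {g : ℝ → ℝ} (hg : Continuous g)
    (hsign : ∀ t, 0 ≤ g t * t) {u : ℕ → E N → ℝ} {v : E N → ℝ} (hu : ∀ n, IntegrableOn (u n) Ω)
    (hgu : ∀ n, IntegrableOn (fun x => g (u n x)) Ω) {C : ℝ} (hC : ∀ n, ∫ x in Ω, |g (u n x)| ≤ C)
    (hs : ∀ n, DistSuper Ω (u n) (fun x => g (u n x))) (hv : IntegrableOn v Ω)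
    (hlim : Tendsto (fun n => ∫ x in Ω, |u n x - v x|) atTop (𝓝 0)) :
    IntegrableOn (fun x => g (v x)) Ω ∧ DistSuper Ω v (fun x => g (v x)) := by
  -- a.e. convergent subsequence
  have hmeas : TendstoInMeasure (volume.restrict Ω) u atTop v := by
    apply tendstoInMeasure_of_tendsto_eLpNorm (p := 1) one_ne_zero (fun n => (hu n).aestronglyMeasurable) hv.aestronglyMeasurable
    have : ∀ n, eLpNorm (u n - v) 1 (volume.restrict Ω) = ENNReal.ofReal (∫ x in Ω, |u n x - v x|) := by
      intro n
      have hsub : Integrable (fun x => |u n x - v x|) (volume.restrict Ω) := ((hu n).sub hv).abs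
      rw [eLpNorm_one_eq_lintegral_enorm, ofReal_integral_eq_lintegral_ofReal hsub (Eventually.of_forall fun x => abs_nonneg _)]
      congr 1
      ext x
      rw [← Real.norm_eq_abs, ofReal_norm]
      rfl
    simp_rw [this]
    simpa using ENNReal.tendsto_ofReal hlim
  obtain ⟨ns, hns, hae⟩ := hmeas.exists_seq_tendsto_ae
  -- integrability of the limit
  have hgm : AEStronglyMeasurable (fun x => g (v x)) (volume.restrict Ω) := hg.comp_aestronglyMeasurable hv.aestronglyMeasurable
  have hgi : IntegrableOn (fun x => g (v x)) Ω := by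
    refine ⟨hgm, ?_⟩
    have h1 : ∫⁻ x in Ω, ‖g (v x)‖ₑ ≤ liminf (fun i => ∫⁻ x in Ω, ‖g (u (ns i) x)‖ₑ) atTop := by
      calc ∫⁻ x in Ω, ‖g (v x)‖ₑ = ∫⁻ x in Ω, liminf (fun i => ‖g (u (ns i) x)‖ₑ) atTop := by
            apply lintegral_congr_ae
            filter_upwards [hae] with x hx
            exact (((hg.tendsto _).comp hx).enorm.liminf_eq).symm
        _ ≤ _ := lintegral_liminf_le' fun i => (hgu (ns i)).aestronglyMeasurable.enorm
    have h2 : liminf (fun i => ∫⁻ x in Ω, ‖g (u (ns i) x)‖ₑ) atTop ≤ ENNReal.ofReal C := by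
      apply liminf_le_of_frequently_le'
      apply Frequently.of_forall
      intro i
      calc ∫⁻ x in Ω, ‖g (u (ns i) x)‖ₑ = ENNReal.ofReal (∫ x in Ω, |g (u (ns i) x)|) := by
            rw [ofReal_integral_eq_lintegral_ofReal (hgu (ns i)).abs (Eventually.of_forall fun x => abs_nonneg _)]
            congr 1
            ext x
            rw [← Real.norm_eq_abs, ofReal_norm]
        _ ≤ _ := ENNReal.ofReal_le_ofReal (hC _)
    exact (h1.trans h2).trans_lt ENNReal.ofReal_lt_top
  refine ⟨hgi, ?_⟩
  -- truncated inequality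
  intro φ hφ hφs hφΩ hφ0
  have hΔc : Continuous (Δ φ) := (laplacian_contDiff hφ).continuous
  have hΔs : HasCompactSupport (Δ φ) := laplacian_hasCompactSupport hφ hφs
  obtain ⟨C1, hC1⟩ := hΔc.bounded_above_of_compact_support hΔs
  obtain ⟨C2, hC2⟩ := hφ.continuous.bounded_above_of_compact_support hφs
  have hφi : IntegrableOn φ Ω := (hφ.continuous.integrable_of_hasCompactSupport hφs).integrableOn
  have hΔi : IntegrableOn (Δ φ) Ω := (hΔc.integrable_of_hasCompactSupport hΔs).integrableOn
  have htrunc : ∀ k : ℕ, 0 ≤ (∫ x in Ω, Ps k (v x) * (-(Δ φ) x)) + ∫ x in Ω, (th k (v x) * g (v x)) * φ x := by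
    intro k
    obtain ⟨B, hB⟩ := P_bound hg hsign k
    set P : ℝ → ℝ := fun t => th k t * max (g t) 0 with hP
    set m : ℝ → ℝ := fun t => th k t * max (-g t) 0 with hm
    have hPc : Continuous P := (th_contDiff k).continuous.mul (hg.max continuous_const)
    have hmc : Continuous m := (th_contDiff k).continuous.mul (hg.neg.max continuous_const)
    have hP0 : ∀ t, 0 ≤ P t := fun t => mul_nonneg (th_nonneg k t) (le_max_right _ _)
    have hm0 : ∀ t, 0 ≤ m t := fun t => mul_nonneg (th_nonneg k t) (le_max_right _ _)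
    have hPm : ∀ t, th k t * g t = P t - m t := by
      intro t
      simp only [hP, hm]
      rcases le_total 0 (g t) with h | h
      · rw [max_eq_left h, max_eq_right (by linarith)]; ring
      · rw [max_eq_right h, max_eq_left (by linarith)]; ring
    have hmle : ∀ t, m t ≤ |g t| := by
      intro t
      simp only [hm]
      calc th k t * max (-g t) 0 ≤ 1 * max (-g t) 0 := by gcongr; exact th_le_one k t
        _ = max (-g t) 0 := one_mul _
        _ ≤ |g t| := max_le (neg_le_abs _) (abs_nonneg _)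
    -- integrability facts for a generic integrable function
    have hPsi : ∀ f : E N → ℝ, IntegrableOn f Ω → IntegrableOn (fun x => Ps k (f x) * (-(Δ φ) x)) Ω := by
      intro f hf
      have hb : IntegrableOn (fun x => |f x| * C1) Ω := hf.abs.mul_const _
      apply hb.mono' (((Ps_contDiff k).continuous.comp_aestronglyMeasurable hf.aestronglyMeasurable).mul hΔc.neg.aestronglyMeasurable)
      apply Eventually.of_forall
      intro x
      simp only [Pi.mul_apply, Pi.neg_apply]
      rw [norm_mul, norm_neg, Real.norm_eq_abs (Ps k _)]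
      exact mul_le_mul (Ps_abs k _) (hC1 x) (norm_nonneg _) (abs_nonneg _)
    have hPi : ∀ f : E N → ℝ, IntegrableOn f Ω → IntegrableOn (fun x => P (f x) * φ x) Ω := by
      intro f hf
      have hb : IntegrableOn (fun x => B * φ x) Ω := hφi.const_mul _
      apply hb.mono' ((hPc.comp_aestronglyMeasurable hf.aestronglyMeasurable).mul hφ.continuous.aestronglyMeasurable)
      apply Eventually.of_forall
      intro x
      simp only [Pi.mul_apply]
      rw [Real.norm_eq_abs, abs_of_nonneg (mul_nonneg (hP0 _) (hφ0 x))]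
      exact mul_le_mul_of_nonneg_right (hB _) (hφ0 x)
    have hmi : ∀ f : E N → ℝ, IntegrableOn f Ω → IntegrableOn (fun x => g (f x)) Ω → IntegrableOn (fun x => m (f x) * φ x) Ω := by
      intro f hf hgf
      have hb : IntegrableOn (fun x => |g (f x)| * C2) Ω := hgf.abs.mul_const _
      apply hb.mono' ((hmc.comp_aestronglyMeasurable hf.aestronglyMeasurable).mul hφ.continuous.aestronglyMeasurable)
      apply Eventually.of_forall
      intro x
      simp only [Pi.mul_apply]
      rw [norm_mul, Real.norm_eq_abs (m _), abs_of_nonneg (hm0 _)]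
      exact mul_le_mul (hmle _) (hC2 x) (norm_nonneg _) (abs_nonneg _)
    have hsplit : ∀ f : E N → ℝ, IntegrableOn f Ω → IntegrableOn (fun x => g (f x)) Ω →
        ∫ x in Ω, (th k (f x) * g (f x)) * φ x = (∫ x in Ω, P (f x) * φ x) - ∫ x in Ω, m (f x) * φ x := by
      intro f hf hgf
      rw [← integral_sub (hPi f hf) (hmi f hf hgf)]
      congr 1
      ext x
      rw [hPm]; ring
    have hR : ∀ i, ∫ x in Ω, m (u (ns i) x) * φ x ≤
        (∫ x in Ω, Ps k (u (ns i) x) * (-(Δ φ) x)) + ∫ x in Ω, P (u (ns i) x) * φ x := by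
      intro i
      have h1 := kato_k hΩ (hu (ns i)) (hgu (ns i)) (hs (ns i)) k φ hφ hφs hφΩ hφ0
      rw [hsplit _ (hu (ns i)) (hgu (ns i))] at h1
      linarith
    have hlimns : Tendsto (fun i => ∫ x in Ω, |u (ns i) x - v x|) atTop (𝓝 0) := hlim.comp hns.tendsto_atTop
    have hT1 : Tendsto (fun i => ∫ x in Ω, Ps k (u (ns i) x) * (-(Δ φ) x)) atTop (𝓝 (∫ x in Ω, Ps k (v x) * (-(Δ φ) x))) := by
      rw [tendsto_iff_dist_tendsto_zero]
      apply squeeze_zero (fun n => dist_nonneg) (g := fun i => C1 * ∫ x in Ω, |u (ns i) x - v x|)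
      · intro i
        rw [dist_eq_norm, ← integral_sub (hPsi _ (hu (ns i))) (hPsi _ hv)]
        refine (norm_integral_le_integral_norm _).trans ?_
        rw [← integral_const_mul]
        apply integral_mono_of_nonneg
        · exact Eventually.of_forall fun x => norm_nonneg _
        · exact ((hu (ns i)).sub hv).abs.const_mul _
        · apply Eventually.of_forall
          intro x
          simp only
          rw [← sub_mul, norm_mul, Real.norm_eq_abs, norm_neg, mul_comm]
          exact mul_le_mul (hC1 x) (Ps_lip k _ _) (abs_nonneg _) ((norm_nonneg _).trans (hC1 x))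
      · simpa using hlimns.const_mul C1
    have hT2 : Tendsto (fun i => ∫ x in Ω, P (u (ns i) x) * φ x) atTop (𝓝 (∫ x in Ω, P (v x) * φ x)) := by
      apply tendsto_integral_of_dominated_convergence (fun x => B * φ x)
      · intro i
        exact (hPi _ (hu (ns i))).aestronglyMeasurable
      · exact hφi.const_mul _
      · intro i
        apply Eventually.of_forall
        intro x
        rw [Real.norm_eq_abs, abs_of_nonneg (mul_nonneg (hP0 _) (hφ0 x))]
        exact mul_le_mul_of_nonneg_right (hB _) (hφ0 x)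
      · filter_upwards [hae] with x hx
        exact ((hPc.tendsto _).comp hx).mul_const _
    have hT := hT1.add hT2
    have hmain : ∫ x in Ω, m (v x) * φ x ≤ (∫ x in Ω, Ps k (v x) * (-(Δ φ) x)) + ∫ x in Ω, P (v x) * φ x := by
      refine fatou_real (F := fun i x => m (u (ns i) x) * φ x) (fun i => hmi _ (hu (ns i)) (hgu (ns i)))
        (fun i x => mul_nonneg (hm0 _) (hφ0 x)) (hmi _ hv hgi) (fun x => mul_nonneg (hm0 _) (hφ0 x)) ?_ hR hT
      filter_upwards [hae] with x hx
      exact ((hmc.tendsto _).comp hx).mul_const _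
    rw [hsplit _ hv hgi]
    linarith
  -- let `k → ∞`
  have hK1 : Tendsto (fun k : ℕ => ∫ x in Ω, Ps k (v x) * (-(Δ φ) x)) atTop (𝓝 (∫ x in Ω, v x * (-(Δ φ) x))) := by
    apply tendsto_integral_of_dominated_convergence (fun x => |v x| * C1)
    · intro k
      exact ((Ps_contDiff k).continuous.comp_aestronglyMeasurable hv.aestronglyMeasurable).mul hΔc.neg.aestronglyMeasurable
    · exact hv.abs.mul_const _
    · intro k
      apply Eventually.of_forall
      intro x
      rw [norm_mul, norm_neg, Real.norm_eq_abs (Ps k _)]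
      exact mul_le_mul (Ps_abs k _) (hC1 x) (norm_nonneg _) (abs_nonneg _)
    · apply Eventually.of_forall
      intro x
      apply tendsto_const_nhds.congr'
      obtain ⟨k0, hk0⟩ := exists_nat_ge (v x)
      filter_upwards [eventually_ge_atTop k0] with k hk
      rw [Ps_of_le k (hk0.trans (by exact_mod_cast hk))]
  have hK2 : Tendsto (fun k : ℕ => ∫ x in Ω, (th k (v x) * g (v x)) * φ x) atTop (𝓝 (∫ x in Ω, g (v x) * φ x)) := by
    apply tendsto_integral_of_dominated_convergence (fun x => |g (v x)| * C2)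
    · intro k
      exact (((th_contDiff k).continuous.comp_aestronglyMeasurable hv.aestronglyMeasurable).mul hgm).mul hφ.continuous.aestronglyMeasurable
    · exact hgi.abs.mul_const _
    · intro k
      apply Eventually.of_forall
      intro x
      rw [norm_mul, norm_mul, Real.norm_eq_abs (th k _), abs_of_nonneg (th_nonneg k _), Real.norm_eq_abs (g _)]
      apply mul_le_mul _ (hC2 x) (norm_nonneg _) (abs_nonneg _)
      calc th k (v x) * |g (v x)| ≤ 1 * |g (v x)| := by gcongr; exact th_le_one k _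
        _ = _ := one_mul _
    · apply Eventually.of_forall
      intro x
      apply tendsto_const_nhds.congr'
      obtain ⟨k0, hk0⟩ := exists_nat_ge (v x)
      filter_upwards [eventually_ge_atTop k0] with k hk
      rw [th_of_le k (hk0.trans (by exact_mod_cast hk)), one_mul]
  exact ge_of_tendsto' (hK1.add hK2) htrunc

end Pool.Agent.H55.Super
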